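import Pool.Agent.H46.AF.Defs

/-! # DEP: the degenerate cases

* `row_dep`: if the row `i₁` of `h` is killed by a nonzero integral vector `y` (`∑ j, h i₁ j y j = 0`)
  then `LowZ h ν` fails for `ν > 0` (trivial: the product is `0` at `y`).
* `col_dep`: `det h ≠ 0`, `d ≥ 2`, `y` a nonzero integral vector with `∑ i, y i h⁻¹ i j₁ = 0`.  Then `LowZ h ν`
  fails for every `ν > 0`.  Proof.  Put `b k = ∑ i, y i h⁻¹ i k`, so `∑ k, b k h k j = y j` and `b j₁ = 0`,
  some `b k₀ ≠ 0` (`y ≠ 0`), `k₀ ≠ j₁`.  Let `δ` be small, `N` a large natural.  Pigeonhole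
  (`Finset.exists_ne_map_eq_of_card_lt_of_maps_to`) on the `(N+1)^d` integral vectors `x` with entries in `[0, N]`: the integer
  `y · x` takes at most `C N + 1` values, and each of the `d - 2` forms `l k x = ∑ j h k j x j`,
  `k ≠ j₁, k₀`, lies in one of at most `C N / δ + 1` cells of length `δ`.  If
  `(N+1)^d > (C N + 1) (C N / δ + 1)^(d-2)`, e.g. `N ≥ C' δ^{-(d-2)}`, there are two with the same data; their
  difference `x ≠ 0` has `|x j| ≤ N`, `y · x = 0`, `|l k x| ≤ δ` for `k ≠ j₁, k₀`, hence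
  `|l k₀ x| = |∑_{k ≠ k₀, j₁} b k l k x / b k₀| ≤ C δ`, and `|l j₁ x| ≤ C N`.  With `N = ⌈C' δ^{-(d-2)}⌉` the product is at most
  `δ^(d-2) * C δ * C N ≤ C'' δ`, which is smaller than `ν` for small `δ`. -/

set_option autoImplicit false

namespace H46.AF

theorem row_dep {d : ℕ} (h : Matrix (Fin d) (Fin d) ℝ) (i₁ : Fin d) (y : Fin d → ℤ)
    (hy : y ≠ 0) (h0 : ∑ j, h i₁ j * (y j : ℝ) = 0) (ν : ℝ) (hν : 0 < ν) : ¬ LowZ h ν := by
  intro hl
  have h1 := hl y hy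
  rw [Finset.prod_eq_zero (Finset.mem_univ i₁) h0, abs_zero] at h1
  exact absurd h1 (not_le.2 hν)

theorem Dep_prod {d : ℕ} (hd : 2 ≤ d) {j₁ k₀ : Fin d} (hne : k₀ ≠ j₁) {M : Type*}
    [CommMonoid M] (f : Fin d → M) :
    ∏ k, f k = f j₁ * (f k₀ * ∏ k ∈ (Finset.univ.erase j₁).erase k₀, f k) ∧
      ((Finset.univ.erase j₁).erase k₀).card = d - 2 := by
  have hmem : k₀ ∈ Finset.univ.erase j₁ := Finset.mem_erase.2 ⟨hne, Finset.mem_univ _⟩
  constructor
  · rw [Finset.mul_prod_erase _ _ hmem, Finset.mul_prod_erase _ _ (Finset.mem_univ _)]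
  · rw [Finset.card_erase_of_mem hmem, Finset.card_erase_of_mem (Finset.mem_univ _),
      Finset.card_univ, Fintype.card_fin]
    omega

theorem Dep_pigeon {d : ℕ} (hd : 2 ≤ d) (h : Matrix (Fin d) (Fin d) ℝ) (y : Fin d → ℤ)
    (j₁ k₀ : Fin d) (hne : k₀ ≠ j₁) (C q : ℕ) (hC : 1 ≤ C) (hq : 1 ≤ q)
    (hCh : ∀ k, ∑ j, |h k j| ≤ (C : ℝ)) (hCy : ∑ j, |y j| ≤ (C : ℤ)) :
    ∃ x : Fin d → ℤ, x ≠ 0 ∧ ∑ j, y j * x j = 0 ∧
      (∀ k, k ≠ j₁ → k ≠ k₀ → |∑ j, h k j * (x j : ℝ)| ≤ 1 / (q : ℝ)) ∧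
      ∀ k, |∑ j, h k j * (x j : ℝ)| ≤ (C : ℝ) * ((3 * C) ^ (d - 1) * (q : ℝ) ^ (d - 2)) := by
  classical
  obtain ⟨N, hN⟩ : ∃ N : ℕ, N = (3 * C) ^ (d - 1) * q ^ (d - 2) := ⟨_, rfl⟩
  have hN1 : 1 ≤ N := by
    rw [hN]
    exact Nat.mul_pos (Nat.pow_pos (by omega)) (Nat.pow_pos (by omega))
  -- bounds for vectors with entries at most `N`
  have hb1 : ∀ (x : Fin d → ℤ), (∀ j, |x j| ≤ (N : ℤ)) → |∑ j, y j * x j| ≤ (C * N : ℕ) := by
    intro x hx
    calc |∑ j, y j * x j| ≤ ∑ j, |y j * x j| := Finset.abs_sum_le_sum_abs _ _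
      _ ≤ ∑ j, |y j| * N := Finset.sum_le_sum fun j _ => by
          rw [abs_mul]
          exact mul_le_mul_of_nonneg_left (hx j) (abs_nonneg _)
      _ = (∑ j, |y j|) * N := by rw [Finset.sum_mul]
      _ ≤ (C : ℤ) * N := mul_le_mul_of_nonneg_right hCy (by positivity)
      _ = (C * N : ℕ) := by push_cast; ring
  have hb2 : ∀ (x : Fin d → ℤ), (∀ j, |x j| ≤ (N : ℤ)) → ∀ k,
      |∑ j, h k j * (x j : ℝ)| ≤ (C : ℝ) * N := by
    intro x hx k
    calc |∑ j, h k j * (x j : ℝ)| ≤ ∑ j, |h k j * (x j : ℝ)| := Finset.abs_sum_le_sum_abs _ _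
      _ ≤ ∑ j, |h k j| * N := Finset.sum_le_sum fun j _ => by
          rw [abs_mul]
          refine mul_le_mul_of_nonneg_left ?_ (abs_nonneg _)
          have := hx j
          have h2 : ((|x j| : ℤ) : ℝ) ≤ ((N : ℤ) : ℝ) := by exact_mod_cast this
          rw [Int.cast_abs] at h2
          simpa using h2
      _ = (∑ j, |h k j|) * N := by rw [Finset.sum_mul]
      _ ≤ (C : ℝ) * N := mul_le_mul_of_nonneg_right (hCh k) (by positivity)
  -- the pigeonhole
  let g : (Fin d → Fin (N + 1)) → (Fin d → ℤ) := fun a k =>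
    if k = j₁ then 0 else if k = k₀ then ∑ j, y j * ((a j : ℕ) : ℤ)
    else ⌊(q : ℝ) * ∑ j, h k j * (((a j : ℕ) : ℤ) : ℝ)⌋
  let T : Finset (Fin d → ℤ) := Fintype.piFinset (fun k =>
    if k = j₁ then {0} else if k = k₀ then Finset.Icc (-((C * N : ℕ) : ℤ)) ((C * N : ℕ) : ℤ)
    else Finset.Icc (-((q * (C * N) : ℕ) : ℤ)) ((q * (C * N) : ℕ) : ℤ))
  have hentry : ∀ (a : Fin d → Fin (N + 1)) j, |((a j : ℕ) : ℤ)| ≤ (N : ℤ) := by
    intro a j
    have := (a j).isLt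
    rw [abs_of_nonneg (by positivity)]
    omega
  have hmaps : ∀ a ∈ (Finset.univ : Finset (Fin d → Fin (N + 1))), g a ∈ T := by
    intro a _
    rw [Fintype.mem_piFinset]
    intro k
    by_cases h1 : k = j₁
    · simp [g, h1]
    · by_cases h2 : k = k₀
      · simp only [g, if_neg h1, if_pos h2]
        rw [Finset.mem_Icc, ← abs_le]
        exact hb1 _ (hentry a)
      · simp only [g, if_neg h1, if_neg h2]
        have h3 := abs_le.1 (hb2 _ (hentry a) k)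
        have hq0 : (0 : ℝ) ≤ q := by positivity
        rw [Finset.mem_Icc]
        constructor
        · rw [Int.le_floor]
          push_cast
          have h4 := mul_le_mul_of_nonneg_left h3.1 hq0
          push_cast at h4
          linarith
        · have h4 := mul_le_mul_of_nonneg_left h3.2 hq0
          have h5 := Int.floor_le ((q : ℝ) * ∑ j, h k j * (((a j : ℕ) : ℤ) : ℝ))
          have h6 : ((⌊(q : ℝ) * ∑ j, h k j * (((a j : ℕ) : ℤ) : ℝ)⌋ : ℤ) : ℝ) ≤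
              ((q * (C * N) : ℕ) : ℝ) := by
            push_cast at h4 h5 ⊢
            linarith
          exact_mod_cast h6
  have hcT : T.card = (2 * (C * N) + 1) * (2 * (q * (C * N)) + 1) ^ (d - 2) := by
    rw [Fintype.card_piFinset, (Dep_prod hd hne _).1]
    rw [if_pos rfl, Finset.card_singleton, one_mul, if_neg hne, if_pos rfl]
    congr 1
    · rw [Int.card_Icc]
      omega
    · rw [← (Dep_prod hd hne (fun _ => (1 : ℕ))).2, ← Finset.prod_const]
      refine Finset.prod_congr rfl fun k hk => ?_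
      rw [Finset.mem_erase, Finset.mem_erase] at hk
      rw [if_neg hk.2.1, if_neg hk.1, Int.card_Icc]
      omega
  have hlt : T.card < (Finset.univ : Finset (Fin d → Fin (N + 1))).card := by
    rw [hcT, Finset.card_univ, Fintype.card_fun, Fintype.card_fin, Fintype.card_fin]
    have e1 : 2 * (C * N) + 1 ≤ 3 * C * N := by nlinarith [Nat.mul_pos hC hN1]
    have e2 : 2 * (q * (C * N)) + 1 ≤ 3 * C * N * q := by
      nlinarith [Nat.mul_pos (Nat.mul_pos hC hN1) hq]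
    calc (2 * (C * N) + 1) * (2 * (q * (C * N)) + 1) ^ (d - 2)
        ≤ (3 * C * N) * (3 * C * N * q) ^ (d - 2) := Nat.mul_le_mul e1 (Nat.pow_le_pow_left e2 _)
      _ = (3 * C * N) ^ (d - 2 + 1) * q ^ (d - 2) := by
          rw [mul_pow (3 * C * N) q, pow_succ]
          ring
      _ = N ^ (d - 1) * ((3 * C) ^ (d - 1) * q ^ (d - 2)) := by
          rw [show d - 2 + 1 = d - 1 by omega, mul_pow (3 * C) N]
          ring
      _ = N ^ (d - 1 + 1) := by rw [← hN, pow_succ]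
      _ = N ^ d := by rw [show d - 1 + 1 = d by omega]
      _ < (N + 1) ^ d := Nat.pow_lt_pow_left (by omega) (by omega)
  obtain ⟨a, _, a', _, haa, hgg⟩ := Finset.exists_ne_map_eq_of_card_lt_of_maps_to hlt hmaps
  have hxb : ∀ j, |((a j : ℕ) : ℤ) - ((a' j : ℕ) : ℤ)| ≤ (N : ℤ) := by
    intro j
    have h1 := (a j).isLt
    have h2 := (a' j).isLt
    rw [abs_le]
    constructor <;> omega
  have hsplit : ∀ k, ∑ j, h k j * ((((a j : ℕ) : ℤ) - ((a' j : ℕ) : ℤ) : ℤ) : ℝ) =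
      ∑ j, h k j * (((a j : ℕ) : ℤ) : ℝ) - ∑ j, h k j * (((a' j : ℕ) : ℤ) : ℝ) := by
    intro k
    rw [← Finset.sum_sub_distrib]
    refine Finset.sum_congr rfl fun j _ => ?_
    push_cast
    ring
  refine ⟨fun j => ((a j : ℕ) : ℤ) - ((a' j : ℕ) : ℤ), ?_, ?_, ?_, ?_⟩
  · intro h0
    apply haa
    funext j
    have h1 := congrFun h0 j
    simp only [Pi.zero_apply] at h1
    apply Fin.ext
    omega
  · have h1 := congrFun hgg k₀
    simp only [g, if_neg hne, if_true] at h1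
    have h2 : ∑ j, y j * (((a j : ℕ) : ℤ) - ((a' j : ℕ) : ℤ)) =
        ∑ j, y j * ((a j : ℕ) : ℤ) - ∑ j, y j * ((a' j : ℕ) : ℤ) := by
      rw [← Finset.sum_sub_distrib]
      exact Finset.sum_congr rfl fun j _ => by ring
    rw [h2, h1, sub_self]
  · intro k hk1 hk2
    have h1 := congrFun hgg k
    simp only [g, if_neg hk1, if_neg hk2] at h1
    have h2 := Int.abs_sub_lt_one_of_floor_eq_floor h1
    rw [hsplit k]
    have hq0 : (0 : ℝ) < q := by exact_mod_cast hq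
    rw [← mul_sub, abs_mul, abs_of_pos hq0] at h2
    rw [le_div_iff₀ hq0, mul_comm]
    exact h2.le
  · intro k
    have h1 := hb2 _ hxb k
    have h2 : (N : ℝ) = (3 * C) ^ (d - 1) * (q : ℝ) ^ (d - 2) := by
      have h3 := congrArg (fun t : ℕ => (t : ℝ)) hN
      push_cast at h3
      exact h3
    rw [← h2]
    exact h1

theorem col_dep {d : ℕ} (hd : 2 ≤ d) (h : Matrix (Fin d) (Fin d) ℝ) (hdet : h.det ≠ 0)
    (j₁ : Fin d) (y : Fin d → ℤ) (hy : y ≠ 0) (h0 : ∑ i, (y i : ℝ) * h⁻¹ i j₁ = 0) (ν : ℝ)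
    (hν : 0 < ν) : ¬ LowZ h ν := by
  classical
  intro hl
  obtain ⟨b, hb⟩ : ∃ b : Fin d → ℝ, b = fun k => ∑ i, (y i : ℝ) * h⁻¹ i k := ⟨_, rfl⟩
  have hunit : IsUnit h.det := isUnit_iff_ne_zero.2 hdet
  have hby : ∀ j, ∑ k, b k * h k j = (y j : ℝ) := by
    intro j
    have h1 : Matrix.vecMul (Matrix.vecMul (fun i => (y i : ℝ)) h⁻¹) h = fun i => (y i : ℝ) := by
      rw [Matrix.vecMul_vecMul, Matrix.nonsing_inv_mul _ hunit, Matrix.vecMul_one]
    have h2 := congrFun h1 j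
    rw [← h2, hb]
    rfl
  have hb1 : b j₁ = 0 := by
    rw [hb]
    exact h0
  obtain ⟨k₀, hk₀⟩ : ∃ k, b k ≠ 0 := by
    by_contra hcon
    push Not at hcon
    apply hy
    funext j
    have h1 := hby j
    simp only [hcon, zero_mul, Finset.sum_const_zero] at h1
    exact_mod_cast h1.symm
  have hne : k₀ ≠ j₁ := by
    rintro rfl
    exact hk₀ hb1
  -- the constants
  obtain ⟨C, hC1, hCh, hCy⟩ : ∃ C : ℕ, 1 ≤ C ∧ (∀ k, ∑ j, |h k j| ≤ (C : ℝ)) ∧
      ∑ j, |y j| ≤ (C : ℤ) := by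
    obtain ⟨C1, hC1⟩ := exists_nat_ge (∑ k, ∑ j, |h k j|)
    obtain ⟨C2, hC2⟩ : ∃ C2 : ℕ, ∑ j, |y j| ≤ (C2 : ℤ) :=
      ⟨(∑ j, |y j|).toNat, Int.self_le_toNat _⟩
    refine ⟨C1 + C2 + 1, by omega, fun k => ?_, ?_⟩
    · have h1 : ∑ j, |h k j| ≤ ∑ k, ∑ j, |h k j| :=
        Finset.single_le_sum (f := fun k => ∑ j, |h k j|)
          (fun _ _ => Finset.sum_nonneg fun _ _ => abs_nonneg _) (Finset.mem_univ k)
      push_cast
      have h2 : (0 : ℝ) ≤ C2 := by positivity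
      linarith
    · push_cast
      have h2 : (0 : ℤ) ≤ C1 := by positivity
      linarith
  obtain ⟨Cb, hCb⟩ : ∃ Cb : ℝ, Cb = (∑ k, |b k|) / |b k₀| := ⟨_, rfl⟩
  have hCb0 : 0 ≤ Cb := by
    rw [hCb]
    positivity
  obtain ⟨q, hq⟩ := exists_nat_gt ((C : ℝ) * (3 * C) ^ (d - 1) * Cb / ν)
  have hqpos : (0 : ℝ) < q := lt_of_le_of_lt (by positivity) hq
  have hq1 : 1 ≤ q := by exact_mod_cast hqpos
  obtain ⟨x, hx0, hyx, hx1, hx2⟩ := Dep_pigeon hd h y j₁ k₀ hne C q hC1 hq1 hCh hCy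
  -- the form `k₀`
  have hk : |∑ j, h k₀ j * (x j : ℝ)| ≤ Cb / q := by
    have h1 : ∑ k, b k * ∑ j, h k j * (x j : ℝ) = 0 := by
      have h2 : ∑ k, b k * ∑ j, h k j * (x j : ℝ) = ∑ j, (∑ k, b k * h k j) * (x j : ℝ) := by
        simp only [Finset.mul_sum, Finset.sum_mul]
        rw [Finset.sum_comm]
        refine Finset.sum_congr rfl fun j _ => Finset.sum_congr rfl fun k _ => ?_
        ring
      rw [h2]
      simp only [hby]
      exact_mod_cast hyx
    rw [← Finset.add_sum_erase Finset.univ _ (Finset.mem_univ k₀)] at h1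
    have h2 : |b k₀| * |∑ j, h k₀ j * (x j : ℝ)| ≤ (∑ k, |b k|) * (1 / q) := by
      rw [← abs_mul, eq_neg_of_add_eq_zero_left h1, abs_neg]
      calc |∑ k ∈ Finset.univ.erase k₀, b k * ∑ j, h k j * (x j : ℝ)|
          ≤ ∑ k ∈ Finset.univ.erase k₀, |b k * ∑ j, h k j * (x j : ℝ)| :=
            Finset.abs_sum_le_sum_abs _ _
        _ ≤ ∑ k ∈ Finset.univ.erase k₀, |b k| * (1 / q) := by
            refine Finset.sum_le_sum fun k hk => ?_
            rw [abs_mul]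
            by_cases hk1 : k = j₁
            · rw [hk1, hb1, abs_zero, zero_mul, zero_mul]
            · exact mul_le_mul_of_nonneg_left (hx1 k hk1 (Finset.ne_of_mem_erase hk))
                (abs_nonneg _)
        _ ≤ ∑ k, |b k| * (1 / q) := Finset.sum_le_sum_of_subset_of_nonneg
            (Finset.erase_subset _ _) fun _ _ _ => by positivity
        _ = (∑ k, |b k|) * (1 / q) := by rw [Finset.sum_mul]
    have h3 : 0 < |b k₀| := abs_pos.2 hk₀
    rw [hCb, div_div, le_div_iff₀ (by positivity)]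
    have h4 := mul_le_mul_of_nonneg_right h2 hqpos.le
    rw [mul_assoc (∑ k, |b k|), one_div, inv_mul_cancel₀ hqpos.ne', mul_one] at h4
    linarith
  -- the product
  have hfin := hl x hx0
  rw [Finset.abs_prod, (Dep_prod hd hne _).1] at hfin
  have hprod : ∏ k ∈ (Finset.univ.erase j₁).erase k₀, |∑ j, h k j * (x j : ℝ)| ≤
      (1 / (q : ℝ)) ^ (d - 2) := by
    rw [← (Dep_prod hd hne (fun _ => (1 : ℕ))).2, ← Finset.prod_const]
    refine Finset.prod_le_prod (fun _ _ => abs_nonneg _) fun k hk => ?_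
    rw [Finset.mem_erase, Finset.mem_erase] at hk
    exact hx1 k hk.2.1 hk.1
  have h1 : |∑ j, h j₁ j * (x j : ℝ)| * (|∑ j, h k₀ j * (x j : ℝ)| *
      ∏ k ∈ (Finset.univ.erase j₁).erase k₀, |∑ j, h k j * (x j : ℝ)|) ≤
      ((C : ℝ) * ((3 * C) ^ (d - 1) * (q : ℝ) ^ (d - 2))) * ((Cb / q) * (1 / (q : ℝ)) ^ (d - 2)) := by
    refine mul_le_mul (hx2 j₁) ?_ (by positivity) (by positivity)
    exact mul_le_mul hk hprod (Finset.prod_nonneg fun _ _ => abs_nonneg _) (by positivity)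
  have h2 : ((C : ℝ) * ((3 * C) ^ (d - 1) * (q : ℝ) ^ (d - 2))) *
      ((Cb / q) * (1 / (q : ℝ)) ^ (d - 2)) = (C : ℝ) * (3 * C) ^ (d - 1) * Cb / q := by
    rw [one_div, inv_pow]
    field_simp
  rw [h2] at h1
  have h3 : (C : ℝ) * (3 * C) ^ (d - 1) * Cb / q < ν := by
    rw [div_lt_iff₀ hqpos]
    rw [div_lt_iff₀ hν] at hq
    linarith
  linarith

end H46.AF
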