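import Pool.Agent.H46.AF.Tr

/-! # INTA: monomial rows give integral forms

* `int_of_mono`: if `cof v h i σ = 0` for `σ ≠ π i` (and `v, ω` trace dual, `[K : ℚ] = d`, `det h ≠ 0`)
  then `Integral h`.  Proof.  For integral `x` (and by the same formula for all rational `x`) put
  `μ = ∑ x j ω j`.  By `lin_cof` `∑ j, h i j x j = cof v h i (π i) (π i) μ`, so
  `∏ i ∑ j h i j x j = A ∏_σ σ μ = A N(μ)` with `A = ∏ i cof v h i (π i)` (complex, nonzero by `perm_cof` or since
  the left side is not identically `0`).  `N(∑ x j ω j) = det (∑ x j L j)`, `L j` the rational matrix of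
  multiplication by `ω j` in a basis (`Algebra.norm_eq_matrix_det`, `Algebra.leftMulMatrix`), so it is
  the value at `x` of a polynomial `P` with rational coefficients, `P = det (∑ X j C (L j))`.  The real
  polynomial `∏ i ∑ j C (h i j) X j` and `A' P` (`A'` real: both sides are real at integral points and
  `P` is not `0` somewhere) agree at all integral points, so they are equal (`MvPolynomial.funext`-type lemma on an
  infinite subset, e.g. `MvPolynomial.funext_set` with `s i = range (Int.cast)`).  With `m` a common denominator of the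
  coefficients of `P` (`P` has finitely many), `c = m / A'` works. -/

set_option autoImplicit false

open scoped NumberField
open NumberField Filter Topology

namespace H46.AF

theorem inta_norm {K : Type} [Field K] [NumberField K] (μ : K) :
    ((Algebra.norm ℚ μ : ℚ) : ℂ) = ∏ σ : K →+* ℂ, σ μ := by
  have h2 := Algebra.norm_eq_prod_embeddings ℚ ℂ μ
  rw [eq_ratCast] at h2
  rw [h2]
  exact (Fintype.prod_equiv (RingHom.equivRatAlgHom K ℂ) _ _ (fun σ => rfl)).symm

theorem inta_val {K : Type} [Field K] [NumberField K] {d : ℕ}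
    (v ω : Fin d → K)
    (hdual : ∀ j k, Algebra.trace ℚ K (v j * ω k) = if j = k then 1 else 0)
    (h : Matrix (Fin d) (Fin d) ℝ) (π : Fin d ≃ (K →+* ℂ))
    (hm : ∀ i σ, σ ≠ π i → cof v h i σ = 0) (x : Fin d → ℤ) :
    ((∏ i, ∑ j, h i j * (x j : ℝ) : ℝ) : ℂ) =
      (∏ i, cof v h i (π i)) * ((Algebra.norm ℚ (∑ j, (x j : K) * ω j) : ℚ) : ℂ) := by
  have h1 : ∀ i, ((∑ j, h i j * (x j : ℝ) : ℝ) : ℂ) =
      cof v h i (π i) * (π i) (∑ j, (x j : K) * ω j) := by
    intro i
    rw [← lin_cof v ω hdual h i x]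
    unfold lin
    rw [Finset.sum_eq_single (π i)]
    · intro σ _ hσ
      rw [hm i σ hσ, zero_mul]
    · intro h2
      exact absurd (Finset.mem_univ _) h2
  rw [Complex.ofReal_prod, Finset.prod_congr rfl (fun i _ => h1 i), Finset.prod_mul_distrib,
    inta_norm, Equiv.prod_comp π (fun σ => σ (∑ j, (x j : K) * ω j))]

/-- the norm form of the vectors `ω` is a polynomial with rational coefficients -/
theorem inta_poly {K : Type} [Field K] [NumberField K] {d : ℕ} (ω : Fin d → K) :
    ∃ P : MvPolynomial (Fin d) ℚ, ∀ x : Fin d → ℤ,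
      MvPolynomial.eval (fun j => (x j : ℚ)) P = Algebra.norm ℚ (∑ j, (x j : K) * ω j) := by
  classical
  let b := Module.finBasis ℚ K
  let M : Matrix (Fin (Module.finrank ℚ K)) (Fin (Module.finrank ℚ K)) (MvPolynomial (Fin d) ℚ) :=
    Matrix.of fun r s => ∑ j, MvPolynomial.X j * MvPolynomial.C (Algebra.leftMulMatrix b (ω j) r s)
  refine ⟨M.det, fun x => ?_⟩
  rw [RingHom.map_det, Algebra.norm_eq_matrix_det b]
  congr 1
  have h1 : (∑ j, (x j : K) * ω j) = ∑ j, (x j : ℚ) • ω j := by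
    refine Finset.sum_congr rfl fun j _ => ?_
    rw [Algebra.smul_def, map_intCast]
  rw [h1, map_sum]
  ext r s
  rw [Matrix.sum_apply]
  simp only [RingHom.mapMatrix_apply, Matrix.map_apply, M, Matrix.of_apply, map_sum, map_mul,
    MvPolynomial.eval_X, MvPolynomial.eval_C, map_smul, Matrix.smul_apply, smul_eq_mul]

/-- a common denominator -/
theorem inta_den {d : ℕ} (P : MvPolynomial (Fin d) ℚ) :
    ∃ m : ℕ, m ≠ 0 ∧ ∀ s : Fin d →₀ ℕ, ∃ z : ℤ, (m : ℚ) * MvPolynomial.coeff s P = (z : ℚ) := by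
  classical
  refine ⟨∏ s ∈ P.support, (MvPolynomial.coeff s P).den, ?_, fun s => ?_⟩
  · exact Finset.prod_ne_zero_iff.2 fun s _ => (MvPolynomial.coeff s P).den_nz
  · by_cases hs : s ∈ P.support
    · obtain ⟨k, hk⟩ := Finset.dvd_prod_of_mem (fun s => (MvPolynomial.coeff s P).den) hs
      refine ⟨(MvPolynomial.coeff s P).num * k, ?_⟩
      rw [hk]
      have h1 : (((MvPolynomial.coeff s P).den : ℕ) : ℚ) * MvPolynomial.coeff s P =
          ((MvPolynomial.coeff s P).num : ℚ) := Rat.den_mul_eq_num _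
      push_cast
      calc (((MvPolynomial.coeff s P).den : ℕ) : ℚ) * (k : ℚ) * MvPolynomial.coeff s P
          = ((((MvPolynomial.coeff s P).den : ℕ) : ℚ) * MvPolynomial.coeff s P) * k := by ring
        _ = _ := by rw [h1]
    · refine ⟨0, ?_⟩
      rw [MvPolynomial.notMem_support_iff.1 hs, mul_zero, Int.cast_zero]

theorem int_of_mono {K : Type} [Field K] [NumberField K] {d : ℕ}
    (hd : Module.finrank ℚ K = d) (v ω : Fin d → K)
    (hdual : ∀ j k, Algebra.trace ℚ K (v j * ω k) = if j = k then 1 else 0)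
    (h : Matrix (Fin d) (Fin d) ℝ) (hdet : h.det ≠ 0) (π : Fin d ≃ (K →+* ℂ))
    (hm : ∀ i σ, σ ≠ π i → cof v h i σ = 0) : Integral h := by
  classical
  obtain ⟨P, hP⟩ := inta_poly (K := K) ω
  obtain ⟨m, hm0, hmz⟩ := inta_den P
  -- the constant is not zero
  have hA : (∏ i, cof v h i (π i)) ≠ 0 := by
    obtain ⟨π', hπ'⟩ := perm_cof hd v ω hdual h hdet
    refine Finset.prod_ne_zero_iff.2 fun i _ => ?_
    have h1 : π' i = π i := by
      by_contra h2
      exact hπ' i (hm i _ h2)
    rw [← h1]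
    exact hπ' i
  have hval := inta_val v ω hdual h π hm
  -- a point where the norm is not zero
  have hdpos : 0 < d := by rw [← hd]; exact Module.finrank_pos
  let j₀ : Fin d := ⟨0, hdpos⟩
  have hω : ω j₀ ≠ 0 := by
    intro h0
    have h1 := hdual j₀ j₀
    rw [h0, mul_zero, map_zero, if_pos rfl] at h1
    exact zero_ne_one h1
  have hsum : (∑ j, ((Pi.single j₀ (1 : ℤ) : Fin d → ℤ) j : K) * ω j) = ω j₀ := by
    rw [Finset.sum_eq_single j₀]
    · rw [Pi.single_eq_same, Int.cast_one, one_mul]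
    · intro j _ hj
      rw [Pi.single_eq_of_ne hj, Int.cast_zero, zero_mul]
    · intro h2
      exact absurd (Finset.mem_univ _) h2
  have hN : (Algebra.norm ℚ (ω j₀) : ℚ) ≠ 0 := Algebra.norm_ne_zero_iff.2 hω
  obtain ⟨A', hA'⟩ : ∃ A' : ℝ, (A' : ℂ) = ∏ i, cof v h i (π i) := by
    have h1 := hval (Pi.single j₀ (1 : ℤ))
    rw [hsum] at h1
    refine ⟨(∏ i, ∑ j, h i j * ((Pi.single j₀ (1 : ℤ) : Fin d → ℤ) j : ℝ)) /
      ((Algebra.norm ℚ (ω j₀) : ℚ) : ℝ), ?_⟩
    rw [Complex.ofReal_div, h1, Complex.ofReal_ratCast]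
    exact mul_div_cancel_right₀ _ (by exact_mod_cast hN)
  have hA0 : A' ≠ 0 := by
    intro h0
    rw [h0, Complex.ofReal_zero] at hA'
    exact hA hA'.symm
  -- the polynomial identity
  have hG : (∏ i : Fin d, ∑ j : Fin d,
      MvPolynomial.C (h i j) * MvPolynomial.X j : MvPolynomial (Fin d) ℝ) =
      A' • MvPolynomial.map (algebraMap ℚ ℝ) P := by
    refine MvPolynomial.funext_set (fun _ : Fin d => Set.range (Int.cast : ℤ → ℝ))
      (fun _ => Set.infinite_range_of_injective Int.cast_injective) ?_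
    intro y hy
    have h1 : ∀ j, ∃ z : ℤ, (z : ℝ) = y j := fun j => hy j (Set.mem_univ j)
    choose x hx using h1
    have hyx : y = fun j => (x j : ℝ) := by
      funext j; exact (hx j).symm
    rw [hyx]
    have h2 : MvPolynomial.eval (fun j => (x j : ℝ)) (MvPolynomial.map (algebraMap ℚ ℝ) P) =
        ((Algebra.norm ℚ (∑ j, (x j : K) * ω j) : ℚ) : ℝ) := by
      rw [← hP x, MvPolynomial.eval_map, ← eq_ratCast (algebraMap ℚ ℝ), MvPolynomial.eval₂_comp]
      congr 1
    rw [map_prod]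
    simp only [map_sum, map_mul, MvPolynomial.eval_C, MvPolynomial.eval_X, MvPolynomial.smul_eval]
    rw [h2]
    have h3 := hval x
    rw [← hA'] at h3
    exact_mod_cast h3
  refine ⟨(m : ℝ) / A', div_ne_zero (by exact_mod_cast hm0) hA0, fun s => ?_⟩
  obtain ⟨z, hz⟩ := hmz s
  refine ⟨z, ?_⟩
  rw [hG, MvPolynomial.coeff_smul, MvPolynomial.coeff_smul, MvPolynomial.coeff_map, smul_eq_mul,
    smul_eq_mul, ← mul_assoc, div_mul_cancel₀ _ hA0, eq_ratCast]
  exact_mod_cast congrArg (Rat.cast : ℚ → ℝ) hz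

end H46.AF
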