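import Pool.Agent.H46.AF.Defs

/-! # INTB: invariance of integrality and of the lower bound

* `int_trans`: if `det g ≠ 0`, `h = diagonal a * g * γ` with `γ` integral of unit determinant,
  `det h ≠ 0` and `Integral h`, then `Integral g`.  Proof.  `g = diagonal (a⁻¹) * h * γ⁻¹`, `γ⁻¹` integral
  (`Matrix.nonsing_inv`, unit determinant, or adjugate), all `a i ≠ 0`.  The form of `g` is `∏ (a i)⁻¹` times the form of
  `h` composed with the integral substitution `X j ↦ ∑ k (γ⁻¹) j k X k` (a ring homomorphism `MvPolynomial.aeval`/`bind₁` which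
  maps integral polynomials to integral polynomials; `c • F_h = map (Int.castRingHom ℝ) G`).
* `low_trans`: `LowZ g ε`, `h = diagonal a * g * γ`, `γ` integral of unit determinant, gives
  `LowZ h (ε * |det h| / |det g|)` (`det g ≠ 0`): `∑ j h i j x j = a i ∑ k g i k (γ x) k`, `γ x ≠ 0` integral,
  `|∏ a i| = |det h| / |det g|`. -/

set_option autoImplicit false

open scoped NumberField
open NumberField Filter Topology

namespace H46.AF

theorem intb_det {d : ℕ} (g h : Matrix (Fin d) (Fin d) ℝ)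
    (a : Fin d → ℝ) (γ : Matrix (Fin d) (Fin d) ℤ)
    (he : h = Matrix.diagonal a * g * γ.map (Int.cast : ℤ → ℝ)) :
    h.det = (∏ i, a i) * g.det * (γ.det : ℝ) := by
  rw [he, Matrix.det_mul, Matrix.det_mul, Matrix.det_diagonal]
  congr 1
  have := (Int.castRingHom ℝ).map_det γ
  rw [eq_intCast] at this
  rw [this]
  rfl

theorem int_trans {d : ℕ} (g h : Matrix (Fin d) (Fin d) ℝ) (hg : g.det ≠ 0) (hh : h.det ≠ 0)
    (a : Fin d → ℝ) (γ : Matrix (Fin d) (Fin d) ℤ) (hγ : IsUnit γ.det)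
    (he : h = Matrix.diagonal a * g * γ.map (Int.cast : ℤ → ℝ)) (hi : Integral h) :
    Integral g := by
  obtain ⟨c, hc, hci⟩ := hi
  have hdet := intb_det g h a γ he
  have ha : ∏ i, a i ≠ 0 := by
    intro h0
    rw [h0, zero_mul, zero_mul] at hdet
    exact hh hdet
  obtain ⟨δ, hδ⟩ : ∃ δ : Matrix (Fin d) (Fin d) ℤ, γ * δ = 1 := ⟨γ⁻¹, Matrix.mul_nonsing_inv γ hγ⟩
  obtain ⟨P, hP⟩ : ∃ P : MvPolynomial (Fin d) ℝ, P = c • (∏ i : Fin d, ∑ j : Fin d,
        MvPolynomial.C (h i j) * MvPolynomial.X j : MvPolynomial (Fin d) ℝ) := ⟨_, rfl⟩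
  have hPr : P ∈ Set.range (MvPolynomial.map (σ := Fin d) (Int.castRingHom ℝ)) := by
    rw [MvPolynomial.mem_range_map_iff_coeffs_subset]
    intro r hr
    rw [Finset.mem_coe, MvPolynomial.mem_coeffs_iff] at hr
    obtain ⟨m, -, hm⟩ := hr
    obtain ⟨z, hz⟩ := hci m
    rw [← hP] at hz
    exact ⟨z, by rw [hm, hz]; rfl⟩
  obtain ⟨G, hG⟩ := hPr
  refine ⟨c * ∏ i, a i, mul_ne_zero hc ha, fun m => ?_⟩
  obtain ⟨G', hG'⟩ : ∃ G' : MvPolynomial (Fin d) ℤ, G' = MvPolynomial.bind₁ (fun j : Fin d =>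
    ∑ k : Fin d, MvPolynomial.C (δ j k) * MvPolynomial.X k) G := ⟨_, rfl⟩
  refine ⟨MvPolynomial.coeff m G', ?_⟩
  have key : (c * ∏ i, a i) • (∏ i : Fin d, ∑ j : Fin d,
        MvPolynomial.C (g i j) * MvPolynomial.X j : MvPolynomial (Fin d) ℝ) =
      MvPolynomial.map (Int.castRingHom ℝ) G' := by
    rw [hG', MvPolynomial.map_bind₁, hG, hP]
    have hsub : ∀ j : Fin d, MvPolynomial.map (Int.castRingHom ℝ) (∑ k : Fin d,
        MvPolynomial.C (δ j k) * MvPolynomial.X k) =
        ∑ k : Fin d, MvPolynomial.C ((δ j k : ℤ) : ℝ) * MvPolynomial.X k := by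
      intro j
      rw [map_sum]
      apply Finset.sum_congr rfl
      intro k _
      rw [map_mul, MvPolynomial.map_C, MvPolynomial.map_X, eq_intCast]
    simp only [hsub]
    rw [map_smul, map_prod]
    have hrow : ∀ i : Fin d, MvPolynomial.bind₁ (fun j : Fin d =>
        ∑ k : Fin d, MvPolynomial.C ((δ j k : ℤ) : ℝ) * MvPolynomial.X k)
        (∑ j : Fin d, MvPolynomial.C (h i j) * MvPolynomial.X j) =
        MvPolynomial.C (a i) * ∑ j : Fin d, MvPolynomial.C (g i j) * MvPolynomial.X j := by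
      intro i
      rw [map_sum]
      have e1 : ∀ j ∈ (Finset.univ : Finset (Fin d)), MvPolynomial.bind₁ (fun j : Fin d =>
          ∑ k : Fin d, MvPolynomial.C ((δ j k : ℤ) : ℝ) * MvPolynomial.X k)
          (MvPolynomial.C (h i j) * MvPolynomial.X j) =
          ∑ k : Fin d, MvPolynomial.C (h i j * ((δ j k : ℤ) : ℝ)) * (MvPolynomial.X k :
            MvPolynomial (Fin d) ℝ) := by
        intro j _
        rw [map_mul, MvPolynomial.bind₁_C_right, MvPolynomial.bind₁_X_right, Finset.mul_sum]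
        apply Finset.sum_congr rfl
        intro k _
        rw [MvPolynomial.C_mul, mul_assoc]
      rw [Finset.sum_congr rfl e1, Finset.sum_comm, Finset.mul_sum]
      apply Finset.sum_congr rfl
      intro k _
      rw [← Finset.sum_mul, ← map_sum, ← mul_assoc, ← MvPolynomial.C_mul]
      congr 2
      have e2 : h * δ.map (Int.cast : ℤ → ℝ) = Matrix.diagonal a * g := by
        have e3 : γ.map (Int.cast : ℤ → ℝ) * δ.map (Int.cast : ℤ → ℝ) = 1 := by
          have := congrArg (fun N : Matrix (Fin d) (Fin d) ℤ => N.map (Int.castRingHom ℝ)) hδ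
          change (γ * δ).map (Int.castRingHom ℝ) = (1 : Matrix (Fin d) (Fin d) ℤ).map (Int.castRingHom ℝ) at this
          rw [Matrix.map_mul] at this
          rw [Matrix.map_one _ (map_zero _) (map_one _)] at this
          exact this
        rw [he, Matrix.mul_assoc, e3, Matrix.mul_one]
      have e4 := congrFun (congrFun e2 i) k
      rw [Matrix.mul_apply, Matrix.diagonal_mul] at e4
      exact e4
    rw [Finset.prod_congr rfl (fun i _ => hrow i), Finset.prod_mul_distrib, ← map_prod,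
      MvPolynomial.smul_eq_C_mul, MvPolynomial.smul_eq_C_mul, MvPolynomial.C_mul, mul_assoc]
  rw [key, MvPolynomial.coeff_map, eq_intCast]

theorem low_trans {d : ℕ} (g h : Matrix (Fin d) (Fin d) ℝ) (hg : g.det ≠ 0)
    (a : Fin d → ℝ) (γ : Matrix (Fin d) (Fin d) ℤ) (hγ : IsUnit γ.det)
    (he : h = Matrix.diagonal a * g * γ.map (Int.cast : ℤ → ℝ)) (ε : ℝ) (hε : 0 < ε)
    (hl : LowZ g ε) : LowZ h (ε * |h.det| / |g.det|) := by
  have hdet := intb_det g h a γ he
  have hu : |(γ.det : ℝ)| = 1 := by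
    rcases Int.isUnit_iff.1 hγ with h1 | h1
    · rw [h1]
      simp
    · rw [h1]
      simp
  have hg0 : |g.det| ≠ 0 := abs_ne_zero.2 hg
  have hc : ε * |h.det| / |g.det| = |∏ i, a i| * ε := by
    rw [hdet, abs_mul, abs_mul, hu, mul_one]
    field_simp
  rw [hc]
  intro x hx
  have hy : γ.mulVec x ≠ 0 := by
    intro h0
    apply hx
    have h1 : γ⁻¹.mulVec (γ.mulVec x) = x := by
      rw [Matrix.mulVec_mulVec, Matrix.nonsing_inv_mul γ hγ, Matrix.one_mulVec]
    rw [← h1, h0, Matrix.mulVec_zero]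
  have h2 := hl _ hy
  have hrow : ∀ i : Fin d, ∑ j, h i j * (x j : ℝ) = a i * ∑ j, g i j * ((γ.mulVec x j : ℤ) : ℝ) := by
    intro i
    have e1 : ∀ j, h i j = ∑ k, a i * g i k * (γ k j : ℝ) := by
      intro j
      rw [he, Matrix.mul_apply]
      apply Finset.sum_congr rfl
      intro k _
      rw [Matrix.diagonal_mul, Matrix.map_apply]
    have e2 : ∀ k, ((γ.mulVec x k : ℤ) : ℝ) = ∑ j, (γ k j : ℝ) * (x j : ℝ) := by
      intro k
      unfold Matrix.mulVec dotProduct
      push_cast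
      rfl
    calc ∑ j, h i j * (x j : ℝ) = ∑ j, ∑ k, a i * g i k * (γ k j : ℝ) * (x j : ℝ) := by
          apply Finset.sum_congr rfl
          intro j _
          rw [e1, Finset.sum_mul]
      _ = ∑ k, ∑ j, a i * g i k * (γ k j : ℝ) * (x j : ℝ) := Finset.sum_comm
      _ = a i * ∑ k, g i k * ((γ.mulVec x k : ℤ) : ℝ) := by
          rw [Finset.mul_sum]
          apply Finset.sum_congr rfl
          intro k _
          rw [e2, Finset.mul_sum, Finset.mul_sum]
          apply Finset.sum_congr rfl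
          intro j _
          ring
  rw [Finset.prod_congr rfl (fun i _ => hrow i), Finset.prod_mul_distrib, abs_mul]
  exact mul_le_mul_of_nonneg_left h2 (abs_nonneg _)

end H46.AF
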