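import Pool.Agent.H46.AF.Tr

/-! # TRB: `low_cof`

There is `q ≥ 1` such that for all `h, ν`: `LowZ h ν → Low (cof v h) (ν / q ^ d)`.
For `μ` in `𝓞 K` the coordinates of `μ` in the basis `ω` are the rationals `Tr (v j μ)` (`hdual`, and `ω` spans because
`[K : ℚ] = d` and it is linearly independent by `hdual`).  Some `q ≥ 1` has `q v j ∈ 𝓞 K` for all `j`
(`exists_integral_multiple` over `ℤ`), and then `q Tr (v j μ) = Tr (q v j μ)` is an integer (`Algebra.isIntegral_trace`,
`IsIntegrallyClosed`).  So `q μ = ∑ x j ω j` with integers `x j`, not all `0`, and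
`q lin (cof v h i) μ = lin (cof v h i) (q μ) = ∑ j, h i j x j` by `lin_cof`; take the product over `i` (`Fin d`: the factor is `q ^ d`). -/

set_option autoImplicit false

open scoped NumberField
open NumberField Filter Topology

namespace H46.AF

theorem trb_expand {K : Type} [Field K] [NumberField K] {d : ℕ}
    (hd : Module.finrank ℚ K = d) (v ω : Fin d → K)
    (hdual : ∀ j k, Algebra.trace ℚ K (v j * ω k) = if j = k then 1 else 0) (μ : K) :
    ∑ j, (algebraMap ℚ K (Algebra.trace ℚ K (v j * μ))) * ω j = μ := by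
  have hcoef : ∀ (c : Fin d → ℚ) (j : Fin d),
      Algebra.trace ℚ K (v j * ∑ k, c k • ω k) = c j := by
    intro c j
    rw [Finset.mul_sum, map_sum]
    rw [Finset.sum_eq_single j]
    · rw [mul_smul_comm, map_smul, hdual, if_pos rfl, smul_eq_mul, mul_one]
    · intro k _ hk
      rw [mul_smul_comm, map_smul, hdual, if_neg (Ne.symm hk), smul_zero]
    · intro h
      exact absurd (Finset.mem_univ j) h
  have hli : LinearIndependent ℚ ω := by
    rw [Fintype.linearIndependent_iff]
    intro c hc j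
    have h1 := hcoef c j
    rw [hc, mul_zero, map_zero] at h1
    exact h1.symm
  have hsp : Submodule.span ℚ (Set.range ω) = ⊤ :=
    hli.span_eq_top_of_card_eq_finrank' (by rw [Fintype.card_fin, hd])
  have hμ : μ ∈ Submodule.span ℚ (Set.range ω) := by
    rw [hsp]
    exact Submodule.mem_top
  rw [Submodule.mem_span_range_iff_exists_fun] at hμ
  obtain ⟨c, hc⟩ := hμ
  rw [← hc]
  apply Finset.sum_congr rfl
  intro j _
  rw [hcoef, Algebra.smul_def]

theorem low_cof {K : Type} [Field K] [NumberField K] {d : ℕ}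
    (hd : Module.finrank ℚ K = d) (v ω : Fin d → K)
    (hdual : ∀ j k, Algebra.trace ℚ K (v j * ω k) = if j = k then 1 else 0) :
    ∃ q : ℕ, 0 < q ∧ ∀ (h : Matrix (Fin d) (Fin d) ℝ) (ν : ℝ), LowZ h ν →
      Low (cof v h) (ν / (q : ℝ) ^ d) := by
  classical
  obtain ⟨y, hy, hint⟩ := exists_integral_multiples ℤ ℚ (Finset.univ.image v)
  refine ⟨y.natAbs, Int.natAbs_pos.2 hy, fun h ν hl μ hμ => ?_⟩
  have hz : ∀ j : Fin d, ∃ z : ℤ, (z : ℚ) = (y : ℚ) * Algebra.trace ℚ K (v j * (μ : K)) := by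
    intro j
    have h1 : IsIntegral ℤ (y • v j) := hint (v j) (Finset.mem_image_of_mem v (Finset.mem_univ j))
    have h2 : IsIntegral ℤ (y • v j * (μ : K)) := h1.mul μ.isIntegral_coe
    have h3 : IsIntegral ℤ (Algebra.trace ℚ K (y • v j * (μ : K))) := Algebra.isIntegral_trace h2
    obtain ⟨z, hz⟩ := IsIntegrallyClosed.isIntegral_iff.1 h3
    refine ⟨z, ?_⟩
    rw [eq_intCast] at hz
    rw [hz, smul_mul_assoc, map_zsmul, zsmul_eq_mul]
  choose z hz using hz
  have hsum : ∑ j, ((z j : ℤ) : K) * ω j = (y : K) * (μ : K) := by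
    have h1 : ∀ j, ((z j : ℤ) : K) = (y : K) * algebraMap ℚ K (Algebra.trace ℚ K (v j * (μ : K))) := by
      intro j
      have h2 := congrArg (algebraMap ℚ K) (hz j)
      rw [map_mul, map_intCast, map_intCast] at h2
      exact h2
    calc ∑ j, ((z j : ℤ) : K) * ω j
        = (y : K) * ∑ j, algebraMap ℚ K (Algebra.trace ℚ K (v j * (μ : K))) * ω j := by
          rw [Finset.mul_sum]
          apply Finset.sum_congr rfl
          intro j _
          rw [h1, mul_assoc]
      _ = (y : K) * (μ : K) := by rw [trb_expand hd v ω hdual]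
  have hyK : (y : K) ≠ 0 := Int.cast_ne_zero.2 hy
  have hμK : (μ : K) ≠ 0 := by
    intro h0
    exact hμ (RingOfIntegers.coe_eq_zero_iff.1 h0)
  have hz0 : z ≠ 0 := by
    intro h0
    have h1 : (y : K) * (μ : K) = 0 := by
      rw [← hsum, h0]
      simp
    exact (mul_ne_zero hyK hμK) h1
  have hlin : ∀ i, (y : ℂ) * lin (cof v h i) (μ : K) = ((∑ j, h i j * (z j : ℝ) : ℝ) : ℂ) := by
    intro i
    rw [← lin_cof v ω hdual h i z, hsum]
    unfold lin
    rw [Finset.mul_sum]
    apply Finset.sum_congr rfl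
    intro σ _
    rw [map_mul, map_intCast]
    ring
  have h4 := hl z hz0
  have h5 : ‖∏ i, lin (cof v h i) (μ : K)‖ * ((y.natAbs : ℕ) : ℝ) ^ d =
      |∏ i : Fin d, ∑ j : Fin d, h i j * (z j : ℝ)| := by
    have h6 : ‖∏ i : Fin d, ((y : ℂ) * lin (cof v h i) (μ : K))‖ =
        |∏ i : Fin d, ∑ j : Fin d, h i j * (z j : ℝ)| := by
      rw [Finset.prod_congr rfl (fun i _ => hlin i), ← Complex.ofReal_prod, Complex.norm_real,
        Real.norm_eq_abs]
    rw [← h6, Finset.prod_mul_distrib, Finset.prod_const, Finset.card_univ, Fintype.card_fin,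
      norm_mul, norm_pow, mul_comm]
    congr 2
    rw [Complex.norm_intCast, Nat.cast_natAbs, Int.cast_abs]
  have hq : (0 : ℝ) < ((y.natAbs : ℕ) : ℝ) ^ d :=
    pow_pos (Nat.cast_pos.2 (Int.natAbs_pos.2 hy)) _
  rw [div_le_iff₀ hq, h5]
  exact h4

end H46.AF
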