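import Pool.Agent.H46.AF.Clo
import Pool.Agent.H46.AF.TrB
import Pool.Agent.H46.AF.IntA
import Pool.Agent.H46.AF.IntB
import Pool.Agent.H46.AF.Dep

/-! # FIN: assembly -/

set_option autoImplicit false

open scoped NumberField
open NumberField Filter Topology

namespace H46.AF

/-- trace dual family of a basis -/
theorem exists_dual {K : Type} [Field K] [NumberField K] {d : ℕ} (ω : Fin d → K)
    (hd : Module.finrank ℚ K = d) (hω : LinearIndependent ℚ ω) :
    ∃ v : Fin d → K, ∀ j k, Algebra.trace ℚ K (v j * ω k) = if j = k then 1 else 0 := by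
  classical
  have hspan : ⊤ ≤ Submodule.span ℚ (Set.range ω) := by
    rw [hω.span_eq_top_of_card_eq_finrank' (by simp [hd])]
  let b : Module.Basis (Fin d) ℚ K := Module.Basis.mk hω hspan
  have hnd := traceForm_nondegenerate ℚ K
  refine ⟨fun j => (Algebra.traceForm ℚ K).dualBasis hnd b j, fun j k => ?_⟩
  have h1 := LinearMap.BilinForm.apply_dualBasis_left (B := Algebra.traceForm ℚ K) hnd b j k
  rw [Algebra.traceForm_apply] at h1
  have hb : b k = ω k := by simp [b]
  rw [hb] at h1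
  rw [h1]
  by_cases hjk : j = k
  · subst hjk; simp
  · rw [if_neg hjk, if_neg (fun h => hjk h.symm)]

/-- an integral relation from a rational one -/
theorem exists_int_dep {K : Type} [Field K] [NumberField K] {d : ℕ} (ω : Fin d → K)
    (hω : ¬ LinearIndependent ℚ ω) : ∃ y : Fin d → ℤ, y ≠ 0 ∧ ∑ j, (y j : K) * ω j = 0 := by
  classical
  rw [Fintype.not_linearIndependent_iff] at hω
  obtain ⟨r, hr, i, hi⟩ := hω
  let D : ℕ := ∏ j, (r j).den
  have hD : D ≠ 0 := Finset.prod_ne_zero_iff.2 fun j _ => (r j).den_ne_zero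
  have hdiv : ∀ j, ∃ m : ℤ, (m : ℚ) = (D : ℚ) * r j := by
    intro j
    have h1 : D = (r j).den * ∏ k ∈ Finset.univ.erase j, (r k).den :=
      (Finset.mul_prod_erase _ _ (Finset.mem_univ j)).symm
    refine ⟨(∏ k ∈ Finset.univ.erase j, (r k).den : ℕ) * (r j).num, ?_⟩
    rw [h1]
    push_cast
    have h2 : ((r j).den : ℚ) * r j = (r j).num := by
      rw [mul_comm]; exact Rat.mul_den_eq_num (r j)
    rw [mul_right_comm, h2, mul_comm]
  choose y hy using hdiv
  refine ⟨y, ?_, ?_⟩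
  · intro h
    have h1 := hy i
    rw [h] at h1
    simp only [Pi.zero_apply, Int.cast_zero] at h1
    rcases mul_eq_zero.1 h1.symm with h2 | h2
    · exact hD (by exact_mod_cast h2)
    · exact hi h2
  · have h1 : ∀ j, (y j : K) * ω j = (D : K) * (r j • ω j) := by
      intro j
      have h2 : ((y j : ℚ) : K) = (D : K) * ((r j : ℚ) : K) := by
        rw [hy j]; push_cast; rfl
      have h3 : (y j : K) = ((y j : ℚ) : K) := by push_cast; rfl
      rw [h3, h2, Rat.smul_def, mul_assoc]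
    rw [Finset.sum_congr rfl fun j _ => h1 j, ← Finset.mul_sum, hr, mul_zero]

theorem lowZ_mono {d : ℕ} {h : Matrix (Fin d) (Fin d) ℝ} {ν ν' : ℝ} (hl : LowZ h ν)
    (hν : ν' ≤ ν) : LowZ h ν' := fun x hx => hν.trans (hl x hx)

/-- the orbit of `g` -/
def Orb {d : ℕ} (g : Matrix (Fin d) (Fin d) ℝ) : Set (Matrix (Fin d) (Fin d) ℝ) :=
  {h | ∃ (a : Fin d → ℝ) (γ : Matrix (Fin d) (Fin d) ℤ), IsUnit γ.det ∧
    h = Matrix.diagonal a * g * γ.map (Int.cast : ℤ → ℝ)}

theorem core {K : Type} [Field K] [NumberField K] {d : ℕ} (hd : 3 ≤ d)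
    (hK : Module.finrank ℚ K = d) (v ω : Fin d → K)
    (hdual : ∀ j k, Algebra.trace ℚ K (v j * ω k) = if j = k then 1 else 0)
    (g g' : Matrix (Fin d) (Fin d) ℝ) (hg : g.det ≠ 0) (hg' : g'.det ≠ 0)
    (H : ℕ → Matrix (Fin d) (Fin d) ℝ) (hH : ∀ n, H n ∈ Orb g)
    (hdetH : ∀ n, (H n).det ≠ 0) (hlim : Tendsto H atTop (𝓝 g'))
    (ν : ℝ) (hν : 0 < ν) (hl : ∀ n, LowZ (H n) ν) (hl' : LowZ g' ν)
    (τ : K →+* ℝ) (i₁ : Fin d)
    (hcase : (∀ σ, σ ≠ (Complex.ofRealHom).comp τ → cof v g' i₁ σ = 0) ∨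
      (∀ i, i ≠ i₁ → cof v g' i ((Complex.ofRealHom).comp τ) = 0)) :
    Integral g := by
  obtain ⟨q, hq, hlow⟩ := low_cof hK v ω hdual
  obtain ⟨π, hπ⟩ := perm_cof hK v ω hdual g' hg'
  have hν' : 0 < ν / (q : ℝ) ^ d := div_pos hν (pow_pos (by exact_mod_cast hq) _)
  have hσ₁ : ComplexEmbedding.conjugate ((Complex.ofRealHom).comp τ) =
      (Complex.ofRealHom).comp τ := by
    ext x
    simp [ComplexEmbedding.conjugate_coe_eq]
  obtain ⟨hreal, hm⟩ := mono (by rw [hK]; exact hd) ((Complex.ofRealHom).comp τ) hσ₁ i₁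
    (cof v g') (sym_cof v g') π hπ hcase _ hν' (hlow g' ν hl')
  obtain ⟨n, hn⟩ := clo (by rw [hK]; exact hd) hreal (fun n => cof v (H n))
    (fun n => sym_cof v (H n)) π (cof v g') (tendsto_cof v H g' hlim) hπ hm _ hν'
    (fun n => hlow (H n) ν (hl n))
  have h1 := int_of_mono hK v ω hdual (H n) (hdetH n) π hn
  obtain ⟨a, γ, hγ, he⟩ := hH n
  exact int_trans g (H n) hg (hdetH n) a γ hγ he h1

theorem main (d : ℕ) (hd : 3 ≤ d) (g g' : Matrix (Fin d) (Fin d) ℝ) (hg : g.det ≠ 0)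
    (hg' : g'.det ≠ 0) (hcl : g' ∈ closure (Orb g))
    (K : IntermediateField ℚ ℝ) [FiniteDimensional ℚ K] (hK : Module.finrank ℚ K ≤ d)
    (halg : (∃ i, ∃ c : ℝ, c ≠ 0 ∧ ∀ j, c * g' i j ∈ K) ∨
      (∃ j, ∃ c : ℝ, c ≠ 0 ∧ ∀ i, c * g'⁻¹ i j ∈ K))
    (ε : ℝ) (hε : 0 < ε) (hl : LowZ g ε) : Integral g := by
  classical
  have hNF : NumberField K := ⟨⟩
  have hFC : FirstCountableTopology (Matrix (Fin d) (Fin d) ℝ) :=
    inferInstanceAs (FirstCountableTopology (Fin d → Fin d → ℝ))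
  obtain ⟨H0, hH0, hlim0⟩ := mem_closure_iff_seq_limit.1 hcl
  have hdet0 : Tendsto (fun n => |(H0 n).det|) atTop (𝓝 |g'.det|) := by
    have : Continuous fun M : Matrix (Fin d) (Fin d) ℝ => |M.det| :=
      (Continuous.matrix_det continuous_id).abs
    exact (this.tendsto g').comp hlim0
  have hpos : 0 < |g'.det| := abs_pos.2 hg'
  have hposg : 0 < |g.det| := abs_pos.2 hg
  obtain ⟨N, hN⟩ := Filter.eventually_atTop.1
    (hdet0.eventually (lt_mem_nhds (show |g'.det| / 2 < |g'.det| by linarith)))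
  set H : ℕ → Matrix (Fin d) (Fin d) ℝ := fun n => H0 (n + N) with hHdef
  have hlim : Tendsto H atTop (𝓝 g') := hlim0.comp (tendsto_add_atTop_nat N)
  have hH : ∀ n, H n ∈ Orb g := fun n => hH0 _
  have hdetH : ∀ n, |g'.det| / 2 < |(H n).det| := fun n => hN _ (by omega)
  set ν : ℝ := ε * (|g'.det| / 2) / |g.det| with hνdef
  have hν : 0 < ν := by positivity
  have hlH : ∀ n, LowZ (H n) ν := by
    intro n
    obtain ⟨a, γ, hγ, he⟩ := hH n
    refine lowZ_mono (low_trans g (H n) hg a γ hγ he ε hε hl) ?_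
    rw [hνdef]
    gcongr
    exact (hdetH n).le
  have hl' : LowZ g' ν := by
    intro x hx
    have hc : Continuous fun M : Matrix (Fin d) (Fin d) ℝ =>
        |∏ i : Fin d, ∑ j : Fin d, M i j * (x j : ℝ)| := by fun_prop
    exact ge_of_tendsto ((hc.tendsto g').comp hlim) (Filter.Eventually.of_forall fun n => hlH n x hx)
  have hdetH' : ∀ n, (H n).det ≠ 0 := fun n => by
    intro h
    have := hdetH n
    rw [h, abs_zero] at this
    linarith
  let τ : K →+* ℝ := algebraMap K ℝ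
  rcases halg with ⟨i₁, c, hc, hrow⟩ | ⟨j₁, c, hc, hcol⟩
  · let ω : Fin d → K := fun j => ⟨c * g' i₁ j, hrow j⟩
    by_cases hω : LinearIndependent ℚ ω
    · have hK' : Module.finrank ℚ K = d := by
        refine le_antisymm hK ?_
        have := hω.fintype_card_le_finrank
        simpa using this
      obtain ⟨v, hdual⟩ := exists_dual ω hK' hω
      exact core hd hK' v ω hdual g g' hg hg' H hH hdetH' hlim ν hν hlH hl' τ i₁
        (Or.inl fun σ hσ => row_cof hK' v ω hdual g' τ i₁ c hc (fun j => rfl) σ hσ)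
    · exfalso
      obtain ⟨y, hy, h0⟩ := exists_int_dep ω hω
      refine row_dep g' i₁ y hy ?_ ν hν hl'
      have h1 : (τ (∑ j, (y j : K) * ω j) : ℝ) = 0 := by rw [h0, map_zero]
      rw [map_sum] at h1
      have h2 : ∀ j, τ ((y j : K) * ω j) = c * (g' i₁ j * (y j : ℝ)) := by
        intro j
        rw [map_mul, map_intCast]
        change (y j : ℝ) * (c * g' i₁ j) = _
        ring
      rw [Finset.sum_congr rfl fun j _ => h2 j, ← Finset.mul_sum] at h1
      exact (mul_eq_zero.1 h1).resolve_left hc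
  · let v : Fin d → K := fun i => ⟨c * g'⁻¹ i j₁, hcol i⟩
    by_cases hv : LinearIndependent ℚ v
    · have hK' : Module.finrank ℚ K = d := by
        refine le_antisymm hK ?_
        have := hv.fintype_card_le_finrank
        simpa using this
      obtain ⟨ω, hdual⟩ := exists_dual v hK' hv
      have hdual' : ∀ j k, Algebra.trace ℚ K (v j * ω k) = if j = k then 1 else 0 := by
        intro j k
        rw [mul_comm, hdual k j]
        by_cases hjk : j = k
        · subst hjk; simp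
        · rw [if_neg hjk, if_neg (fun h => hjk h.symm)]
      exact core hd hK' v ω hdual' g g' hg hg' H hH hdetH' hlim ν hν hlH hl' τ j₁
        (Or.inr fun i hi => col_cof v g' hg' τ j₁ c (fun i => rfl) i hi)
    · exfalso
      obtain ⟨y, hy, h0⟩ := exists_int_dep v hv
      refine col_dep (by omega) g' hg' j₁ y hy ?_ ν hν hl'
      have h1 : (τ (∑ j, (y j : K) * v j) : ℝ) = 0 := by rw [h0, map_zero]
      rw [map_sum] at h1
      have h2 : ∀ j, τ ((y j : K) * v j) = c * ((y j : ℝ) * g'⁻¹ j j₁) := by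
        intro j
        rw [map_mul, map_intCast]
        change (y j : ℝ) * (c * g'⁻¹ j j₁) = _
        ring
      rw [Finset.sum_congr rfl fun j _ => h2 j, ← Finset.mul_sum] at h1
      exact (mul_eq_zero.1 h1).resolve_left hc

end H46.AF
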