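import Pool.Agent.H46.AF.Mono

/-! # CLO: isolation of the monomial matrices

`K` totally real of degree at least `3`.  If real rows `c n` with `Low (c n) ν`, `ν > 0`, converge to
a monomial `c'`, then some `c n` is monomial.

Proof.  Suppose not.  Drop finitely many `n` so that `c n i (π i) ≠ 0` for all `i`, and let
`w n i σ = c n i σ / c n i (π i)` (real), which tends to `0` for `σ ≠ π i`, not all `0`.  Enumerate the
embeddings (a linear order: an equivalence `E ≃ Fin D`) and use it for the rows through `π`.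
Passing to a subsequence, either for all `n` some entry `w n i σ` with `σ` above `π i` is nonzero, or
for all `n` all these vanish and some entry with `σ` below `π i` is nonzero; in the second case
reverse the order.  So assume the first case.  Let `t σ` be the centred rank of `σ` (strictly
increasing, sum `0`; conjugation is trivial by `hreal`).  For `x ≥ 0` let
`m n x = max { |w n i σ| exp (x (t σ - t (π i))) : σ above π i }`, continuous, strictly increasing and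
unbounded in `x`, `m n 0 → 0`; choose `x n ≥ 0` with `m n (x n) = 1` (large `n`), then `x n → ∞`.
By `coc` choose units `u n` with `|log ‖σ (u n)‖ - x n t σ| ≤ C` for all `σ`.  Let
`c'' n i σ = w n i σ * σ (u n) / (π i) (u n)` (so `c'' n i (π i) = 1`).  Then
`∏ i lin (c'' n i) μ = ∏ i lin (c n i) (u n * μ) / ∏ i (c n i (π i) * (π i) (u n))`, the norm of the unit is `±1`, so
`Low (c'' n) ν'` with `ν' = ν / sup_n |∏ i c n i (π i)| > 0`.  Entries with `σ` below `π i` tend to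
`0` (`|w| ≤ 1`, `exp (x n (t σ - t (π i)) + 2 C) → 0`), those above are bounded by `exp (2 C)` and the largest one
is at least `exp (-2 C)`.  A subsequence converges to `c∞`, real rows, `c∞ i (π i) = 1`, zero below,
not all zero above, and `Low c∞ ν'` (limits of products).  Let `σ₁` be the largest embedding and `i₁` its row: then
`c∞ i₁ σ = 0` for `σ ≠ σ₁`.  By `mono` (row case) `c∞` is monomial, contradiction. -/

set_option autoImplicit false

open scoped NumberField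
open NumberField Filter Topology

namespace H46.AF

theorem clo_unit {K : Type} [Field K] [NumberField K] (u : (𝓞 K)ˣ) :
    ∏ σ : K →+* ℂ, ‖σ ((u : 𝓞 K) : K)‖ = 1 := by
  rw [Fintype.prod_equiv (RingHom.equivRatAlgHom K ℂ) (fun f => ‖f ((u : 𝓞 K) : K)‖)
      (fun φ => ‖φ ((u : 𝓞 K) : K)‖) (fun _ => by simp [RingHom.equivRatAlgHom_apply]),
    ← norm_prod, ← Algebra.norm_eq_prod_embeddings, eq_ratCast, Complex.norm_ratCast]
  have h := NumberField.Units.norm K u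
  have h2 : (|Algebra.norm ℚ ((u : 𝓞 K) : K)| : ℚ) = 1 := h
  have h3 : ((|Algebra.norm ℚ ((u : 𝓞 K) : K)| : ℚ) : ℝ) = 1 := by rw [h2]; norm_num
  rwa [Rat.cast_abs] at h3

theorem clo_low {K : Type} [Field K] [NumberField K] {ι : Type} [Fintype ι]
    (c : ι → (K →+* ℂ) → ℂ) (π : ι ≃ (K →+* ℂ)) (hπ : ∀ i, c i (π i) ≠ 0)
    (ν B : ℝ) (_hν : 0 ≤ ν) (hB : ∏ i, ‖c i (π i)‖ ≤ B) (hP : Low c ν) (u : (𝓞 K)ˣ) :
    Low (fun i σ => c i σ / c i (π i) * σ ((u : 𝓞 K) : K) / (π i) ((u : 𝓞 K) : K)) (ν / B) := by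
  intro μ hμ
  have hu0 : ((u : 𝓞 K) : K) ≠ 0 := by
    intro h
    apply u.ne_zero
    exact_mod_cast h
  have hu : ∀ σ : K →+* ℂ, σ ((u : 𝓞 K) : K) ≠ 0 := fun σ => (map_ne_zero σ).2 hu0
  have h1 : ∀ i, lin (fun σ => c i σ / c i (π i) * σ ((u : 𝓞 K) : K) /
      (π i) ((u : 𝓞 K) : K)) (μ : K) =
      lin (c i) (((u : 𝓞 K) * μ : 𝓞 K) : K) / (c i (π i) * (π i) ((u : 𝓞 K) : K)) := by
    intro i
    unfold lin
    rw [Finset.sum_div]
    refine Finset.sum_congr rfl fun σ _ => ?_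
    have h2 : σ (((u : 𝓞 K) * μ : 𝓞 K) : K) = σ ((u : 𝓞 K) : K) * σ (μ : K) := by
      rw [← map_mul]
      rfl
    rw [h2]
    have := hπ i
    have := hu (π i)
    field_simp
  have h3 : ∏ i, ‖(π i) ((u : 𝓞 K) : K)‖ = 1 := by
    rw [Equiv.prod_comp π (fun σ : K →+* ℂ => ‖σ ((u : 𝓞 K) : K)‖)]
    exact clo_unit u
  have h4 : ‖∏ i, lin (fun σ => c i σ / c i (π i) * σ ((u : 𝓞 K) : K) /
      (π i) ((u : 𝓞 K) : K)) (μ : K)‖ =
      ‖∏ i, lin (c i) (((u : 𝓞 K) * μ : 𝓞 K) : K)‖ / ∏ i, ‖c i (π i)‖ := by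
    rw [Finset.prod_congr rfl fun i _ => h1 i, Finset.prod_div_distrib, norm_div]
    congr 1
    rw [norm_prod]
    simp_rw [norm_mul]
    rw [Finset.prod_mul_distrib, h3, mul_one]
  have h5 : 0 < ∏ i, ‖c i (π i)‖ := Finset.prod_pos fun i _ => norm_pos_iff.2 (hπ i)
  have h6 : ν ≤ ‖∏ i, lin (c i) (((u : 𝓞 K) * μ : 𝓞 K) : K)‖ :=
    hP _ (mul_ne_zero u.ne_zero hμ)
  show ν / B ≤ ‖∏ i, lin (fun σ => c i σ / c i (π i) * σ ((u : 𝓞 K) : K) /
      (π i) ((u : 𝓞 K) : K)) (μ : K)‖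
  rw [h4]
  exact div_le_div₀ (norm_nonneg _) h6 h5 hB

theorem clo_step {K : Type} [Field K] [NumberField K]
    (hreal : ∀ σ : K →+* ℂ, ComplexEmbedding.conjugate σ = σ) {ι : Type} [Fintype ι]
    (C : ℝ) (hC0 : 0 ≤ C)
    (hC : ∀ t : (K →+* ℂ) → ℝ, (∀ σ, t (ComplexEmbedding.conjugate σ) = t σ) →
      ∑ σ, t σ = 0 → ∃ u : (𝓞 K)ˣ, ∀ σ : K →+* ℂ,
        |Real.log ‖σ ((u : 𝓞 K) : K)‖ - t σ| ≤ C)
    (r : (K →+* ℂ) → ℝ) (hr : Function.Injective r) (hr0 : ∑ σ, r σ = 0)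
    (g : ℝ) (hgap : ∀ σ τ, r σ < r τ → g ≤ r τ - r σ)
    (R : ℝ) (hR : ∀ σ τ, r τ - r σ ≤ R) (B ν : ℝ) (hν : 0 ≤ ν) (k : ℝ) (hk : 0 ≤ k)
    (c : ι → (K →+* ℂ) → ℂ) (hc : ∀ i, Sym (c i)) (π : ι ≃ (K →+* ℂ))
    (h1 : ∀ i, c i (π i) ≠ 0) (h2 : ∏ i, ‖c i (π i)‖ ≤ B)
    (h3 : ∀ i σ, σ ≠ π i → ‖c i σ / c i (π i)‖ ≤ Real.exp (-(k * R)))
    (h4 : ∃ i σ, r (π i) < r σ ∧ c i σ ≠ 0) (hP : Low c ν) :
    ∃ a : ι → (K →+* ℂ) → ℂ, (∀ i, Sym (a i)) ∧ (∀ i, a i (π i) = 1) ∧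
      (∀ i σ, ‖a i σ‖ ≤ Real.exp (2 * C)) ∧
      (∀ i σ, r σ < r (π i) → ‖a i σ‖ ≤ Real.exp (2 * C - k * g)) ∧
      (∃ i σ, r (π i) < r σ ∧ Real.exp (-(2 * C)) ≤ ‖a i σ‖) ∧ Low a (ν / B) := by
  classical
  set w : ι → (K →+* ℂ) → ℂ := fun i σ => c i σ / c i (π i) with hw
  set P : Finset (ι × (K →+* ℂ)) :=
    Finset.univ.filter fun p => r (π p.1) < r p.2 ∧ c p.1 p.2 ≠ 0 with hPdef
  set y : ι × (K →+* ℂ) → ℝ := fun p => -Real.log ‖w p.1 p.2‖ / (r p.2 - r (π p.1)) with hy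
  have hPne : P.Nonempty := by
    obtain ⟨i, σ, hi, hσ⟩ := h4
    exact ⟨(i, σ), by rw [hPdef, Finset.mem_filter]; exact ⟨Finset.mem_univ _, hi, hσ⟩⟩
  obtain ⟨p0, hp0, hmin⟩ := Finset.exists_min_image P y hPne
  have hp0' : r (π p0.1) < r p0.2 ∧ c p0.1 p0.2 ≠ 0 := (Finset.mem_filter.1 hp0).2
  have hwne : ∀ i σ, c i σ ≠ 0 → 0 < ‖w i σ‖ := fun i σ h =>
    norm_pos_iff.2 (div_ne_zero h (h1 i))
  set x : ℝ := y p0 with hx
  have hkx : k ≤ x := by
    have hd : 0 < r p0.2 - r (π p0.1) := by linarith [hp0'.1]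
    rw [hx, hy]
    show k ≤ -Real.log ‖w p0.1 p0.2‖ / (r p0.2 - r (π p0.1))
    rw [le_div_iff₀ hd]
    have hne : p0.2 ≠ π p0.1 := by
      intro h
      rw [h] at hd
      simp at hd
    have h5 := h3 p0.1 p0.2 hne
    have h6 : Real.log ‖w p0.1 p0.2‖ ≤ -(k * R) := by
      rw [Real.log_le_iff_le_exp (hwne _ _ hp0'.2)]
      exact h5
    have h7 : k * (r p0.2 - r (π p0.1)) ≤ k * R := mul_le_mul_of_nonneg_left (hR _ _) hk
    linarith
  have hx0 : 0 ≤ x := hk.trans hkx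
  obtain ⟨u, hu⟩ := hC (fun σ => x * r σ) (fun σ => by rw [hreal σ])
    (by rw [← Finset.mul_sum, hr0, mul_zero])
  have hu0 : ((u : 𝓞 K) : K) ≠ 0 := by
    intro h
    apply u.ne_zero
    exact_mod_cast h
  have hun : ∀ σ : K →+* ℂ, 0 < ‖σ ((u : 𝓞 K) : K)‖ := fun σ =>
    norm_pos_iff.2 ((map_ne_zero σ).2 hu0)
  have hup : ∀ σ : K →+* ℂ, ‖σ ((u : 𝓞 K) : K)‖ ≤ Real.exp (x * r σ + C) := by
    intro σ
    have h5 := (abs_le.1 (hu σ)).2
    rw [← Real.log_le_iff_le_exp (hun σ)]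
    linarith
  have hlo : ∀ σ : K →+* ℂ, Real.exp (x * r σ - C) ≤ ‖σ ((u : 𝓞 K) : K)‖ := by
    intro σ
    have h5 := (abs_le.1 (hu σ)).1
    rw [← Real.le_log_iff_exp_le (hun σ)]
    linarith
  have hrup : ∀ i σ, ‖σ ((u : 𝓞 K) : K)‖ / ‖(π i) ((u : 𝓞 K) : K)‖ ≤
      Real.exp (x * (r σ - r (π i)) + 2 * C) := by
    intro i σ
    calc ‖σ ((u : 𝓞 K) : K)‖ / ‖(π i) ((u : 𝓞 K) : K)‖ ≤
        Real.exp (x * r σ + C) / Real.exp (x * r (π i) - C) :=
          div_le_div₀ (Real.exp_pos _).le (hup σ) (Real.exp_pos _) (hlo (π i))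
      _ = Real.exp (x * (r σ - r (π i)) + 2 * C) := by
          rw [← Real.exp_sub]
          congr 1
          ring
  have hrlo : ∀ i σ, Real.exp (x * (r σ - r (π i)) - 2 * C) ≤
      ‖σ ((u : 𝓞 K) : K)‖ / ‖(π i) ((u : 𝓞 K) : K)‖ := by
    intro i σ
    calc Real.exp (x * (r σ - r (π i)) - 2 * C) =
        Real.exp (x * r σ - C) / Real.exp (x * r (π i) + C) := by
          rw [← Real.exp_sub]
          congr 1
          ring
      _ ≤ ‖σ ((u : 𝓞 K) : K)‖ / ‖(π i) ((u : 𝓞 K) : K)‖ :=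
          div_le_div₀ (norm_nonneg _) (hlo σ) (hun _) (hup (π i))
  have hnorm : ∀ i σ, ‖w i σ * σ ((u : 𝓞 K) : K) / (π i) ((u : 𝓞 K) : K)‖ =
      ‖w i σ‖ * (‖σ ((u : 𝓞 K) : K)‖ / ‖(π i) ((u : 𝓞 K) : K)‖) := by
    intro i σ
    rw [norm_div, norm_mul, mul_div_assoc]
  have hconj : ∀ (σ : K →+* ℂ) (z : K), (starRingEnd ℂ) (σ z) = σ z := by
    intro σ z
    have h5 : ComplexEmbedding.conjugate σ z = (starRingEnd ℂ) (σ z) := rfl
    rw [← h5, hreal σ]
  have hcr : ∀ i σ, (starRingEnd ℂ) (c i σ) = c i σ := by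
    intro i σ
    rw [← hc i σ, hreal σ]
  refine ⟨fun i σ => w i σ * σ ((u : 𝓞 K) : K) / (π i) ((u : 𝓞 K) : K), ?_, ?_, ?_, ?_, ?_, ?_⟩
  · intro i σ
    show w i (ComplexEmbedding.conjugate σ) * (ComplexEmbedding.conjugate σ) ((u : 𝓞 K) : K) /
      (π i) ((u : 𝓞 K) : K) = (starRingEnd ℂ) (w i σ * σ ((u : 𝓞 K) : K) /
        (π i) ((u : 𝓞 K) : K))
    rw [hreal σ, map_div₀, map_mul, hconj, hconj, hw]
    show c i σ / c i (π i) * σ ((u : 𝓞 K) : K) / (π i) ((u : 𝓞 K) : K) =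
      (starRingEnd ℂ) (c i σ / c i (π i)) * σ ((u : 𝓞 K) : K) / (π i) ((u : 𝓞 K) : K)
    rw [map_div₀, hcr, hcr]
  · intro i
    show c i (π i) / c i (π i) * (π i) ((u : 𝓞 K) : K) / (π i) ((u : 𝓞 K) : K) = 1
    rw [div_self (h1 i), one_mul, div_self ((map_ne_zero (π i)).2 hu0)]
  · intro i σ
    show ‖w i σ * σ ((u : 𝓞 K) : K) / (π i) ((u : 𝓞 K) : K)‖ ≤ _
    rw [hnorm]
    rcases lt_trichotomy (r σ) (r (π i)) with h | h | h
    · have hne : σ ≠ π i := by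
        rintro rfl
        exact lt_irrefl _ h
      have h5 : ‖w i σ‖ ≤ 1 := by
        refine (h3 i σ hne).trans ?_
        rw [← Real.exp_zero]
        apply Real.exp_le_exp.2
        have h6 : 0 ≤ R := by
          have := hR σ σ
          linarith
        nlinarith
      calc ‖w i σ‖ * (‖σ ((u : 𝓞 K) : K)‖ / ‖(π i) ((u : 𝓞 K) : K)‖) ≤
          1 * Real.exp (x * (r σ - r (π i)) + 2 * C) :=
            mul_le_mul h5 (hrup i σ) (div_nonneg (norm_nonneg _) (norm_nonneg _)) zero_le_one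
        _ ≤ Real.exp (2 * C) := by
            rw [one_mul]
            apply Real.exp_le_exp.2
            nlinarith
    · have hne : σ = π i := hr h
      subst hne
      have h5 : ‖w i (π i)‖ = 1 := by
        rw [hw]
        show ‖c i (π i) / c i (π i)‖ = 1
        rw [div_self (h1 i), norm_one]
      rw [h5, one_mul, div_self (hun _).ne']
      rw [← Real.exp_zero]
      apply Real.exp_le_exp.2
      linarith
    · by_cases hz : c i σ = 0
      · have h5 : ‖w i σ‖ = 0 := by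
          rw [hw]
          show ‖c i σ / c i (π i)‖ = 0
          rw [hz, zero_div, norm_zero]
        rw [h5, zero_mul]
        exact (Real.exp_pos _).le
      · have hd : 0 < r σ - r (π i) := by linarith
        have h5 : x ≤ -Real.log ‖w i σ‖ / (r σ - r (π i)) :=
          hmin (i, σ) (by rw [hPdef, Finset.mem_filter]; exact ⟨Finset.mem_univ _, h, hz⟩)
        rw [le_div_iff₀ hd] at h5
        have h6 : ‖w i σ‖ = Real.exp (Real.log ‖w i σ‖) := (Real.exp_log (hwne i σ hz)).symm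
        calc ‖w i σ‖ * (‖σ ((u : 𝓞 K) : K)‖ / ‖(π i) ((u : 𝓞 K) : K)‖) ≤
            Real.exp (Real.log ‖w i σ‖) * Real.exp (x * (r σ - r (π i)) + 2 * C) := by
              rw [← h6]
              exact mul_le_mul_of_nonneg_left (hrup i σ) (norm_nonneg _)
          _ ≤ Real.exp (2 * C) := by
              rw [← Real.exp_add]
              apply Real.exp_le_exp.2
              linarith
  · intro i σ h
    show ‖w i σ * σ ((u : 𝓞 K) : K) / (π i) ((u : 𝓞 K) : K)‖ ≤ _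
    rw [hnorm]
    have hne : σ ≠ π i := by
      rintro rfl
      exact lt_irrefl _ h
    have h5 : ‖w i σ‖ ≤ 1 := by
      refine (h3 i σ hne).trans ?_
      rw [← Real.exp_zero]
      apply Real.exp_le_exp.2
      have h6 : 0 ≤ R := by
        have := hR σ σ
        linarith
      nlinarith
    have h7 := hgap σ (π i) h
    calc ‖w i σ‖ * (‖σ ((u : 𝓞 K) : K)‖ / ‖(π i) ((u : 𝓞 K) : K)‖) ≤
        1 * Real.exp (x * (r σ - r (π i)) + 2 * C) :=
          mul_le_mul h5 (hrup i σ) (div_nonneg (norm_nonneg _) (norm_nonneg _)) zero_le_one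
      _ ≤ Real.exp (2 * C - k * g) := by
          rw [one_mul]
          apply Real.exp_le_exp.2
          have h8 : k * g ≤ x * (r (π i) - r σ) :=
            (mul_le_mul_of_nonneg_left h7 hk).trans
              (mul_le_mul_of_nonneg_right hkx (by linarith))
          nlinarith
  · refine ⟨p0.1, p0.2, hp0'.1, ?_⟩
    show _ ≤ ‖w p0.1 p0.2 * p0.2 ((u : 𝓞 K) : K) / (π p0.1) ((u : 𝓞 K) : K)‖
    rw [hnorm]
    have hd : 0 < r p0.2 - r (π p0.1) := by linarith [hp0'.1]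
    have h5 : x * (r p0.2 - r (π p0.1)) = -Real.log ‖w p0.1 p0.2‖ := by
      rw [hx, hy]
      show -Real.log ‖w p0.1 p0.2‖ / (r p0.2 - r (π p0.1)) * (r p0.2 - r (π p0.1)) = _
      rw [div_mul_cancel₀ _ hd.ne']
    have h6 : ‖w p0.1 p0.2‖ = Real.exp (Real.log ‖w p0.1 p0.2‖) :=
      (Real.exp_log (hwne _ _ hp0'.2)).symm
    calc Real.exp (-(2 * C)) = Real.exp (Real.log ‖w p0.1 p0.2‖) *
        Real.exp (x * (r p0.2 - r (π p0.1)) - 2 * C) := by
          rw [← Real.exp_add, h5]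
          congr 1
          ring
      _ ≤ ‖w p0.1 p0.2‖ * (‖p0.2 ((u : 𝓞 K) : K)‖ / ‖(π p0.1) ((u : 𝓞 K) : K)‖) := by
          rw [← h6]
          exact mul_le_mul_of_nonneg_left (hrlo _ _) (norm_nonneg _)
  · exact clo_low c π h1 ν B hν h2 hP u

theorem clo_upper {K : Type} [Field K] [NumberField K] (hd : 3 ≤ Module.finrank ℚ K)
    (hreal : ∀ σ : K →+* ℂ, ComplexEmbedding.conjugate σ = σ) {ι : Type} [Fintype ι]
    (c : ℕ → ι → (K →+* ℂ) → ℂ) (hc : ∀ n i, Sym (c n i)) (π : ι ≃ (K →+* ℂ))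
    (c' : ι → (K →+* ℂ) → ℂ)
    (hlim : ∀ i σ, Tendsto (fun n => c n i σ) atTop (𝓝 (c' i σ)))
    (hc' : ∀ i, c' i (π i) ≠ 0) (hc'0 : ∀ i σ, σ ≠ π i → c' i σ = 0)
    (ν : ℝ) (hν : 0 < ν) (hP : ∀ n, Low (c n) ν)
    (r : (K →+* ℂ) → ℝ) (hr : Function.Injective r) (hr0 : ∑ σ, r σ = 0)
    (hfreq : ∃ᶠ n in atTop, ∃ i σ, r (π i) < r σ ∧ c n i σ ≠ 0) : False := by
  classical
  obtain ⟨C, hC⟩ := coc K
  have hne : Nonempty (K →+* ℂ) := inferInstance
  have hC0 : 0 ≤ C := by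
    obtain ⟨u, hu⟩ := hC (fun _ => 0) (fun _ => rfl) (by simp)
    exact (abs_nonneg _).trans (hu hne.some)
  -- the gap
  obtain ⟨g, hg, hgap⟩ : ∃ g : ℝ, 0 < g ∧ ∀ σ τ, r σ < r τ → g ≤ r τ - r σ := by
    by_cases hP : (Finset.univ.filter fun p : (K →+* ℂ) × (K →+* ℂ) => r p.1 < r p.2).Nonempty
    · obtain ⟨p0, hp0, hmin⟩ := Finset.exists_min_image _
        (fun p : (K →+* ℂ) × (K →+* ℂ) => r p.2 - r p.1) hP
      refine ⟨r p0.2 - r p0.1, by linarith [(Finset.mem_filter.1 hp0).2], fun σ τ h => ?_⟩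
      exact hmin (σ, τ) (Finset.mem_filter.2 ⟨Finset.mem_univ _, h⟩)
    · refine ⟨1, one_pos, fun σ τ h => ?_⟩
      exact absurd ⟨(σ, τ), Finset.mem_filter.2 ⟨Finset.mem_univ _, h⟩⟩ hP
  obtain ⟨R, hR⟩ : ∃ R : ℝ, ∀ σ τ, r τ - r σ ≤ R := by
    obtain ⟨p0, -, hmax⟩ := Finset.exists_max_image Finset.univ
      (fun p : (K →+* ℂ) × (K →+* ℂ) => r p.2 - r p.1) Finset.univ_nonempty
    exact ⟨_, fun σ τ => hmax (σ, τ) (Finset.mem_univ _)⟩
  set B : ℝ := (∏ i, ‖c' i (π i)‖) + 1 with hB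
  have hB0 : 0 < B := by
    have : 0 ≤ ∏ i, ‖c' i (π i)‖ := Finset.prod_nonneg fun i _ => norm_nonneg _
    linarith
  -- the good rows
  have key : ∀ k : ℕ, ∃ a : ι → (K →+* ℂ) → ℂ, (∀ i, Sym (a i)) ∧ (∀ i, a i (π i) = 1) ∧
      (∀ i σ, ‖a i σ‖ ≤ Real.exp (2 * C)) ∧
      (∀ i σ, r σ < r (π i) → ‖a i σ‖ ≤ Real.exp (2 * C - k * g)) ∧
      (∃ i σ, r (π i) < r σ ∧ Real.exp (-(2 * C)) ≤ ‖a i σ‖) ∧ Low a (ν / B) := by
    intro k
    have e1 : ∀ᶠ n in atTop, ∀ i, c n i (π i) ≠ 0 := by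
      rw [eventually_all]
      intro i
      exact (hlim i (π i)).eventually_ne (hc' i)
    have e2 : ∀ᶠ n in atTop, ∏ i, ‖c n i (π i)‖ ≤ B := by
      have h5 : Tendsto (fun n => ∏ i, ‖c n i (π i)‖) atTop (𝓝 (∏ i, ‖c' i (π i)‖)) :=
        tendsto_finsetProd _ fun i _ => (hlim i (π i)).norm
      exact h5.eventually_le_const (by linarith)
    have e3 : ∀ᶠ n in atTop, ∀ i σ, σ ≠ π i →
        ‖c n i σ / c n i (π i)‖ ≤ Real.exp (-(k * R)) := by
      rw [eventually_all]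
      intro i
      rw [eventually_all]
      intro σ
      by_cases hσ : σ = π i
      · exact Eventually.of_forall fun n h => absurd hσ h
      · have h5 : Tendsto (fun n => ‖c n i σ / c n i (π i)‖) atTop (𝓝 ‖c' i σ / c' i (π i)‖) :=
          ((hlim i σ).div (hlim i (π i)) (hc' i)).norm
        rw [hc'0 i σ hσ, zero_div, norm_zero] at h5
        exact (h5.eventually_le_const (Real.exp_pos _)).mono fun n h _ => h
    obtain ⟨n, hn, hn1, hn2, hn3⟩ := (hfreq.and_eventually (e1.and (e2.and e3))).exists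
    exact clo_step hreal C hC0 hC r hr hr0 g hgap R hR B ν hν.le k (Nat.cast_nonneg k) (c n)
      (hc n) π hn1 hn2 hn3 hn (hP n)
  choose a ha1 ha2 ha3 ha4 ha5 ha6 using key
  -- compactness
  have hbdd : ∀ k, a k ∈ Metric.closedBall (0 : ι → (K →+* ℂ) → ℂ) (Real.exp (2 * C)) := by
    intro k
    rw [mem_closedBall_zero_iff, pi_norm_le_iff_of_nonneg (Real.exp_pos _).le]
    intro i
    rw [pi_norm_le_iff_of_nonneg (Real.exp_pos _).le]
    intro σ
    exact ha3 k i σ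
  obtain ⟨b, -, φ, hφ, hb⟩ := tendsto_subseq_of_bounded Metric.isBounded_closedBall hbdd
  have hbi : ∀ i σ, Tendsto (fun k => a (φ k) i σ) atTop (𝓝 (b i σ)) := by
    intro i σ
    exact (tendsto_pi_nhds.1 ((tendsto_pi_nhds.1 hb) i)) σ
  have hφ' : Tendsto (fun k => (φ k : ℝ)) atTop atTop :=
    tendsto_natCast_atTop_atTop.comp hφ.tendsto_atTop
  have b1 : ∀ i, Sym (b i) := by
    intro i σ
    have h5 := hbi i (ComplexEmbedding.conjugate σ)
    have h6 : Tendsto (fun k => (starRingEnd ℂ) (a (φ k) i σ)) atTop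
        (𝓝 ((starRingEnd ℂ) (b i σ))) :=
      (Complex.continuous_conj.tendsto _).comp (hbi i σ)
    refine tendsto_nhds_unique h5 (h6.congr fun k => ?_)
    exact (ha1 (φ k) i σ).symm
  have b2 : ∀ i, b i (π i) = 1 := by
    intro i
    refine tendsto_nhds_unique (hbi i (π i)) ?_
    refine tendsto_const_nhds.congr fun k => ?_
    exact (ha2 (φ k) i).symm
  have b3 : ∀ i σ, r σ < r (π i) → b i σ = 0 := by
    intro i σ h
    refine tendsto_nhds_unique (hbi i σ) ?_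
    have h5 : Tendsto (fun k => Real.exp (2 * C - (φ k : ℝ) * g)) atTop (𝓝 0) := by
      refine Real.tendsto_exp_atBot.comp ?_
      have h6 : Tendsto (fun k => -((φ k : ℝ) * g)) atTop atBot :=
        tendsto_neg_atTop_atBot.comp (hφ'.atTop_mul_const hg)
      have h7 := tendsto_atBot_add_const_left atTop (2 * C) h6
      exact h7.congr fun k => by ring
    exact squeeze_zero_norm (fun k => ha4 (φ k) i σ h) h5
  have b4 : ∃ i σ, r (π i) < r σ ∧ b i σ ≠ 0 := by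
    set S : (ι → (K →+* ℂ) → ℂ) → ℝ := fun f =>
      ∑ p ∈ Finset.univ.filter (fun p : ι × (K →+* ℂ) => r (π p.1) < r p.2), ‖f p.1 p.2‖ with hS
    have h5 : Tendsto (fun k => S (a (φ k))) atTop (𝓝 (S b)) :=
      tendsto_finsetSum _ fun p _ => (hbi p.1 p.2).norm
    have h6 : Real.exp (-(2 * C)) ≤ S b := by
      refine ge_of_tendsto h5 (Eventually.of_forall fun k => ?_)
      obtain ⟨i, σ, hi, hσ⟩ := ha5 (φ k)
      refine hσ.trans ?_
      exact Finset.single_le_sum (f := fun p : ι × (K →+* ℂ) => ‖a (φ k) p.1 p.2‖)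
        (fun p _ => norm_nonneg _) (Finset.mem_filter.2 ⟨Finset.mem_univ (i, σ), hi⟩)
    have h7 : S b ≠ 0 := ((Real.exp_pos _).trans_le h6).ne'
    obtain ⟨p, hp, hp2⟩ := Finset.exists_ne_zero_of_sum_ne_zero h7
    exact ⟨p.1, p.2, (Finset.mem_filter.1 hp).2, norm_ne_zero_iff.1 hp2⟩
  have b5 : Low b (ν / B) := by
    intro μ hμ
    have h5 : Tendsto (fun k => ‖∏ i, lin (a (φ k) i) (μ : K)‖) atTop
        (𝓝 ‖∏ i, lin (b i) (μ : K)‖) := by
      refine (tendsto_finsetProd _ fun i _ => ?_).norm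
      unfold lin
      exact tendsto_finsetSum _ fun σ _ => (hbi i σ).mul_const _
    exact ge_of_tendsto h5 (Eventually.of_forall fun k => ha6 (φ k) μ hμ)
  -- the top row
  obtain ⟨σ₁, hσ₁⟩ := Finite.exists_max r
  have hmono := mono hd σ₁ (hreal σ₁) (π.symm σ₁) b b1 π
    (fun i => by rw [b2 i]; exact one_ne_zero)
    (Or.inl fun σ hσ => b3 _ σ (by
      rw [Equiv.apply_symm_apply]
      exact lt_of_le_of_ne (hσ₁ σ) fun h => hσ (hr h)))
    (ν / B) (div_pos hν hB0) b5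
  obtain ⟨i, σ, hi, hσ⟩ := b4
  exact hσ (hmono.2 i σ fun h => by rw [h] at hi; exact lt_irrefl _ hi)

theorem clo {K : Type} [Field K] [NumberField K] (hd : 3 ≤ Module.finrank ℚ K)
    (hreal : ∀ σ : K →+* ℂ, ComplexEmbedding.conjugate σ = σ) {ι : Type} [Fintype ι]
    (c : ℕ → ι → (K →+* ℂ) → ℂ) (hc : ∀ n i, Sym (c n i)) (π : ι ≃ (K →+* ℂ))
    (c' : ι → (K →+* ℂ) → ℂ)
    (hlim : ∀ i σ, Tendsto (fun n => c n i σ) atTop (𝓝 (c' i σ)))
    (hc' : ∀ i, c' i (π i) ≠ 0) (hc'0 : ∀ i σ, σ ≠ π i → c' i σ = 0)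
    (ν : ℝ) (hν : 0 < ν) (hP : ∀ n, Low (c n) ν) :
    ∃ n, ∀ i σ, σ ≠ π i → c n i σ = 0 := by
  classical
  by_contra hcon
  push Not at hcon
  have hne : Nonempty (K →+* ℂ) := inferInstance
  set e := Fintype.equivFin (K →+* ℂ) with he
  set m : ℝ := (∑ σ, ((e σ : ℕ) : ℝ)) / Fintype.card (K →+* ℂ) with hm
  set r : (K →+* ℂ) → ℝ := fun σ => ((e σ : ℕ) : ℝ) - m with hrdef
  have hr : Function.Injective r := by
    intro σ τ h
    have h1 : ((e σ : ℕ) : ℝ) = ((e τ : ℕ) : ℝ) := by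
      have : ((e σ : ℕ) : ℝ) - m = ((e τ : ℕ) : ℝ) - m := h
      linarith
    have h2 : (e σ : ℕ) = (e τ : ℕ) := by exact_mod_cast h1
    exact e.injective (Fin.ext h2)
  have hr0 : ∑ σ, r σ = 0 := by
    rw [hrdef]
    rw [Finset.sum_sub_distrib, Finset.sum_const, Finset.card_univ, nsmul_eq_mul, hm,
      mul_div_cancel₀]
    · exact sub_self _
    · exact_mod_cast Fintype.card_ne_zero
  have hor : ∃ᶠ n in atTop, (∃ i σ, r (π i) < r σ ∧ c n i σ ≠ 0) ∨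
      (∃ i σ, -r (π i) < -r σ ∧ c n i σ ≠ 0) := by
    refine (Eventually.of_forall fun n => ?_).frequently
    obtain ⟨i, σ, h1, h2⟩ := hcon n
    rcases lt_trichotomy (r (π i)) (r σ) with h | h | h
    · exact Or.inl ⟨i, σ, h, h2⟩
    · exact absurd (hr h).symm h1
    · exact Or.inr ⟨i, σ, neg_lt_neg h, h2⟩
  rcases frequently_or_distrib.1 hor with h | h
  · exact clo_upper hd hreal c hc π c' hlim hc' hc'0 ν hν hP r hr hr0 h
  · exact clo_upper hd hreal c hc π c' hlim hc' hc'0 ν hν hP (fun σ => -r σ)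
      (fun σ τ h => hr (neg_injective h)) (by rw [Finset.sum_neg_distrib, hr0, neg_zero]) h

end H46.AF
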