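import Pool.Agent.H46.AF.Defs

/-! # COC: the logarithms of the units are cocompact

Statement: there is `C` such that for every `t : E → ℝ` with `t (conjugate σ) = t σ` and
`∑ σ, t σ = 0` there is a unit `u` with `|log ‖σ u‖ - t σ| ≤ C` for all `σ`.

Proof. Dirichlet's unit theorem in Mathlib: `NumberField.Units.dirichletUnitTheorem.unitLattice K`
(the image of `logEmbedding`) is a lattice in `logSpace K = ({w // w ≠ w₀} → ℝ)`
(`unitLattice_span_eq_top`, the instance `instDiscrete_unitLattice` / `IsZLattice`).  Take a basis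
of the lattice (it spans the space), its fundamental parallelepiped is bounded by `C₀`, so each
`v` in the space differs from some lattice vector by at most `C₀` in each coordinate
(`ZSpan.fract`, `ZSpan.fundamentalDomain_isBounded` and friends, or a direct argument: write `v`
in the basis and round the coefficients).  Apply this to `v w = mult w * t σ_w` (`σ_w = w.embedding`).
`logEmbedding K u w = mult w * log (w u)`, so `|log (w u) - t σ_w| ≤ C₀` for `w ≠ w₀`; for `w₀` use
`∑ mult w * log (w u) = 0` (`NumberField.Units.sum_mult_mul_log`) and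
`∑ σ, t σ = ∑ w, mult w * t σ_w = 0` (each place has `mult w` embeddings: `σ_w` and its conjugate,
`InfinitePlace.sum_eq_sum_embeddings`-like lemmas, or `Finset.sum_fiberwise`).  Finally `‖σ x‖ = (mk σ) x`, and `t σ = t (mk σ).embedding`
since `σ` is `(mk σ).embedding` or its conjugate (`InfinitePlace.embedding_mk_eq`).
The case of one place (no unit of infinite order) is included (`t = 0` then, `u = 1`). -/

set_option autoImplicit false

open scoped NumberField
open NumberField

namespace H46.AF

open NumberField.Units NumberField.Units.dirichletUnitTheorem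

/-- some lattice vector is near -/
theorem coc_lattice (K : Type) [Field K] [NumberField K] :
    ∃ C : ℝ, 0 ≤ C ∧ ∀ v : logSpace K, ∃ u : (𝓞 K)ˣ, ∀ w : {w : InfinitePlace K // w ≠ w₀},
      |logEmbedding K (Additive.ofMul u) w - v w| ≤ C := by
  classical
  let b := (basisUnitLattice K).ofZLatticeBasis ℝ (unitLattice K)
  refine ⟨∑ i, ‖b i‖, Finset.sum_nonneg fun i _ => norm_nonneg _, fun v => ?_⟩
  have h1 : (ZSpan.floor b v : logSpace K) ∈ unitLattice K := by
    have h2 := (ZSpan.floor b v).2
    have h3 : Submodule.span ℤ (Set.range b) = unitLattice K :=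
      (basisUnitLattice K).ofZLatticeBasis_span ℝ
    exact h3.le h2
  obtain ⟨x, -, hx⟩ := h1
  refine ⟨x.toMul, fun w => ?_⟩
  have h3 : ‖ZSpan.fract b v‖ ≤ ∑ i, ‖b i‖ := ZSpan.norm_fract_le b v
  have h4 : ‖ZSpan.fract b v w‖ ≤ ‖ZSpan.fract b v‖ := norm_le_pi_norm _ w
  have h5 : ZSpan.fract b v w = v w - logEmbedding K (Additive.ofMul x.toMul) w := by
    rw [ZSpan.fract_apply, ← hx]
    rfl
  rw [abs_sub_comm, ← h5, ← Real.norm_eq_abs]
  exact h4.trans h3

theorem coc_emb {K : Type} [Field K] (t : (K →+* ℂ) → ℝ)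
    (ht : ∀ σ, t (ComplexEmbedding.conjugate σ) = t σ) (σ : K →+* ℂ) :
    t (InfinitePlace.mk σ).embedding = t σ := by
  rcases InfinitePlace.embedding_mk_eq σ with h | h
  · rw [h]
  · rw [h, ht]

theorem coc_sum (K : Type) [Field K] [NumberField K] (t : (K →+* ℂ) → ℝ)
    (ht : ∀ σ, t (ComplexEmbedding.conjugate σ) = t σ) :
    ∑ w : InfinitePlace K, (w.mult : ℝ) * t w.embedding = ∑ σ, t σ := by
  classical
  rw [← Finset.sum_fiberwise (s := Finset.univ) (g := fun σ : K →+* ℂ => InfinitePlace.mk σ)
    (f := t)]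
  refine Finset.sum_congr rfl fun w _ => ?_
  have h1 : ∀ σ ∈ Finset.univ.filter (fun σ : K →+* ℂ => InfinitePlace.mk σ = w),
      t σ = t w.embedding := by
    intro σ hσ
    rw [Finset.mem_filter] at hσ
    rw [← hσ.2, coc_emb t ht]
  rw [Finset.sum_congr rfl h1, Finset.sum_const, InfinitePlace.card_filter_mk_eq, nsmul_eq_mul]

theorem coc (K : Type) [Field K] [NumberField K] :
    ∃ C : ℝ, ∀ t : (K →+* ℂ) → ℝ, (∀ σ, t (ComplexEmbedding.conjugate σ) = t σ) →
      ∑ σ, t σ = 0 → ∃ u : (𝓞 K)ˣ, ∀ σ : K →+* ℂ,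
        |Real.log ‖σ ((u : 𝓞 K) : K)‖ - t σ| ≤ C := by
  classical
  obtain ⟨C, hC0, hC⟩ := coc_lattice K
  refine ⟨(Fintype.card (InfinitePlace K) : ℝ) * C, fun t ht hsum => ?_⟩
  obtain ⟨u, hu⟩ := hC (fun w => (w.1.mult : ℝ) * t w.1.embedding)
  refine ⟨u, fun σ => ?_⟩
  have hcard : (1 : ℝ) ≤ (Fintype.card (InfinitePlace K) : ℝ) := by
    exact_mod_cast Fintype.card_pos
  have hcC : C ≤ (Fintype.card (InfinitePlace K) : ℝ) * C := by nlinarith
  have hmult : ∀ w : InfinitePlace K, (1 : ℝ) ≤ (w.mult : ℝ) := by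
    intro w
    exact_mod_cast (InfinitePlace.mult_pos (w := w))
  have tool : ∀ (w : InfinitePlace K) (x : ℝ), |x| ≤ |(w.mult : ℝ) * x| := by
    intro w x
    rw [abs_mul, abs_of_nonneg (by linarith [hmult w] : (0 : ℝ) ≤ (w.mult : ℝ))]
    nlinarith [hmult w, abs_nonneg x]
  have h1 : ∀ w : {w : InfinitePlace K // w ≠ w₀},
      |(w.1.mult : ℝ) * (Real.log (w.1 (u : K)) - t w.1.embedding)| ≤ C := by
    intro w
    have h := hu w
    rw [logEmbedding_component] at h
    rw [mul_sub]
    exact h
  have key : ∀ w : InfinitePlace K, |Real.log (w (u : K)) - t w.embedding| ≤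
      (Fintype.card (InfinitePlace K) : ℝ) * C := by
    intro w
    by_cases hw : w = w₀
    · have h2 : ∑ w : InfinitePlace K, (w.mult : ℝ) * (Real.log (w (u : K)) - t w.embedding)
          = 0 := by
        simp_rw [mul_sub]
        rw [Finset.sum_sub_distrib, sum_mult_mul_log, coc_sum K t ht, hsum, sub_zero]
      rw [Fintype.sum_eq_add_sum_subtype_ne _ w₀] at h2
      have h3 : ((w₀ : InfinitePlace K).mult : ℝ) * (Real.log (w₀ (u : K)) - t w₀.embedding) =
          - ∑ w : {w : InfinitePlace K // w ≠ w₀},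
            (w.1.mult : ℝ) * (Real.log (w.1 (u : K)) - t w.1.embedding) := by
        linarith
      rw [hw]
      refine (tool w₀ _).trans ?_
      rw [h3, abs_neg]
      refine (Finset.abs_sum_le_sum_abs _ _).trans ?_
      refine (Finset.sum_le_sum fun w _ => h1 w).trans ?_
      rw [Finset.sum_const, nsmul_eq_mul]
      refine mul_le_mul_of_nonneg_right ?_ hC0
      have h4 : (Finset.univ : Finset {w : InfinitePlace K // w ≠ w₀}).card ≤
          Fintype.card (InfinitePlace K) := by
        rw [Finset.card_univ]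
        exact Fintype.card_subtype_le _
      exact_mod_cast h4
    · exact ((tool w _).trans (h1 ⟨w, hw⟩)).trans hcC
  have h5 := key (InfinitePlace.mk σ)
  rw [coc_emb t ht, InfinitePlace.apply] at h5
  exact h5

end H46.AF
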