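import Mathlib

/-!
# Algebraic factors (MP_edeaa2_an): definitions

`K` is a number field, `E = (K →+* ℂ)` its set of complex embeddings.  A row is a function
`a : E → ℂ`; its value at `μ` is `lin a μ = ∑ a σ * σ μ`.  `Sym a` says that the row is real.
`Low c ν` says that the product of the rows is at least `ν` in absolute value at all nonzero
algebraic integers.
-/

set_option autoImplicit false

open scoped NumberField
open NumberField

namespace H46.AF

/-- value of the row `a` at `μ` -/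
noncomputable def lin {K : Type} [Field K] [NumberField K] (a : (K →+* ℂ) → ℂ) (μ : K) : ℂ :=
  ∑ σ : K →+* ℂ, a σ * σ μ

/-- the row is real -/
def Sym {K : Type} [Field K] (a : (K →+* ℂ) → ℂ) : Prop :=
  ∀ σ : K →+* ℂ, a (ComplexEmbedding.conjugate σ) = (starRingEnd ℂ) (a σ)

/-- the product of the rows is at least `ν` at all nonzero algebraic integers -/
def Low {K : Type} [Field K] [NumberField K] {ι : Type} [Fintype ι]
    (c : ι → (K →+* ℂ) → ℂ) (ν : ℝ) : Prop :=
  ∀ μ : 𝓞 K, μ ≠ 0 → ν ≤ ‖∏ i, lin (c i) (μ : K)‖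

/-- the rows of the real matrix `h` in the coordinates given by `v` -/
noncomputable def cof {K : Type} [Field K] {d : ℕ} (v : Fin d → K)
    (h : Matrix (Fin d) (Fin d) ℝ) (i : Fin d) (σ : K →+* ℂ) : ℂ :=
  ∑ j, (h i j : ℂ) * σ (v j)

/-- the product of the linear forms given by the rows of `h` is proportional to an integral form -/
def Integral {d : ℕ} (h : Matrix (Fin d) (Fin d) ℝ) : Prop :=
  ∃ c : ℝ, c ≠ 0 ∧ ∀ m : Fin d →₀ ℕ, ∃ z : ℤ,
    MvPolynomial.coeff m
      (c • (∏ i : Fin d, ∑ j : Fin d,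
        MvPolynomial.C (h i j) * MvPolynomial.X j : MvPolynomial (Fin d) ℝ)) = (z : ℝ)

/-- `|F(x)| ≥ ν` for all nonzero integer vectors -/
def LowZ {d : ℕ} (h : Matrix (Fin d) (Fin d) ℝ) (ν : ℝ) : Prop :=
  ∀ x : Fin d → ℤ, x ≠ 0 → ν ≤ |∏ i : Fin d, ∑ j : Fin d, h i j * (x j : ℝ)|

end H46.AF
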