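import Pool.Agent.H46.AF.Defs

/-! # DENS: two real rows which are not positively proportional

Statements:
* `lin_real`: a real row takes real values.
* `dens`: if `a, b` are real rows, both nonzero, and `b` is not a positive multiple of `a`, then
  some algebraic integer `μ` has `lin a μ > 0 > lin b μ`.

Proof of `lin_real`: `conj (∑ a σ σ μ) = ∑ a (conj σ) (conj σ) μ`, reindex the sum by the
involution `σ ↦ conjugate σ`.
Proof of `dens`: let `b₁ … b_d` be an integral basis (`RingOfIntegers.basis`, `integralBasis`) and `A j = (lin a (b j)).re`,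
`B j = (lin b (b j)).re`.  The matrix `σ (b j)` is invertible (discriminant, e.g.
`Algebra.discr_not_zero_of_basis`, `Algebra.embeddingsMatrix`; or linear independence of the
characters `σ`: `lin a = 0` on a basis gives `lin a = 0` on `K` and `linearIndependent_monoidHom` gives `a = 0`), so `A ≠ 0`, `B ≠ 0` and `B ≠ r A` for `r > 0`
(all by `lin_real` and the independence applied to `a`, `b`, `b - r a`).  Hence there is a real
vector `x` with `A·x > 0 > B·x` (if `A, B` are linearly independent choose the values freely; otherwise `B = -r A`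
with `r > 0` and `x = A`; or: `x = A/|A| - B/|B|` works by strict Cauchy-Schwarz).  The set of these `x` is open, so it contains a rational vector, and
after scaling an integral one `n`; `μ = ∑ n j b j`. -/

set_option autoImplicit false

open scoped NumberField
open NumberField

namespace H46.AF

theorem lin_real {K : Type} [Field K] [NumberField K] {a : (K →+* ℂ) → ℂ} (ha : Sym a) (μ : K) :
    (lin a μ).im = 0 := by
  rw [← Complex.conj_eq_iff_im]
  unfold lin
  rw [map_sum]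
  have hinv : Function.Involutive (ComplexEmbedding.conjugate (K := K)) :=
    ComplexEmbedding.involutive_conjugate K
  rw [← Equiv.sum_comp hinv.toPerm (fun σ : K →+* ℂ => a σ * σ μ)]
  refine Finset.sum_congr rfl fun σ _ => ?_
  show (starRingEnd ℂ) (a σ * σ μ) = a (ComplexEmbedding.conjugate σ) * ComplexEmbedding.conjugate σ μ
  rw [map_mul, ha σ, ComplexEmbedding.conjugate_coe_eq]

theorem dens_sum {K : Type} [Field K] [NumberField K] (a : (K →+* ℂ) → ℂ) {ι : Type*}
    (s : Finset ι) (q : ι → ℚ) (b : ι → K) :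
    lin a (∑ j ∈ s, (q j : K) * b j) = ∑ j ∈ s, (q j : ℂ) * lin a (b j) := by
  unfold lin
  simp only [map_sum, map_mul, map_ratCast, Finset.mul_sum]
  rw [Finset.sum_comm]
  refine Finset.sum_congr rfl fun j _ => Finset.sum_congr rfl fun σ _ => ?_
  ring

theorem dens_zero {K : Type} [Field K] [NumberField K] (a : (K →+* ℂ) → ℂ)
    (h : ∀ μ : K, lin a μ = 0) : a = 0 := by
  have h1 : LinearIndependent ℂ (fun σ : K →+* ℂ => (σ : K → ℂ)) := by
    have h2 := linearIndependent_monoidHom K ℂ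
    exact h2.comp (fun σ : K →+* ℂ => (σ : K →* ℂ)) (fun σ τ hst => by
      ext x
      exact DFunLike.congr_fun hst x)
  have h2 := Fintype.linearIndependent_iff.1 h1 a (by
    funext μ
    rw [Finset.sum_apply]
    have h3 := h μ
    unfold lin at h3
    simpa [Pi.smul_apply, smul_eq_mul] using h3)
  funext σ
  exact h2 σ

theorem dens_re {K : Type} [Field K] [NumberField K] (a : (K →+* ℂ) → ℂ) (ha : Sym a)
    (h : ∀ j, (lin a ((RingOfIntegers.basis K j : 𝓞 K) : K)).re = 0) : a = 0 := by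
  have h1 : ∀ j, lin a ((RingOfIntegers.basis K j : 𝓞 K) : K) = 0 := by
    intro j
    exact Complex.ext (h j) (lin_real ha _)
  refine dens_zero a fun μ => ?_
  have h2 := (integralBasis K).sum_repr μ
  rw [← h2]
  have h3 : ∑ i, (integralBasis K).repr μ i • integralBasis K i =
      ∑ i, (((integralBasis K).repr μ i : ℚ) : K) * ((RingOfIntegers.basis K i : 𝓞 K) : K) := by
    refine Finset.sum_congr rfl fun i _ => ?_
    rw [integralBasis_apply, Algebra.smul_def]
    rfl
  rw [h3, dens_sum]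
  refine Finset.sum_eq_zero fun j _ => ?_
  rw [h1 j, mul_zero]

theorem dens_vec {ι : Type*} [Fintype ι] (A B : ι → ℝ) (hA : A ≠ 0) (hB : B ≠ 0)
    (h : ¬ ∃ r : ℝ, 0 < r ∧ ∀ j, B j = r * A j) :
    ∃ x : ι → ℝ, 0 < ∑ j, A j * x j ∧ ∑ j, B j * x j < 0 := by
  obtain ⟨SA, hSA⟩ : ∃ s, s = ∑ j, A j ^ 2 := ⟨_, rfl⟩
  obtain ⟨SB, hSB⟩ : ∃ s, s = ∑ j, B j ^ 2 := ⟨_, rfl⟩
  obtain ⟨SC, hSC⟩ : ∃ s, s = ∑ j, A j * B j := ⟨_, rfl⟩
  have hpos : ∀ (C : ι → ℝ), C ≠ 0 → 0 < ∑ j, C j ^ 2 := by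
    intro C hC
    obtain ⟨j, hj⟩ := Function.ne_iff.1 hC
    exact Finset.sum_pos' (fun i _ => sq_nonneg _) ⟨j, Finset.mem_univ _, by
      have : C j ≠ 0 := hj
      positivity⟩
  have hA0 : 0 < SA := by rw [hSA]; exact hpos A hA
  have hB0 : 0 < SB := by rw [hSB]; exact hpos B hB
  have hlt : SC < Real.sqrt SA * Real.sqrt SB := by
    by_contra hcon
    push Not at hcon
    have h1 : 0 < Real.sqrt SA * Real.sqrt SB :=
      mul_pos (Real.sqrt_pos.2 hA0) (Real.sqrt_pos.2 hB0)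
    have hC0 : 0 < SC := lt_of_lt_of_le h1 hcon
    have h2 : SA * SB ≤ SC ^ 2 := by
      calc SA * SB = (Real.sqrt SA * Real.sqrt SB) ^ 2 := by
            rw [mul_pow, Real.sq_sqrt hA0.le, Real.sq_sqrt hB0.le]
        _ ≤ SC ^ 2 := pow_le_pow_left₀ h1.le hcon 2
    have h3 : ∑ j, (SC * A j - SA * B j) ^ 2 ≤ 0 := by
      have h4 : ∑ j, (SC * A j - SA * B j) ^ 2 = SA * (SA * SB - SC ^ 2) := by
        have h5 : ∀ j, (SC * A j - SA * B j) ^ 2 =
            SC ^ 2 * A j ^ 2 - 2 * SC * SA * (A j * B j) + SA ^ 2 * B j ^ 2 := fun j => by ring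
        rw [Finset.sum_congr rfl fun j _ => h5 j, Finset.sum_add_distrib, Finset.sum_sub_distrib,
          ← Finset.mul_sum, ← Finset.mul_sum, ← Finset.mul_sum, ← hSA, ← hSB, ← hSC]
        ring
      rw [h4]
      exact mul_nonpos_of_nonneg_of_nonpos hA0.le (by linarith)
    have h4 : ∀ j, SC * A j - SA * B j = 0 := by
      intro j
      have h5 : ∑ j, (SC * A j - SA * B j) ^ 2 = 0 :=
        le_antisymm h3 (Finset.sum_nonneg fun i _ => sq_nonneg _)
      have h6 := (Finset.sum_eq_zero_iff_of_nonneg (fun i _ => sq_nonneg _)).1 h5 j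
        (Finset.mem_univ _)
      exact pow_eq_zero_iff (two_ne_zero) |>.1 h6
    apply h
    refine ⟨SC / SA, div_pos hC0 hA0, fun j => ?_⟩
    have := h4 j
    field_simp
    linarith
  refine ⟨fun j => Real.sqrt SB * A j - Real.sqrt SA * B j, ?_, ?_⟩
  · have h1 : ∑ j, A j * (Real.sqrt SB * A j - Real.sqrt SA * B j) =
        Real.sqrt SA * (Real.sqrt SA * Real.sqrt SB - SC) := by
      have h2 : ∀ j, A j * (Real.sqrt SB * A j - Real.sqrt SA * B j) =
          Real.sqrt SB * A j ^ 2 - Real.sqrt SA * (A j * B j) := fun j => by ring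
      rw [Finset.sum_congr rfl fun j _ => h2 j, Finset.sum_sub_distrib, ← Finset.mul_sum,
        ← Finset.mul_sum, ← hSA, ← hSC]
      have h3 := Real.mul_self_sqrt hA0.le
      calc Real.sqrt SB * SA - Real.sqrt SA * SC =
          Real.sqrt SB * (Real.sqrt SA * Real.sqrt SA) - Real.sqrt SA * SC := by rw [h3]
        _ = _ := by ring
    rw [h1]
    exact mul_pos (Real.sqrt_pos.2 hA0) (by linarith)
  · have h1 : ∑ j, B j * (Real.sqrt SB * A j - Real.sqrt SA * B j) =
        Real.sqrt SB * (SC - Real.sqrt SA * Real.sqrt SB) := by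
      have h2 : ∀ j, B j * (Real.sqrt SB * A j - Real.sqrt SA * B j) =
          Real.sqrt SB * (A j * B j) - Real.sqrt SA * B j ^ 2 := fun j => by ring
      rw [Finset.sum_congr rfl fun j _ => h2 j, Finset.sum_sub_distrib, ← Finset.mul_sum,
        ← Finset.mul_sum, ← hSB, ← hSC]
      have h3 := Real.mul_self_sqrt hB0.le
      calc Real.sqrt SB * SC - Real.sqrt SA * SB =
          Real.sqrt SB * SC - Real.sqrt SA * (Real.sqrt SB * Real.sqrt SB) := by rw [h3]
        _ = _ := by ring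
    rw [h1]
    exact mul_neg_of_pos_of_neg (Real.sqrt_pos.2 hB0) (by linarith)

theorem dens_int {ι : Type*} [Fintype ι] (A B : ι → ℝ) (x : ι → ℝ)
    (hA : 0 < ∑ j, A j * x j) (hB : ∑ j, B j * x j < 0) :
    ∃ n : ι → ℤ, 0 < ∑ j, A j * (n j : ℝ) ∧ ∑ j, B j * (n j : ℝ) < 0 := by
  have key : ∀ (C : ι → ℝ) (N : ℝ), |∑ j, C j * ((⌊N * x j⌋ : ℤ) : ℝ) - N * ∑ j, C j * x j| ≤
      ∑ j, |C j| := by
    intro C N
    rw [Finset.mul_sum, ← Finset.sum_sub_distrib]
    refine (Finset.abs_sum_le_sum_abs _ _).trans (Finset.sum_le_sum fun j _ => ?_)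
    have h1 : C j * ((⌊N * x j⌋ : ℤ) : ℝ) - N * (C j * x j) =
        C j * (((⌊N * x j⌋ : ℤ) : ℝ) - N * x j) := by ring
    rw [h1, abs_mul]
    refine mul_le_of_le_one_right (abs_nonneg _) ?_
    rw [abs_le]
    have h2 := Int.floor_le (N * x j)
    have h3 := Int.lt_floor_add_one (N * x j)
    constructor <;> linarith
  obtain ⟨N, hN⟩ := exists_nat_gt ((∑ j, |A j|) / ∑ j, A j * x j)
  obtain ⟨M, hM⟩ := exists_nat_gt ((∑ j, |B j|) / (-∑ j, B j * x j))
  have hN' : ∑ j, |A j| < ((N + M : ℕ) : ℝ) * ∑ j, A j * x j := by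
    rw [div_lt_iff₀ hA] at hN
    refine lt_of_lt_of_le hN ?_
    push_cast
    have : (0 : ℝ) ≤ (M : ℝ) := Nat.cast_nonneg _
    nlinarith
  have hM' : ∑ j, |B j| < ((N + M : ℕ) : ℝ) * (-∑ j, B j * x j) := by
    rw [div_lt_iff₀ (by linarith)] at hM
    refine lt_of_lt_of_le hM ?_
    push_cast
    have : (0 : ℝ) ≤ (N : ℝ) := Nat.cast_nonneg _
    nlinarith
  refine ⟨fun j => ⌊((N + M : ℕ) : ℝ) * x j⌋, ?_, ?_⟩
  · have h1 := (abs_le.1 (key A ((N + M : ℕ) : ℝ))).1
    linarith
  · have h1 := (abs_le.1 (key B ((N + M : ℕ) : ℝ))).2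
    linarith

theorem dens_cast {K : Type} [Field K] [NumberField K]
    (n : Module.Free.ChooseBasisIndex ℤ (𝓞 K) → ℤ) :
    ((∑ j, (n j : 𝓞 K) * RingOfIntegers.basis K j : 𝓞 K) : K) =
        ∑ j, (((n j : ℚ)) : K) * ((RingOfIntegers.basis K j : 𝓞 K) : K) := by
  have h := map_sum (algebraMap (𝓞 K) K)
    (fun j => (n j : 𝓞 K) * RingOfIntegers.basis K j) Finset.univ
  refine h.trans (Finset.sum_congr rfl fun j _ => ?_)
  rw [map_mul, map_intCast, Rat.cast_intCast]

theorem dens {K : Type} [Field K] [NumberField K] (a b : (K →+* ℂ) → ℂ) (ha : Sym a)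
    (hb : Sym b) (ha0 : a ≠ 0) (hb0 : b ≠ 0)
    (hpos : ¬ ∃ r : ℝ, 0 < r ∧ ∀ σ, b σ = (r : ℂ) * a σ) :
    ∃ μ : 𝓞 K, 0 < (lin a (μ : K)).re ∧ (lin b (μ : K)).re < 0 := by
  obtain ⟨A, hA⟩ : ∃ A : Module.Free.ChooseBasisIndex ℤ (𝓞 K) → ℝ,
      A = fun j => (lin a ((RingOfIntegers.basis K j : 𝓞 K) : K)).re := ⟨_, rfl⟩
  obtain ⟨B, hB⟩ : ∃ B : Module.Free.ChooseBasisIndex ℤ (𝓞 K) → ℝ,
      B = fun j => (lin b ((RingOfIntegers.basis K j : 𝓞 K) : K)).re := ⟨_, rfl⟩
  have hA0 : A ≠ 0 := by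
    intro h
    apply ha0
    refine dens_re a ha fun j => ?_
    have := congrFun h j
    rw [hA] at this
    exact this
  have hB0 : B ≠ 0 := by
    intro h
    apply hb0
    refine dens_re b hb fun j => ?_
    have := congrFun h j
    rw [hB] at this
    exact this
  have hAB : ¬ ∃ r : ℝ, 0 < r ∧ ∀ j, B j = r * A j := by
    rintro ⟨r, hr, h⟩
    apply hpos
    refine ⟨r, hr, fun σ => ?_⟩
    have hs : Sym (fun σ : K →+* ℂ => b σ - (r : ℂ) * a σ) := by
      intro σ
      show b (ComplexEmbedding.conjugate σ) - (r : ℂ) * a (ComplexEmbedding.conjugate σ) =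
        (starRingEnd ℂ) (b σ - (r : ℂ) * a σ)
      rw [hb σ, ha σ, map_sub, map_mul, Complex.conj_ofReal]
    have h0 := dens_re _ hs fun j => by
      have h1 : lin (fun σ : K →+* ℂ => b σ - (r : ℂ) * a σ)
          ((RingOfIntegers.basis K j : 𝓞 K) : K) =
          lin b ((RingOfIntegers.basis K j : 𝓞 K) : K) -
            (r : ℂ) * lin a ((RingOfIntegers.basis K j : 𝓞 K) : K) := by
        unfold lin
        rw [Finset.mul_sum, ← Finset.sum_sub_distrib]
        refine Finset.sum_congr rfl fun σ _ => ?_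
        ring
      rw [h1, Complex.sub_re, Complex.re_ofReal_mul]
      have h2 := h j
      rw [hA, hB] at h2
      linarith
    have h1 := congrFun h0 σ
    exact sub_eq_zero.1 h1
  obtain ⟨x, hx1, hx2⟩ := dens_vec A B hA0 hB0 hAB
  obtain ⟨n, hn1, hn2⟩ := dens_int A B x hx1 hx2
  refine ⟨∑ j, (n j : 𝓞 K) * RingOfIntegers.basis K j, ?_, ?_⟩
  · rw [dens_cast, dens_sum, Complex.re_sum]
    refine lt_of_lt_of_eq hn1 (Finset.sum_congr rfl fun j _ => ?_)
    rw [hA]
    push_cast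
    rw [← Complex.ofReal_intCast, Complex.re_ofReal_mul]
    ring
  · rw [dens_cast, dens_sum, Complex.re_sum]
    refine lt_of_eq_of_lt (Finset.sum_congr rfl fun j _ => ?_) hn2
    rw [hB]
    push_cast
    rw [← Complex.ofReal_intCast, Complex.re_ofReal_mul]
    ring

end H46.AF
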