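import Pool.Agent.H46.AF.P1a
import Pool.Agent.H46.AF.Dens

/-! # P1B: evaluation of the product along the powers of the tube units

Data: `e, s, h` as in `tubelog` (`κ = 1` in the row case, `κ = -1` in the column case), exponents
`k n ≥ 1`, a bound `B` for `k n * (h n σ - (h n (π i)).re)` on the supports, and for one row
`i0 ≠ i₁` limits `ζ σ` of these numbers, such that the row `c i0 σ exp (ζ σ)` (with `0` at `σ₁`)
vanishes at `μ`.  Claim: the product of the rows at `e n ^ k n * μ` tends to `0`.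

Proof.  Put `E n = e n ^ k n`, so `σ (E n) = exp (k n (h n σ + s n tt σ))`, and
`R n i σ = σ (E n) / ‖(π i) (E n)‖ = exp (k n (h n σ - (h n (π i)).re) + k n s n (tt σ - tt (π i)))`.
* `i ≠ i₁`, `σ ≠ σ₁`: then `π i ≠ σ₁` (as `π i₁ = σ₁`), `tt σ = tt (π i) = κ` and `R n i σ = exp (k n (h n σ - re h n (π i)))`, of norm
  `≤ exp B` if `c i σ ≠ 0`; for `i = i0` it tends to `exp (ζ σ)` if `c i0 σ ≠ 0`.
* `i ≠ i₁`, `σ = σ₁`: column case `c i σ₁ = 0`; row case (`κ = 1`): `‖R n i σ₁‖ =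
  exp (k n (re h n σ₁ - re h n (π i) - s n D)) → 0` because `s n → ∞`, `k n ≥ 1`, `h → 0`, `D ≥ 1`.
* `i = i₁` (`π i₁ = σ₁`): `σ = σ₁`: `‖R n i₁ σ₁‖ = 1`; `σ ≠ σ₁`: row case `c i₁ σ = 0`; column case
  (`κ = -1`) `‖R n i₁ σ‖ = exp (k n (re h n σ - re h n σ₁ - s n D)) ≤ 1` for large `n`.
`lin (c i) (E n * μ) = ‖π i (E n)‖ * ∑ σ, c i σ R n i σ σ μ`; the product over `i` of `‖π i (E n)‖` is
the absolute value of the norm of a unit, `= 1` (`Equiv.prod_comp`, `Algebra.norm_eq_prod_embeddings`,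
`NumberField.isUnit_iff_norm` or `NumberField.Units.norm`).
So the norm of the product is `∏ i ‖∑ σ, c i σ R n i σ σ μ‖`, bounded factors, and the factor of `i0`
tends to `‖∑_{σ ≠ σ₁} c i0 σ exp (ζ σ) σ μ‖ = 0`. -/

set_option autoImplicit false

open scoped NumberField
open NumberField Filter Topology

namespace H46.AF

theorem P1b_unit {K : Type} [Field K] [NumberField K] (u : (𝓞 K)ˣ) :
    ∏ σ : K →+* ℂ, ‖σ ((u : 𝓞 K) : K)‖ = 1 := by
  have hprod : (Algebra.norm ℚ ((u : 𝓞 K) : K) : ℂ) = ∏ σ : K →+* ℂ, σ ((u : 𝓞 K) : K) := by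
    have h := Algebra.norm_eq_prod_embeddings ℚ ℂ ((u : 𝓞 K) : K)
    rw [eq_ratCast] at h
    rw [h]
    exact Fintype.prod_equiv (RingHom.equivRatAlgHom K ℂ).symm _ _ (fun σ => rfl)
  rw [← norm_prod, ← hprod]
  have h1 := (NumberField.isUnit_iff_norm (K := K) (x := (u : 𝓞 K))).1 u.isUnit
  have h2 : |Algebra.norm ℚ ((u : 𝓞 K) : K)| = 1 := by
    rw [RingOfIntegers.coe_norm] at h1
    exact h1
  have h3 : ‖((Algebra.norm ℚ ((u : 𝓞 K) : K) : ℚ) : ℂ)‖ =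
      ((|Algebra.norm ℚ ((u : 𝓞 K) : K)| : ℚ) : ℝ) := by
    rw [show ((Algebra.norm ℚ ((u : 𝓞 K) : K) : ℚ) : ℂ) =
      (((Algebra.norm ℚ ((u : 𝓞 K) : K) : ℚ) : ℝ) : ℂ) by push_cast; rfl, Complex.norm_real,
      Real.norm_eq_abs]
    push_cast
    rfl
  rw [h3, h2]
  norm_num

theorem P1b_prod {ι : Type} [Fintype ι] (S : ℕ → ι → ℂ) (i0 : ι)
    (h0 : Tendsto (fun n => S n i0) atTop (𝓝 0))
    (hb : ∀ i, ∃ M : ℝ, ∀ᶠ n in atTop, ‖S n i‖ ≤ M) :
    Tendsto (fun n => ∏ i, ‖S n i‖) atTop (𝓝 0) := by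
  classical
  choose M hM using hb
  have h1 : ∀ᶠ n in atTop, ∏ i, ‖S n i‖ ≤ ‖S n i0‖ * ∏ i ∈ Finset.univ.erase i0, M i := by
    have h2 : ∀ᶠ n in atTop, ∀ i, ‖S n i‖ ≤ M i := Filter.eventually_all.2 hM
    filter_upwards [h2] with n hn
    rw [← Finset.mul_prod_erase Finset.univ _ (Finset.mem_univ i0)]
    exact mul_le_mul_of_nonneg_left
      (Finset.prod_le_prod (fun _ _ => norm_nonneg _) fun i _ => hn i) (norm_nonneg _)
  have h3 : Tendsto (fun n => ‖S n i0‖ * ∏ i ∈ Finset.univ.erase i0, M i) atTop (𝓝 0) := by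
    have h4 := (tendsto_norm_zero.comp h0).mul_const (∏ i ∈ Finset.univ.erase i0, M i)
    rw [zero_mul] at h4
    exact h4
  exact tendsto_of_tendsto_of_tendsto_of_le_of_le' tendsto_const_nhds h3
    (Filter.Eventually.of_forall fun n => Finset.prod_nonneg fun i _ => norm_nonneg _) h1

theorem P1b_decay (a s : ℕ → ℝ) (k : ℕ → ℕ) (hk : ∀ n, 1 ≤ k n) (D : ℝ) (hD : 1 ≤ D)
    (ha : Tendsto a atTop (𝓝 0)) (hs : Tendsto s atTop atTop) :
    Tendsto (fun n => Real.exp ((k n : ℝ) * (a n - s n * D))) atTop (𝓝 0) := by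
  have h1 : ∀ᶠ n in atTop, a n ≤ 1 := ha.eventually_le_const one_pos
  have h2 : ∀ᶠ n in atTop, 1 ≤ s n := hs.eventually_ge_atTop 1
  have h3 : Tendsto (fun n => Real.exp (1 - s n)) atTop (𝓝 0) := by
    refine Real.tendsto_exp_atBot.comp ?_
    exact tendsto_atBot_add_const_left _ 1 (tendsto_neg_atTop_atBot.comp hs)
  refine tendsto_of_tendsto_of_tendsto_of_le_of_le' tendsto_const_nhds h3
    (Filter.Eventually.of_forall fun n => (Real.exp_pos _).le) ?_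
  filter_upwards [h1, h2] with n hn1 hn2
  apply Real.exp_le_exp.2
  have h4 : a n - s n * D ≤ 1 - s n := by nlinarith
  have h5 : (1 : ℝ) ≤ k n := by exact_mod_cast hk n
  nlinarith

open scoped Classical in
theorem evalp {K : Type} [Field K] [NumberField K] {ι : Type} [Fintype ι]
    (σ₁ : K →+* ℂ) (i₁ : ι) (c : ι → (K →+* ℂ) → ℂ) (π : ι ≃ (K →+* ℂ)) (hπ₁ : π i₁ = σ₁)
    (κ : ℝ) (hcase : (κ = 1 ∧ ∀ σ, σ ≠ σ₁ → c i₁ σ = 0) ∨
      (κ = -1 ∧ ∀ i, i ≠ i₁ → c i σ₁ = 0))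
    (e : ℕ → (𝓞 K)ˣ) (s : ℕ → ℝ) (h : ℕ → (K →+* ℂ) → ℂ)
    (hs : Tendsto s atTop atTop) (hh : ∀ σ, Tendsto (fun n => h n σ) atTop (𝓝 0))
    (he : ∀ n (σ : K →+* ℂ), σ (((e n : (𝓞 K)ˣ) : 𝓞 K) : K) =
        Complex.exp (h n σ + ((s n * tt κ σ₁ σ : ℝ) : ℂ)))
    (k : ℕ → ℕ) (hk : ∀ n, 1 ≤ k n) (B : ℝ)
    (hB : ∀ n i, i ≠ i₁ → ∀ σ, σ ≠ σ₁ → c i σ ≠ 0 →
      ‖(k n : ℂ) * (h n σ - (((h n (π i)).re : ℝ) : ℂ))‖ ≤ B)
    (i0 : ι) (hi0 : i0 ≠ i₁) (ζ : (K →+* ℂ) → ℂ)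
    (hζ : ∀ σ, σ ≠ σ₁ → c i0 σ ≠ 0 →
      Tendsto (fun n => (k n : ℂ) * (h n σ - (((h n (π i0)).re : ℝ) : ℂ))) atTop (𝓝 (ζ σ)))
    (μ : 𝓞 K)
    (hμ : lin (fun σ => if σ = σ₁ then 0 else c i0 σ * Complex.exp (ζ σ)) (μ : K) = 0) :
    Tendsto (fun n => ‖∏ i, lin (c i) ((((e n ^ k n : (𝓞 K)ˣ) : 𝓞 K) * μ : 𝓞 K) : K)‖)
      atTop (𝓝 0) := by
  classical
  set D : ℝ := (Fintype.card (K →+* ℂ) : ℝ) with hDdef
  have hD : 1 ≤ D := by
    have h1 : 1 ≤ Fintype.card (K →+* ℂ) := Fintype.card_pos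
    rw [hDdef]
    exact_mod_cast h1
  have ht1 : tt κ σ₁ σ₁ = -κ * (D - 1) := by
    unfold tt
    rw [if_pos rfl]
  have ht : ∀ σ, σ ≠ σ₁ → tt κ σ₁ σ = κ := by
    intro σ hσ
    unfold tt
    rw [if_neg hσ]
  have hπne : ∀ i, i ≠ i₁ → π i ≠ σ₁ := by
    intro i hi h
    rw [← hπ₁] at h
    exact hi (π.injective h)
  -- the absolute values and the quotients
  set Nn : ℕ → ι → ℝ := fun n i =>
    Real.exp ((k n : ℝ) * ((h n (π i)).re + s n * tt κ σ₁ (π i))) with hNn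
  set R : ℕ → ι → (K →+* ℂ) → ℂ := fun n i σ =>
    Complex.exp ((k n : ℂ) * (h n σ - (((h n (π i)).re : ℝ) : ℂ)) +
      (((k n : ℝ) * (s n * (tt κ σ₁ σ - tt κ σ₁ (π i))) : ℝ) : ℂ)) with hR
  have hE : ∀ n (σ : K →+* ℂ), σ (((e n ^ k n : (𝓞 K)ˣ) : 𝓞 K) : K) =
      Complex.exp ((k n : ℂ) * (h n σ + ((s n * tt κ σ₁ σ : ℝ) : ℂ))) := by
    intro n σ
    rw [Complex.exp_nat_mul, ← he n σ, ← map_pow]
    congr 1
  have hER : ∀ n i (σ : K →+* ℂ), σ (((e n ^ k n : (𝓞 K)ˣ) : 𝓞 K) : K) =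
      (Nn n i : ℂ) * R n i σ := by
    intro n i σ
    rw [hE, hNn, hR]
    simp only
    rw [Complex.ofReal_exp, ← Complex.exp_add]
    congr 1
    push_cast
    ring
  have hNorm : ∀ n i, ‖(π i) (((e n ^ k n : (𝓞 K)ˣ) : 𝓞 K) : K)‖ = Nn n i := by
    intro n i
    rw [hE, Complex.norm_exp]
    congr 1
    simp only [Complex.mul_re, Complex.natCast_re, Complex.natCast_im, Complex.add_re,
      Complex.ofReal_re, zero_mul, sub_zero]
  have hNprod : ∀ n, ∏ i, Nn n i = 1 := by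
    intro n
    rw [← P1b_unit (e n ^ k n), ← Equiv.prod_comp π]
    exact Finset.prod_congr rfl fun i _ => (hNorm n i).symm
  set S : ℕ → ι → ℂ := fun n i => ∑ σ : K →+* ℂ, c i σ * R n i σ * σ (μ : K) with hSdef
  have hlin : ∀ n i, lin (c i) ((((e n ^ k n : (𝓞 K)ˣ) : 𝓞 K) * μ : 𝓞 K) : K) =
      (Nn n i : ℂ) * S n i := by
    intro n i
    unfold lin
    rw [hSdef, Finset.mul_sum]
    refine Finset.sum_congr rfl fun σ _ => ?_
    have e1 : ((((e n ^ k n : (𝓞 K)ˣ) : 𝓞 K) * μ : 𝓞 K) : K) =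
        (((e n ^ k n : (𝓞 K)ˣ) : 𝓞 K) : K) * (μ : K) := map_mul _ _ _
    rw [e1, map_mul, hER n i σ]
    ring
  have hmain : ∀ n, ‖∏ i, lin (c i) ((((e n ^ k n : (𝓞 K)ˣ) : 𝓞 K) * μ : 𝓞 K) : K)‖ =
      ∏ i, ‖S n i‖ := by
    intro n
    simp only [hlin, norm_prod, norm_mul, Finset.prod_mul_distrib]
    have e1 : ∏ i, ‖((Nn n i : ℝ) : ℂ)‖ = 1 := by
      rw [← hNprod n]
      refine Finset.prod_congr rfl fun i _ => ?_
      rw [Complex.norm_real, Real.norm_eq_abs, abs_of_pos (Real.exp_pos _)]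
    rw [e1, one_mul]
  simp only [hmain]
  -- the norms of the quotients
  have hRn : ∀ n i σ, ‖R n i σ‖ = Real.exp ((k n : ℝ) * (((h n σ).re - (h n (π i)).re) +
      s n * (tt κ σ₁ σ - tt κ σ₁ (π i)))) := by
    intro n i σ
    rw [hR]
    simp only
    rw [Complex.norm_exp]
    congr 1
    simp only [Complex.mul_re, Complex.natCast_re, Complex.natCast_im, Complex.add_re,
      Complex.sub_re, Complex.ofReal_re, zero_mul, sub_zero]
    ring
  have hdiff : ∀ σ τ, Tendsto (fun n => (h n σ).re - (h n τ).re) atTop (𝓝 0) := by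
    intro σ τ
    have h1 := (Complex.continuous_re.tendsto _).comp (hh σ)
    have h2 := (Complex.continuous_re.tendsto _).comp (hh τ)
    have h3 := h1.sub h2
    simpa using h3
  have hgood : ∀ n i, i ≠ i₁ → ∀ σ, σ ≠ σ₁ →
      R n i σ = Complex.exp ((k n : ℂ) * (h n σ - (((h n (π i)).re : ℝ) : ℂ))) := by
    intro n i hi σ hσ
    rw [hR]
    simp only
    rw [ht σ hσ, ht _ (hπne i hi), sub_self, mul_zero, mul_zero, Complex.ofReal_zero, add_zero]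
  -- the term of `σ₁` for `i ≠ i₁`
  have hz1 : ∀ i, i ≠ i₁ → Tendsto (fun n => c i σ₁ * R n i σ₁ * σ₁ (μ : K)) atTop (𝓝 0) := by
    intro i hi
    rcases hcase with ⟨hκ, _⟩ | ⟨hκ, hc⟩
    · have e1 : Tendsto (fun n => R n i σ₁) atTop (𝓝 0) := by
        rw [tendsto_zero_iff_norm_tendsto_zero]
        have e2 := P1b_decay _ s k hk D hD (hdiff σ₁ (π i)) hs
        refine e2.congr fun n => ?_
        rw [hRn, ht1, ht _ (hπne i hi), hκ]
        congr 1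
        ring
      have e3 := (e1.const_mul (c i σ₁)).mul_const (σ₁ (μ : K))
      simpa using e3
    · rw [hc i hi]
      simp
  -- the terms of `i₁`
  have hz2 : ∀ σ, σ ≠ σ₁ → Tendsto (fun n => c i₁ σ * R n i₁ σ * σ (μ : K)) atTop (𝓝 0) := by
    intro σ hσ
    rcases hcase with ⟨_, hc⟩ | ⟨hκ, _⟩
    · rw [hc σ hσ]
      simp
    · have e1 : Tendsto (fun n => R n i₁ σ) atTop (𝓝 0) := by
        rw [tendsto_zero_iff_norm_tendsto_zero]
        have e2 := P1b_decay _ s k hk D hD (hdiff σ (π i₁)) hs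
        refine e2.congr fun n => ?_
        rw [hRn, hπ₁, ht1, ht _ hσ, hκ]
        congr 1
        ring
      have e3 := (e1.const_mul (c i₁ σ)).mul_const (σ (μ : K))
      simpa using e3
  have hbz : ∀ (f : ℕ → ℂ), Tendsto f atTop (𝓝 0) → ∃ M : ℝ, ∀ᶠ n in atTop, ‖f n‖ ≤ M := by
    intro f hf
    exact ⟨1, (tendsto_norm_zero.comp hf).eventually_le_const one_pos⟩
  have hbterm : ∀ i σ, ∃ M : ℝ, ∀ᶠ n in atTop, ‖c i σ * R n i σ * σ (μ : K)‖ ≤ M := by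
    intro i σ
    by_cases hi : i = i₁
    · by_cases hσ : σ = σ₁
      · refine ⟨‖c i σ‖ * 1 * ‖σ (μ : K)‖, Filter.Eventually.of_forall fun n => ?_⟩
        rw [norm_mul, norm_mul, hRn, hi, hπ₁, hσ]
        simp
      · rw [hi]
        exact hbz _ (hz2 σ hσ)
    · by_cases hσ : σ = σ₁
      · rw [hσ]
        exact hbz _ (hz1 i hi)
      · by_cases hc0 : c i σ = 0
        · exact ⟨0, Filter.Eventually.of_forall fun n => by rw [hc0]; simp⟩
        · refine ⟨‖c i σ‖ * Real.exp B * ‖σ (μ : K)‖, Filter.Eventually.of_forall fun n => ?_⟩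
          rw [norm_mul, norm_mul, hgood n i hi σ hσ]
          gcongr
          rw [Complex.norm_exp]
          apply Real.exp_le_exp.2
          exact (Complex.re_le_norm _).trans (hB n i hi σ hσ hc0)
  refine P1b_prod S i0 ?_ ?_
  · -- the limit of the factor of `i0`
    have hlim : ∀ σ : K →+* ℂ, Tendsto (fun n => c i0 σ * R n i0 σ * σ (μ : K)) atTop
        (𝓝 ((if σ = σ₁ then 0 else c i0 σ * Complex.exp (ζ σ)) * σ (μ : K))) := by
      intro σ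
      by_cases hσ : σ = σ₁
      · rw [if_pos hσ, zero_mul, hσ]
        exact hz1 i0 hi0
      · rw [if_neg hσ]
        by_cases hc0 : c i0 σ = 0
        · rw [hc0]
          simp
        · have e1 : Tendsto (fun n => R n i0 σ) atTop (𝓝 (Complex.exp (ζ σ))) := by
            refine Tendsto.congr (fun n => (hgood n i0 hi0 σ hσ).symm) ?_
            exact (Complex.continuous_exp.tendsto _).comp (hζ σ hσ hc0)
          exact (e1.const_mul (c i0 σ)).mul_const (σ (μ : K))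
    have h1 := tendsto_finsetSum Finset.univ fun σ _ => hlim σ
    unfold lin at hμ
    rw [hμ] at h1
    exact h1
  · intro i
    choose M hM using hbterm i
    refine ⟨∑ σ, M σ, ?_⟩
    have h2 : ∀ᶠ n in atTop, ∀ σ, ‖c i σ * R n i σ * σ (μ : K)‖ ≤ M σ := Filter.eventually_all.2 hM
    filter_upwards [h2] with n hn
    exact (norm_sum_le _ _).trans (Finset.sum_le_sum fun σ _ => hn σ)

end H46.AF
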