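import Pool.Agent.H46.AF.Units2
import Pool.Agent.H46.AF.Dens
import Pool.Agent.H46.AF.P1b

/-! # P2COL: the remaining entries vanish (column case)

`K` is totally real of degree at least `3`.  All rows are real functions (`hreal` and `Sym`).

`part2row` (row case): `c i₁` is supported at `σ₁`, and for `i ≠ i₁` the row `c i` is supported at
`σ₁` and `π i`.  Claim `c i σ₁ = 0` for `i ≠ i₁`.  Proof.  Let `i₂ ≠ i₁` with `w = c i₂ σ₁ ≠ 0`,
`σ₂ = π i₂ ≠ σ₁`, `v = c i₂ σ₂ ≠ 0`; `w, v` are real.  By `dens` (rows supported at one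
embedding; for real numbers: choose the signs) there is an algebraic integer `μ` with
`w σ₁ μ > 0 > v σ₂ μ`.  Put `b = - v σ₂ μ / (w σ₁ μ) > 0` and take `u n` from `units2` for `σ₁, σ₂, b`.
For the unit `u = u n`: `lin (c i₁) (u μ) = c i₁ σ₁ σ₁ (u μ)`,
`lin (c i₂) (u μ) = σ₂ u * (v σ₂ μ + w σ₁ μ (σ₁ u / σ₂ u))` where the bracket tends to
`v σ₂ μ + w σ₁ μ b = 0`, and for the other `i`:
`lin (c i) (u μ) = π i u * (c i (π i) (π i) μ + c i σ₁ σ₁ μ (σ₁ u / π i u))` where the bracket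
tends to `c i (π i) (π i) μ` (`units2`: `π i` is neither `σ₁` nor `σ₂`).  The product of all
`π i u` is the norm of a unit, of absolute value `1`.  So the product tends to `0` at the nonzero
algebraic integers `u n * μ`: contradiction to `Low`.

`part2col` (column case): for `i ≠ i₁` the row `c i` is supported at `π i` only; claim: `c i₁ σ = 0` for
`σ ≠ σ₁`.  Proof.  Let `σ₂ ≠ σ₁`, `w = c i₁ σ₂ ≠ 0`, `v = c i₁ σ₁ ≠ 0`, `μ` with `v σ₁ μ > 0 > w σ₂ μ`,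
`b` with `v σ₁ μ + w σ₂ μ b = 0`; take `u n` from `units2` for `σ₁, σ₂, b` and use the inverse units
`U n = (u n)⁻¹`: `σ₂ U / σ₁ U = σ₁ u / σ₂ u → b`, `σ U / σ₁ U → 0` for the other `σ`.  So
`lin (c i₁) (U μ) / σ₁ U → v σ₁ μ + w σ₂ μ b = 0`, the other rows are `c i (π i) (π i) (U μ)`, and the
product tends to `0` as before. -/

set_option autoImplicit false

open scoped NumberField
open NumberField Filter Topology

namespace H46.AF

open scoped Classical in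
theorem p2c_single {K : Type} [Field K] [NumberField K] (σ₀ : K →+* ℂ) (v : ℂ) (μ : K) :
    lin (Pi.single (M := fun _ => ℂ) σ₀ v) μ = v * σ₀ μ := by
  classical
  unfold lin
  rw [Finset.sum_eq_single σ₀]
  · rw [Pi.single_eq_same]
  · intro σ _ hσ
    rw [Pi.single_eq_of_ne hσ, zero_mul]
  · intro h
    exact absurd (Finset.mem_univ _) h

open scoped Classical in
theorem p2c_sym {K : Type} [Field K] [NumberField K]
    (hreal : ∀ σ : K →+* ℂ, ComplexEmbedding.conjugate σ = σ) (σ₀ : K →+* ℂ) (v : ℂ)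
    (hv : (starRingEnd ℂ) v = v) : Sym (Pi.single (M := fun _ => ℂ) σ₀ v) := by
  classical
  intro σ
  rw [hreal]
  by_cases h : σ = σ₀
  · rw [h, Pi.single_eq_same, hv]
  · rw [Pi.single_eq_of_ne h, map_zero]

theorem part2col {K : Type} [Field K] [NumberField K] (hd : 3 ≤ Module.finrank ℚ K)
    (hreal : ∀ σ : K →+* ℂ, ComplexEmbedding.conjugate σ = σ) {ι : Type} [Fintype ι]
    (σ₁ : K →+* ℂ) (i₁ : ι)
    (c : ι → (K →+* ℂ) → ℂ) (hc : ∀ i, Sym (c i)) (π : ι ≃ (K →+* ℂ))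
    (hπ : ∀ i, c i (π i) ≠ 0) (hπ₁ : π i₁ = σ₁)
    (hcol : ∀ i, i ≠ i₁ → c i σ₁ = 0)
    (hoff : ∀ i, i ≠ i₁ → ∀ σ, σ ≠ σ₁ → c i σ ≠ 0 → σ = π i)
    (ν : ℝ) (hν : 0 < ν) (hP : Low c ν) :
    ∀ σ, σ ≠ σ₁ → c i₁ σ = 0 := by
  classical
  intro σ₂ hσ₂
  by_contra hw
  have hv : c i₁ σ₁ ≠ 0 := by
    have h1 := hπ i₁
    rwa [hπ₁] at h1
  have hcr : ∀ σ, (starRingEnd ℂ) (c i₁ σ) = c i₁ σ := by
    intro σ
    have h1 := hc i₁ σ
    rw [hreal] at h1
    exact h1.symm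
  obtain ⟨μ, hμ1, hμ2⟩ := dens (Pi.single (M := fun _ => ℂ) σ₁ (c i₁ σ₁))
    (Pi.single (M := fun _ => ℂ) σ₂ (c i₁ σ₂)) (p2c_sym hreal _ _ (hcr σ₁))
    (p2c_sym hreal _ _ (hcr σ₂))
    (by
      intro h
      have h1 := congrFun h σ₁
      rw [Pi.single_eq_same] at h1
      exact hv h1)
    (by
      intro h
      have h1 := congrFun h σ₂
      rw [Pi.single_eq_same] at h1
      exact hw h1)
    (by
      rintro ⟨r, hr, h⟩
      have h1 := h σ₁
      rw [Pi.single_eq_same, Pi.single_eq_of_ne (Ne.symm hσ₂)] at h1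
      have h2 : (r : ℂ) ≠ 0 := Complex.ofReal_ne_zero.2 hr.ne'
      exact (mul_ne_zero h2 hv) h1.symm)
  rw [p2c_single] at hμ1 hμ2
  obtain ⟨A, hA⟩ : ∃ A : ℝ, A = (c i₁ σ₁ * σ₁ (μ : K)).re := ⟨_, rfl⟩
  obtain ⟨B, hB⟩ : ∃ B : ℝ, B = (c i₁ σ₂ * σ₂ (μ : K)).re := ⟨_, rfl⟩
  rw [← hA] at hμ1
  rw [← hB] at hμ2
  have hre : ∀ σ, (((c i₁ σ * σ (μ : K)).re : ℝ) : ℂ) = c i₁ σ * σ (μ : K) := by
    intro σ
    apply Complex.conj_eq_iff_re.1
    have h3 : (starRingEnd ℂ) (σ (μ : K)) = σ (μ : K) := by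
      have h2 := DFunLike.congr_fun (hreal σ) (μ : K)
      rwa [ComplexEmbedding.conjugate_coe_eq] at h2
    rw [map_mul, hcr, h3]
  obtain ⟨b, hb⟩ : ∃ b : ℝ, b = A / (-B) := ⟨_, rfl⟩
  have hb0 : 0 < b := by
    rw [hb]
    exact div_pos hμ1 (by linarith)
  have hAB : A + B * b = 0 := by
    rw [hb]
    have hB0 : B ≠ 0 := hμ2.ne
    field_simp
    ring
  obtain ⟨u, hu1, hu2, hu3⟩ := units2 hd hreal (Ne.symm hσ₂) b hb0
  have hval : ∀ n (σ : K →+* ℂ), σ (((u n : (𝓞 K)ˣ) : 𝓞 K) : K) = ((u2v σ (u n) : ℝ) : ℂ) := by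
    intro n σ
    unfold u2v
    rw [u2_real hreal]
  have hpos : ∀ n (σ : K →+* ℂ), 0 < u2v σ (u n) := hu1
  have hval' : ∀ n (σ : K →+* ℂ), σ ((((u n)⁻¹ : (𝓞 K)ˣ) : 𝓞 K) : K) =
      (((u2v σ (u n))⁻¹ : ℝ) : ℂ) := by
    intro n σ
    have h1 := tube_inv σ (u n)
    rw [hval] at h1
    rw [Complex.ofReal_inv]
    exact eq_inv_of_mul_eq_one_right h1
  obtain ⟨S, hS⟩ : ∃ S : ℕ → ι → ℂ, ∀ n i, S n i =
      ∑ σ, c i σ * σ (μ : K) * ((u2v (π i) (u n) / u2v σ (u n) : ℝ) : ℂ) := ⟨_, fun _ _ => rfl⟩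
  have hlin : ∀ n i, lin (c i) (((((u n)⁻¹ : (𝓞 K)ˣ) : 𝓞 K) * μ : 𝓞 K) : K) =
      S n i * (π i) ((((u n)⁻¹ : (𝓞 K)ˣ) : 𝓞 K) : K) := by
    intro n i
    rw [hS, Finset.sum_mul]
    unfold lin
    apply Finset.sum_congr rfl
    intro σ _
    have h0 : (((((u n)⁻¹ : (𝓞 K)ˣ) : 𝓞 K) * μ : 𝓞 K) : K) =
        ((((u n)⁻¹ : (𝓞 K)ˣ) : 𝓞 K) : K) * (μ : K) := by
      rw [RingOfIntegers.coe_eq_algebraMap, map_mul]
    rw [h0, map_mul, hval', hval', Complex.ofReal_div, Complex.ofReal_inv, Complex.ofReal_inv]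
    have h1 : ((u2v σ (u n) : ℝ) : ℂ) ≠ 0 := Complex.ofReal_ne_zero.2 (hpos n σ).ne'
    have h2 : ((u2v (π i) (u n) : ℝ) : ℂ) ≠ 0 := Complex.ofReal_ne_zero.2 (hpos n (π i)).ne'
    field_simp
  have hge : ∀ n, ν ≤ ∏ i, ‖S n i‖ := by
    intro n
    have hμ0 : μ ≠ 0 := by
      intro h
      rw [hA, h] at hμ1
      simp at hμ1
    have h1 : ((((u n)⁻¹ : (𝓞 K)ˣ) : 𝓞 K) * μ : 𝓞 K) ≠ 0 := mul_ne_zero (Units.ne_zero _) hμ0
    have h2 := hP _ h1
    rw [Finset.prod_congr rfl (fun i _ => hlin n i), norm_prod] at h2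
    have h3 : ∏ i, ‖S n i * (π i) ((((u n)⁻¹ : (𝓞 K)ˣ) : 𝓞 K) : K)‖ = ∏ i, ‖S n i‖ := by
      have h4 : ∀ i, ‖S n i * (π i) ((((u n)⁻¹ : (𝓞 K)ˣ) : 𝓞 K) : K)‖ =
          ‖S n i‖ * ‖(π i) ((((u n)⁻¹ : (𝓞 K)ˣ) : 𝓞 K) : K)‖ := fun i => norm_mul _ _
      rw [Finset.prod_congr rfl (fun i _ => h4 i), Finset.prod_mul_distrib]
      have h5 : ∏ i, ‖(π i) ((((u n)⁻¹ : (𝓞 K)ˣ) : 𝓞 K) : K)‖ = 1 := by
        rw [Equiv.prod_comp π (fun σ : K →+* ℂ => ‖σ ((((u n)⁻¹ : (𝓞 K)ˣ) : 𝓞 K) : K)‖)]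
        exact P1b_unit _
      rw [h5, mul_one]
    rwa [h3] at h2
  -- the limit of the row `i₁`
  have hlim : Tendsto (fun n => S n i₁) atTop (𝓝 0) := by
    obtain ⟨L, hL⟩ : ∃ L : (K →+* ℂ) → ℝ, ∀ σ, L σ = if σ = σ₁ then 1 else if σ = σ₂ then b else 0 :=
      ⟨_, fun _ => rfl⟩
    have h1 : ∀ σ, Tendsto (fun n => u2v σ₁ (u n) / u2v σ (u n)) atTop (𝓝 (L σ)) := by
      intro σ
      rw [hL]
      by_cases h : σ = σ₁
      · rw [if_pos h, h]
        refine tendsto_const_nhds.congr fun n => ?_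
        rw [div_self (hpos n σ₁).ne']
      · rw [if_neg h]
        by_cases h' : σ = σ₂
        · rw [if_pos h', h']
          exact hu2
        · rw [if_neg h']
          have h2 := (hu3 σ h h').inv_tendsto_atTop
          refine h2.congr fun n => ?_
          rw [Pi.inv_apply, inv_div]
          rfl
    have h2 : Tendsto (fun n => S n i₁) atTop (𝓝 (∑ σ, c i₁ σ * σ (μ : K) * ((L σ : ℝ) : ℂ))) := by
      have h3 : (fun n => S n i₁) = fun n => ∑ σ, c i₁ σ * σ (μ : K) *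
          ((u2v σ₁ (u n) / u2v σ (u n) : ℝ) : ℂ) := by
        funext n
        rw [hS, hπ₁]
      rw [h3]
      refine tendsto_finsetSum _ fun σ _ => ?_
      exact tendsto_const_nhds.mul ((Complex.continuous_ofReal.tendsto _).comp (h1 σ))
    have h3 : ∑ σ, c i₁ σ * σ (μ : K) * ((L σ : ℝ) : ℂ) = 0 := by
      have h4 : ∀ σ, c i₁ σ * σ (μ : K) * ((L σ : ℝ) : ℂ) =
          (if σ = σ₁ then ((A : ℝ) : ℂ) else 0) + (if σ = σ₂ then ((B * b : ℝ) : ℂ) else 0) := by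
        intro σ
        rw [hL]
        by_cases h : σ = σ₁
        · have h' : σ₁ ≠ σ₂ := Ne.symm hσ₂
          rw [if_pos h, if_pos h, h, if_neg h', add_zero, Complex.ofReal_one, mul_one, hA, hre]
        · rw [if_neg h, if_neg h, zero_add]
          by_cases h' : σ = σ₂
          · rw [if_pos h', if_pos h', h', Complex.ofReal_mul, hB, hre]
          · rw [if_neg h', if_neg h', Complex.ofReal_zero, mul_zero]
      rw [Finset.sum_congr rfl (fun σ _ => h4 σ), Finset.sum_add_distrib,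
        Finset.sum_ite_eq' Finset.univ σ₁, Finset.sum_ite_eq' Finset.univ σ₂,
        if_pos (Finset.mem_univ _), if_pos (Finset.mem_univ _), ← Complex.ofReal_add, hAB,
        Complex.ofReal_zero]
    rw [h3] at h2
    exact h2
  have hbd : ∀ i, ∃ M : ℝ, ∀ᶠ n in atTop, ‖S n i‖ ≤ M := by
    intro i
    by_cases hi : i = i₁
    · rw [hi]
      exact ⟨1, (tendsto_norm_zero.comp hlim).eventually_le_const one_pos⟩
    · refine ⟨‖c i (π i) * (π i) (μ : K)‖, Filter.Eventually.of_forall fun n => ?_⟩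
      have h1 : S n i = c i (π i) * (π i) (μ : K) := by
        rw [hS, Finset.sum_eq_single (π i)]
        · rw [div_self (hpos n (π i)).ne', Complex.ofReal_one, mul_one]
        · intro σ _ hσ
          have h0 : c i σ = 0 := by
            by_cases h : σ = σ₁
            · rw [h]
              exact hcol i hi
            · by_contra h'
              exact hσ (hoff i hi σ h h')
          rw [h0, zero_mul, zero_mul]
        · intro h
          exact absurd (Finset.mem_univ _) h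
      rw [h1]
  have hfin := P1b_prod S i₁ hlim hbd
  have h6 : ν ≤ 0 := ge_of_tendsto hfin (Filter.Eventually.of_forall hge)
  linarith

end H46.AF
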