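import Pool.Agent.H46.AF.Units2
import Pool.Agent.H46.AF.Dens
import Pool.Agent.H46.AF.P1b

/-! # P2ROW: the remaining entries vanish (row case)

`K` is totally real of degree at least `3`.  All rows are real functions (`hreal` and `Sym`).

`part2row` (row case): `c i₁` is supported at `σ₁`, and for `i ≠ i₁` the row `c i` is supported at
`σ₁` and `π i`.  Claim `c i σ₁ = 0` for `i ≠ i₁`.  Proof.  Let `i₂ ≠ i₁` with `w = c i₂ σ₁ ≠ 0`,
`σ₂ = π i₂ ≠ σ₁`, `v = c i₂ σ₂ ≠ 0`; `w, v` are real.  By `dens` (rows supported at one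
embedding; for real numbers: choose the signs) there is an algebraic integer `μ` with
`w σ₁ μ > 0 > v σ₂ μ`.  Put `b = - v σ₂ μ / (w σ₁ μ) > 0` and take `u n` from `units2` for `σ₁, σ₂, b`.
For the unit `u = u n`: `lin (c i₁) (u μ) = c i₁ σ₁ σ₁ (u μ)`,
`lin (c i₂) (u μ) = σ₂ u * (v σ₂ μ + w σ₁ μ (σ₁ u / σ₂ u))` where the bracket tends to
`v σ₂ μ + w σ₁ μ b = 0`, and for the other `i`:
`lin (c i) (u μ) = π i u * (c i (π i) (π i) μ + c i σ₁ σ₁ μ (σ₁ u / π i u))` where the bracket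
tends to `c i (π i) (π i) μ` (`units2`: `π i` is neither `σ₁` nor `σ₂`).  The product of all
`π i u` is the norm of a unit, of absolute value `1`.  So the product tends to `0` at the nonzero
algebraic integers `u n * μ`: contradiction to `Low`. -/

set_option autoImplicit false

open scoped NumberField
open NumberField Filter Topology

namespace H46.AF

theorem part2row {K : Type} [Field K] [NumberField K] (hd : 3 ≤ Module.finrank ℚ K)
    (hreal : ∀ σ : K →+* ℂ, ComplexEmbedding.conjugate σ = σ) {ι : Type} [Fintype ι]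
    (σ₁ : K →+* ℂ) (i₁ : ι)
    (c : ι → (K →+* ℂ) → ℂ) (hc : ∀ i, Sym (c i)) (π : ι ≃ (K →+* ℂ))
    (hπ : ∀ i, c i (π i) ≠ 0) (hπ₁ : π i₁ = σ₁)
    (hrow : ∀ σ, σ ≠ σ₁ → c i₁ σ = 0)
    (hoff : ∀ i, i ≠ i₁ → ∀ σ, σ ≠ σ₁ → c i σ ≠ 0 → σ = π i)
    (ν : ℝ) (hν : 0 < ν) (hP : Low c ν) :
    ∀ i, i ≠ i₁ → c i σ₁ = 0 := by
  classical
  by_contra hcon
  push Not at hcon
  obtain ⟨i₂, hi₂, hw⟩ := hcon
  have hπne : ∀ i, i ≠ i₁ → π i ≠ σ₁ := by
    intro i hi h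
    rw [← hπ₁] at h
    exact hi (π.injective h)
  have hσ₂ : σ₁ ≠ π i₂ := (hπne i₂ hi₂).symm
  have him : ∀ (σ : K →+* ℂ) (x : K), ((σ x).re : ℂ) = σ x := by
    intro σ x
    rw [← Complex.conj_eq_iff_re, ← ComplexEmbedding.conjugate_coe_eq, hreal σ]
  have hcr : ∀ i σ, (starRingEnd ℂ) (c i σ) = c i σ := by
    intro i σ
    rw [← hc i σ, hreal σ]
  -- the algebraic integer
  obtain ⟨μ, hμ1, hμ2⟩ := dens (K := K) (fun σ => if σ = σ₁ then c i₂ σ₁ else 0)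
    (fun σ => if σ = π i₂ then c i₂ (π i₂) else 0)
    (by
      intro σ
      simp only [hreal σ]
      split_ifs
      · exact (hcr _ _).symm
      · rw [map_zero])
    (by
      intro σ
      simp only [hreal σ]
      split_ifs
      · exact (hcr _ _).symm
      · rw [map_zero])
    (by
      intro h0
      have h1 := congrFun h0 σ₁
      simp only [if_true, Pi.zero_apply] at h1
      exact hw h1)
    (by
      intro h0
      have h1 := congrFun h0 (π i₂)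
      simp only [if_true, Pi.zero_apply] at h1
      exact hπ i₂ h1)
    (by
      rintro ⟨r, _, hr2⟩
      have h1 := hr2 (π i₂)
      simp only [if_true] at h1
      rw [if_neg hσ₂.symm, mul_zero] at h1
      exact hπ i₂ h1)
  have hl1 : lin (fun σ => if σ = σ₁ then c i₂ σ₁ else 0) (μ : K) = c i₂ σ₁ * σ₁ (μ : K) := by
    unfold lin
    rw [Finset.sum_eq_single σ₁]
    · simp only [if_true]
    · intro σ _ hσ
      simp only [if_neg hσ, zero_mul]
    · intro h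
      exact absurd (Finset.mem_univ _) h
  have hl2 : lin (fun σ => if σ = π i₂ then c i₂ (π i₂) else 0) (μ : K) =
      c i₂ (π i₂) * (π i₂) (μ : K) := by
    unfold lin
    rw [Finset.sum_eq_single (π i₂)]
    · simp only [if_true]
    · intro σ _ hσ
      simp only [if_neg hσ, zero_mul]
    · intro h
      exact absurd (Finset.mem_univ _) h
  rw [hl1] at hμ1
  rw [hl2] at hμ2
  have hre : ∀ i (σ : K →+* ℂ) (x : K), (((c i σ * σ x).re : ℝ) : ℂ) = c i σ * σ x := by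
    intro i σ x
    rw [← Complex.conj_eq_iff_re, map_mul, hcr, ← ComplexEmbedding.conjugate_coe_eq, hreal σ]
  set A : ℝ := (c i₂ σ₁ * σ₁ (μ : K)).re with hA
  set B : ℝ := (c i₂ (π i₂) * (π i₂) (μ : K)).re with hB
  have hb : 0 < -B / A := div_pos (by linarith) hμ1
  have hμ0 : μ ≠ 0 := by
    intro h0
    rw [hA, h0] at hμ1
    simp at hμ1
  obtain ⟨u, hu1, hu2, hu3⟩ := units2 hd hreal hσ₂ (-B / A) hb
  have hune : ∀ n (σ : K →+* ℂ), σ (((u n : (𝓞 K)ˣ) : 𝓞 K) : K) ≠ 0 := by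
    intro n σ h0
    have h1 := hu1 n σ
    rw [h0] at h1
    simp at h1
  set S : ℕ → ι → ℂ := fun n i => ∑ σ : K →+* ℂ, c i σ *
    (σ (((u n : (𝓞 K)ˣ) : 𝓞 K) : K) / (π i) (((u n : (𝓞 K)ˣ) : 𝓞 K) : K)) * σ (μ : K) with hSdef
  have hlin : ∀ n i, lin (c i) ((((u n : (𝓞 K)ˣ) : 𝓞 K) * μ : 𝓞 K) : K) =
      (π i) (((u n : (𝓞 K)ˣ) : 𝓞 K) : K) * S n i := by
    intro n i
    unfold lin
    rw [hSdef, Finset.mul_sum]
    refine Finset.sum_congr rfl fun σ _ => ?_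
    have e1 : ((((u n : (𝓞 K)ˣ) : 𝓞 K) * μ : 𝓞 K) : K) =
        (((u n : (𝓞 K)ˣ) : 𝓞 K) : K) * (μ : K) := map_mul _ _ _
    rw [e1, map_mul]
    have e2 := hune n (π i)
    field_simp
  have hmain : ∀ n, ‖∏ i, lin (c i) ((((u n : (𝓞 K)ˣ) : 𝓞 K) * μ : 𝓞 K) : K)‖ =
      ∏ i, ‖S n i‖ := by
    intro n
    simp only [hlin, norm_prod, norm_mul, Finset.prod_mul_distrib]
    have e1 : ∏ i, ‖(π i) (((u n : (𝓞 K)ˣ) : 𝓞 K) : K)‖ = 1 := by
      rw [← P1b_unit (u n), ← Equiv.prod_comp π]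
    rw [e1, one_mul]
  -- quotients
  have hq : ∀ n (σ τ : K →+* ℂ), σ (((u n : (𝓞 K)ˣ) : 𝓞 K) : K) /
      τ (((u n : (𝓞 K)ˣ) : 𝓞 K) : K) = (((σ (((u n : (𝓞 K)ˣ) : 𝓞 K) : K)).re /
        (τ (((u n : (𝓞 K)ˣ) : 𝓞 K) : K)).re : ℝ) : ℂ) := by
    intro n σ τ
    rw [Complex.ofReal_div, him, him]
  have hlim2 : Tendsto (fun n => σ₁ (((u n : (𝓞 K)ˣ) : 𝓞 K) : K) /
      (π i₂) (((u n : (𝓞 K)ˣ) : 𝓞 K) : K)) atTop (𝓝 (((-B / A : ℝ)) : ℂ)) := by
    simp only [hq]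
    exact (Complex.continuous_ofReal.tendsto _).comp hu2
  have hlim0 : ∀ i, i ≠ i₁ → i ≠ i₂ → Tendsto (fun n => σ₁ (((u n : (𝓞 K)ˣ) : 𝓞 K) : K) /
      (π i) (((u n : (𝓞 K)ˣ) : 𝓞 K) : K)) atTop (𝓝 0) := by
    intro i hi hi'
    simp only [hq]
    have h1 := hu3 (π i) (hπne i hi) (fun h => hi' (π.injective h))
    have h2 := tendsto_inv_atTop_zero.comp h1
    have h3 : Tendsto (fun n => (σ₁ (((u n : (𝓞 K)ˣ) : 𝓞 K) : K)).re /
        ((π i) (((u n : (𝓞 K)ˣ) : 𝓞 K) : K)).re) atTop (𝓝 0) := by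
      refine h2.congr fun n => ?_
      simp only [Function.comp, inv_div]
    have h4 := (Complex.continuous_ofReal.tendsto _).comp h3
    rw [Complex.ofReal_zero] at h4
    exact h4
  have hterm : ∀ i σ, ∃ L : ℂ, Tendsto (fun n => c i σ *
      (σ (((u n : (𝓞 K)ˣ) : 𝓞 K) : K) / (π i) (((u n : (𝓞 K)ˣ) : 𝓞 K) : K)) * σ (μ : K))
      atTop (𝓝 L) := by
    intro i σ
    by_cases h1 : σ = π i
    · refine ⟨c i σ * 1 * σ (μ : K), Tendsto.congr (fun n => ?_) tendsto_const_nhds⟩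
      rw [← h1, div_self (hune n σ)]
    · by_cases h2 : c i σ = 0
      · refine ⟨0, Tendsto.congr (fun n => ?_) tendsto_const_nhds⟩
        rw [h2, zero_mul, zero_mul]
      · have hi : i ≠ i₁ := by
          rintro rfl
          rw [hπ₁] at h1
          exact h2 (hrow σ h1)
        have hσ : σ = σ₁ := by
          by_contra h3
          exact h1 (hoff i hi σ h3 h2)
        rw [hσ]
        by_cases h4 : i = i₂
        · rw [h4]
          exact ⟨_, (hlim2.const_mul (c i₂ σ₁)).mul_const (σ₁ (μ : K))⟩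
        · exact ⟨_, ((hlim0 i hi h4).const_mul (c i σ₁)).mul_const (σ₁ (μ : K))⟩
  have hS2 : Tendsto (fun n => S n i₂) atTop (𝓝 0) := by
    have h1 : ∀ n, S n i₂ = c i₂ (π i₂) * (π i₂) (μ : K) +
        c i₂ σ₁ * (σ₁ (((u n : (𝓞 K)ˣ) : 𝓞 K) : K) /
          (π i₂) (((u n : (𝓞 K)ˣ) : 𝓞 K) : K)) * σ₁ (μ : K) := by
      intro n
      rw [hSdef]
      simp only
      rw [← Finset.add_sum_erase Finset.univ _ (Finset.mem_univ (π i₂)),
        ← Finset.add_sum_erase (Finset.univ.erase (π i₂)) _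
          (Finset.mem_erase.2 ⟨hσ₂, Finset.mem_univ σ₁⟩), div_self (hune n (π i₂)), mul_one]
      rw [Finset.sum_eq_zero, add_zero]
      intro σ hσ
      rw [Finset.mem_erase, Finset.mem_erase] at hσ
      have h2 : c i₂ σ = 0 := by
        by_contra h3
        exact hσ.2.1 (hoff i₂ hi₂ σ hσ.1 h3)
      rw [h2, zero_mul, zero_mul]
    have h2 := (hlim2.const_mul (c i₂ σ₁)).mul_const (σ₁ (μ : K))
    have h3 := h2.const_add (c i₂ (π i₂) * (π i₂) (μ : K))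
    have h4 : c i₂ (π i₂) * (π i₂) (μ : K) + c i₂ σ₁ * ((-B / A : ℝ) : ℂ) * σ₁ (μ : K) = 0 := by
      have h5 : c i₂ σ₁ * ((-B / A : ℝ) : ℂ) * σ₁ (μ : K) =
          (c i₂ σ₁ * σ₁ (μ : K)) * ((-B / A : ℝ) : ℂ) := by ring
      rw [h5, ← hre i₂ σ₁ (μ : K), ← hre i₂ (π i₂) (μ : K), ← hA, ← hB, ← Complex.ofReal_mul,
        ← Complex.ofReal_add]
      have h6 : B + A * (-B / A) = 0 := by
        field_simp
        ring
      rw [h6, Complex.ofReal_zero]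
    rw [h4] at h3
    exact h3.congr fun n => (h1 n).symm
  have hfin := P1b_prod S i₂ hS2 (by
    intro i
    choose L hL using hterm i
    have h1 := tendsto_finsetSum Finset.univ fun σ _ => hL σ
    have h2 : Tendsto (fun n => ‖S n i‖) atTop (𝓝 ‖∑ σ, L σ‖) := h1.norm
    exact ⟨‖∑ σ, L σ‖ + 1, h2.eventually_le_const (by linarith)⟩)
  have hlt : ∀ᶠ n in atTop, ∏ i, ‖S n i‖ < ν := hfin.eventually_lt_const hν
  obtain ⟨n, hn⟩ := hlt.exists
  have hne : (((u n : (𝓞 K)ˣ) : 𝓞 K) * μ : 𝓞 K) ≠ 0 := mul_ne_zero (Units.ne_zero _) hμ0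
  have h1 := hP _ hne
  rw [hmain n] at h1
  exact absurd h1 (not_le.2 hn)

end H46.AF
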