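import Pool.Agent.H46.AF.Part1
import Pool.Agent.H46.AF.P2r
import Pool.Agent.H46.AF.P2c

/-! # MONO: one algebraic row (or column) forces a monomial matrix -/

set_option autoImplicit false

open scoped NumberField
open NumberField Filter Topology

namespace H46.AF

theorem mono {K : Type} [Field K] [NumberField K] (hd : 3 ≤ Module.finrank ℚ K)
    {ι : Type} [Fintype ι] (σ₁ : K →+* ℂ) (hσ₁ : ComplexEmbedding.conjugate σ₁ = σ₁) (i₁ : ι)
    (c : ι → (K →+* ℂ) → ℂ) (hc : ∀ i, Sym (c i)) (π : ι ≃ (K →+* ℂ))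
    (hπ : ∀ i, c i (π i) ≠ 0)
    (hcase : (∀ σ, σ ≠ σ₁ → c i₁ σ = 0) ∨ (∀ i, i ≠ i₁ → c i σ₁ = 0))
    (ν : ℝ) (hν : 0 < ν) (hP : Low c ν) :
    (∀ σ : K →+* ℂ, ComplexEmbedding.conjugate σ = σ) ∧
      ∀ i σ, σ ≠ π i → c i σ = 0 := by
  classical
  have hπ₁ : π i₁ = σ₁ := by
    rcases hcase with h | h
    · by_contra hne
      exact hπ i₁ (h _ hne)
    · obtain ⟨i, hi⟩ := π.surjective σ₁
      by_contra hne
      have hi1 : i ≠ i₁ := by
        rintro rfl
        exact hne hi
      have := h i hi1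
      rw [← hi] at this
      exact hπ i this
  have hoff := part1 σ₁ hσ₁ i₁ c hc π hπ hπ₁ hcase ν hν hP
  have hreal : ∀ σ : K →+* ℂ, ComplexEmbedding.conjugate σ = σ := by
    intro σ
    obtain ⟨i, rfl⟩ := π.surjective σ
    by_cases hi : i = i₁
    · rw [hi, hπ₁, hσ₁]
    · refine hoff i hi _ ?_ ?_
      · intro h
        have h2 : ComplexEmbedding.conjugate (ComplexEmbedding.conjugate (π i)) =
            ComplexEmbedding.conjugate σ₁ := by rw [h]
        rw [hσ₁] at h2
        have h3 : ComplexEmbedding.conjugate (ComplexEmbedding.conjugate (π i)) = π i := by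
          ext x
          simp
        rw [h3] at h2
        exact hi (π.injective (h2.trans hπ₁.symm))
      · rw [hc i]
        exact (map_ne_zero _).2 (hπ i)
  refine ⟨hreal, ?_⟩
  rcases hcase with h | h
  · have h2 := part2row hd hreal σ₁ i₁ c hc π hπ hπ₁ h hoff ν hν hP
    intro i σ hσ
    by_cases hi : i = i₁
    · subst hi
      exact h σ (by rwa [hπ₁] at hσ)
    · by_cases hs : σ = σ₁
      · rw [hs]; exact h2 i hi
      · by_contra hne
        exact hσ (hoff i hi σ hs hne)
  · have h2 := part2col hd hreal σ₁ i₁ c hc π hπ hπ₁ h hoff ν hν hP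
    intro i σ hσ
    by_cases hi : i = i₁
    · subst hi
      exact h2 σ (by rwa [hπ₁] at hσ)
    · by_cases hs : σ = σ₁
      · rw [hs]; exact h i hi
      · by_contra hne
        exact hσ (hoff i hi σ hs hne)

end H46.AF
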