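import Pool.Agent.H46.AF.Defs

/-! # SUB: an element on which two embeddings agree

Statement: if `σ ≠ τ` are embeddings with `σ z = τ z`, then for every embedding `ρ` there is
`ρ' ≠ ρ` with `ρ' z = ρ z`.

Proof.  Let `F = ℚ(z)` (`IntermediateField.adjoin ℚ {z}`).  `σ` and `τ` agree on `F`, so `F ≠ K` and
`[K : F] ≥ 2`.  The number of embeddings of `K` which extend `ρ` restricted to `F` is `[K : F]`
(`AlgHom.card` over `F`, with `ℂ` an `F`-algebra through `ρ`).  Another way: the characteristic
polynomial of `z` is `∏_σ (X - σ z)` and it is the `[K : ℚ(z)]`-th power of the (separable) minimal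
polynomial, so all fibres of `σ ↦ σ z` have the same number of elements; cf.
`NumberField.Embeddings`, `Algebra.norm_eq_prod_embeddings`-type lemmas,
`charpoly_leftMulMatrix`, `Algebra.charpoly_eq_minpoly_pow` and so on. -/

set_option autoImplicit false

open scoped NumberField
open NumberField

namespace H46.AF

theorem sub {K : Type} [Field K] [NumberField K] {z : K} {σ τ : K →+* ℂ} (hne : σ ≠ τ)
    (h : σ z = τ z) (ρ : K →+* ℂ) : ∃ ρ' : K →+* ℂ, ρ' ≠ ρ ∧ ρ' z = ρ z := by
  classical
  have hF : IntermediateField.adjoin ℚ {z} ≠ (⊤ : IntermediateField ℚ K) := by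
    intro htop
    apply hne
    apply RingHom.ext
    intro x
    have hx : x ∈ IntermediateField.adjoin ℚ {z} := by
      rw [htop]
      exact IntermediateField.mem_top
    induction hx using IntermediateField.adjoin_induction with
    | mem x hx =>
      rw [Set.mem_singleton_iff.1 hx]
      exact h
    | algebraMap x => rw [eq_ratCast, map_ratCast, map_ratCast]
    | add x y _ _ hx hy => rw [map_add, map_add, hx, hy]
    | inv x _ hx => rw [map_inv₀, map_inv₀, hx]
    | mul x y _ _ hx hy => rw [map_mul, map_mul, hx, hy]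
  set F : IntermediateField ℚ K := IntermediateField.adjoin ℚ {z} with hFdef
  have hz : z ∈ F := IntermediateField.mem_adjoin_simple_self ℚ z
  have h1 : Module.finrank F K ≠ 1 := by
    rw [Ne, IntermediateField.finrank_eq_one_iff_eq_top]
    exact hF
  have h2 : 0 < Module.finrank F K := Module.finrank_pos
  letI : Algebra F ℂ := (ρ.comp (algebraMap F K)).toAlgebra
  have h3 : Fintype.card (K →ₐ[F] ℂ) = Module.finrank F K := AlgHom.card F K ℂ
  have h4 : 1 < Fintype.card (K →ₐ[F] ℂ) := by omega
  have h5 : Nontrivial (K →ₐ[F] ℂ) := Fintype.one_lt_card_iff_nontrivial.1 h4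
  let ρ₀ : K →ₐ[F] ℂ := { ρ with commutes' := fun x => rfl }
  obtain ⟨ρ', hρ'⟩ := exists_ne ρ₀
  refine ⟨(ρ' : K →+* ℂ), ?_, ?_⟩
  · intro heq
    apply hρ'
    apply AlgHom.ext
    intro x
    exact DFunLike.congr_fun heq x
  · exact ρ'.commutes ⟨z, hz⟩

end H46.AF
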