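import Pool.Agent.H46.AF.Tube
import Pool.Agent.H46.AF.Sub

/-! # P1A: logarithms along the tube of `σ₁`

`tt κ σ₁ σ = -κ (D - 1)` for `σ = σ₁` and `κ` otherwise, `D` the number of embeddings, `κ = ±1`, `σ₁` real.

Statement: there are units `e n`, reals `s n → ∞` and `h n → 0`, symmetric, with
`σ (e n) = exp (h n σ + s n * tt κ σ₁ σ)` for all `n`, `σ`, and `h n σ ≠ h n τ` whenever `σ ≠ τ`, both
different from `σ₁`.

Proof.  `tt κ σ₁` is invariant under conjugation because `conjugate σ = σ₁` iff `σ = σ₁`, and its sum is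
`-κ (D - 1) + (D - 1) κ = 0`.  Take `e, s` from `tube`; `y n σ = σ (e n) exp (-(s n tt σ)) → 1`.
Drop finitely many `n` (shift the index) so that for all `n`, `σ`: `‖y n σ - 1‖ < 1/2`, `s n ≥ 2`.
`h n σ = Complex.log (y n σ)`: `exp (h n σ) = y n σ` (nonzero), so the formula; `h n σ → log 1 = 0`
by continuity; `y n (conj σ) = conj (y n σ)` and `Complex.log_conj` (`arg ≠ π` as `re > 0`) give the
symmetry.  Distinctness: if `h n σ = h n τ` with `σ ≠ τ`, both `≠ σ₁`, then `σ (e n) = τ (e n)` (same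
`tt`), so by `sub` with `ρ = σ₁` there is `ρ' ≠ σ₁` with `ρ' (e n) = σ₁ (e n)`.  But
`‖ρ' (e n)‖ = ‖y n ρ'‖ exp (κ s n)` and `‖σ₁ (e n)‖ = ‖y n σ₁‖ exp (-κ (D-1) s n)` with
`1/2 < ‖y‖ < 3/2`, so `exp (D s n) < 3`, impossible for `s n ≥ 2`, `D ≥ 1`. -/

set_option autoImplicit false

open scoped NumberField
open NumberField Filter Topology

namespace H46.AF

open scoped Classical in
/-- the direction of the tube of `σ₁` -/
noncomputable def tt {K : Type} [Field K] [NumberField K] (κ : ℝ) (σ₁ σ : K →+* ℂ) : ℝ :=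
  if σ = σ₁ then -κ * ((Fintype.card (K →+* ℂ) : ℝ) - 1) else κ

theorem tt_conj {K : Type} [Field K] [NumberField K] (κ : ℝ) (σ₁ σ : K →+* ℂ)
    (hσ₁ : ComplexEmbedding.conjugate σ₁ = σ₁) :
    tt κ σ₁ (ComplexEmbedding.conjugate σ) = tt κ σ₁ σ := by
  unfold tt
  by_cases h : σ = σ₁
  · rw [h, hσ₁]
  · have h' : ComplexEmbedding.conjugate σ ≠ σ₁ := by
      intro h2
      apply h
      have h3 := congrArg ComplexEmbedding.conjugate h2
      rw [hσ₁, ComplexEmbedding.involutive_conjugate K σ] at h3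
      exact h3
    rw [if_neg h, if_neg h']

theorem tt_sum {K : Type} [Field K] [NumberField K] (κ : ℝ) (σ₁ : K →+* ℂ) :
    ∑ σ, tt κ σ₁ σ = 0 := by
  classical
  have h1 : ∀ σ : K →+* ℂ, tt κ σ₁ σ =
      κ + (if σ = σ₁ then -κ * (Fintype.card (K →+* ℂ) : ℝ) else 0) := by
    intro σ
    unfold tt
    by_cases h : σ = σ₁
    · rw [if_pos h, if_pos h]
      ring
    · rw [if_neg h, if_neg h, add_zero]
  rw [Finset.sum_congr rfl (fun σ _ => h1 σ), Finset.sum_add_distrib, Finset.sum_const,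
    Finset.sum_ite_eq' Finset.univ σ₁, if_pos (Finset.mem_univ _), Finset.card_univ, nsmul_eq_mul]
  ring

theorem tt_one {K : Type} [Field K] [NumberField K] (κ : ℝ) (σ₁ : K →+* ℂ) :
    tt κ σ₁ σ₁ = -κ * ((Fintype.card (K →+* ℂ) : ℝ) - 1) := by
  unfold tt
  rw [if_pos rfl]

theorem tt_ne {K : Type} [Field K] [NumberField K] (κ : ℝ) (σ₁ σ : K →+* ℂ) (h : σ ≠ σ₁) :
    tt κ σ₁ σ = κ := by
  unfold tt
  rw [if_neg h]

theorem tubelog {K : Type} [Field K] [NumberField K] (σ₁ : K →+* ℂ)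
    (hσ₁ : ComplexEmbedding.conjugate σ₁ = σ₁) (κ : ℝ) (hκ : κ = 1 ∨ κ = -1) :
    ∃ (e : ℕ → (𝓞 K)ˣ) (s : ℕ → ℝ) (h : ℕ → (K →+* ℂ) → ℂ),
      Tendsto s atTop atTop ∧ (∀ σ, Tendsto (fun n => h n σ) atTop (𝓝 0)) ∧
      (∀ n σ, h n (ComplexEmbedding.conjugate σ) = (starRingEnd ℂ) (h n σ)) ∧
      (∀ n (σ : K →+* ℂ), σ (((e n : (𝓞 K)ˣ) : 𝓞 K) : K) =
        Complex.exp (h n σ + ((s n * tt κ σ₁ σ : ℝ) : ℂ))) ∧
      (∀ n (σ τ : K →+* ℂ), σ ≠ σ₁ → τ ≠ σ₁ → σ ≠ τ → h n σ ≠ h n τ) := by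
  classical
  obtain ⟨e0, s0, hs0, he0⟩ := tube (tt κ σ₁) (fun σ => tt_conj κ σ₁ σ hσ₁) (tt_sum κ σ₁)
  have hev1 : ∀ᶠ n in atTop, 2 ≤ s0 n := hs0.eventually_ge_atTop 2
  have hev2 : ∀ᶠ n in atTop, ∀ σ : K →+* ℂ, ‖σ (((e0 n : (𝓞 K)ˣ) : 𝓞 K) : K) *
        ((Real.exp (-(s0 n * tt κ σ₁ σ)) : ℝ) : ℂ) - 1‖ < 1 / 2 := by
    rw [eventually_all]
    intro σ
    have h1 := (Metric.tendsto_nhds.1 (he0 σ)) (1 / 2) (by norm_num)
    simpa only [dist_eq_norm] using h1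
  obtain ⟨N, hN⟩ := eventually_atTop.1 (hev1.and hev2)
  obtain ⟨y, hy⟩ : ∃ y : ℕ → (K →+* ℂ) → ℂ, ∀ n σ, y n σ =
      σ (((e0 (n + N) : (𝓞 K)ˣ) : 𝓞 K) : K) *
        ((Real.exp (-(s0 (n + N) * tt κ σ₁ σ)) : ℝ) : ℂ) := ⟨_, fun _ _ => rfl⟩
  have hs2 : ∀ n, 2 ≤ s0 (n + N) := fun n => (hN (n + N) (Nat.le_add_left N n)).1
  have hy1 : ∀ n σ, ‖y n σ - 1‖ < 1 / 2 := by
    intro n σ
    rw [hy]
    exact (hN (n + N) (Nat.le_add_left N n)).2 σ
  have hre : ∀ n σ, 1 / 2 < (y n σ).re := by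
    intro n σ
    have h1 : |(y n σ - 1).re| < 1 / 2 := lt_of_le_of_lt (Complex.abs_re_le_norm _) (hy1 n σ)
    rw [Complex.sub_re, Complex.one_re] at h1
    have h2 := (abs_lt.1 h1).1
    linarith
  have hlo : ∀ n σ, 1 / 2 < ‖y n σ‖ := fun n σ =>
    lt_of_lt_of_le (hre n σ) (Complex.re_le_norm _)
  have hup : ∀ n σ, ‖y n σ‖ < 3 / 2 := by
    intro n σ
    have h1 : ‖y n σ‖ ≤ ‖y n σ - 1‖ + ‖(1 : ℂ)‖ := by
      have h2 := norm_add_le (y n σ - 1) 1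
      rwa [sub_add_cancel] at h2
    rw [norm_one] at h1
    linarith [hy1 n σ]
  have hy0 : ∀ n σ, y n σ ≠ 0 := fun n σ => norm_pos_iff.1 (by linarith [hlo n σ])
  have hexp : ∀ a : ℝ, Complex.exp (a : ℂ) = ((Real.exp a : ℝ) : ℂ) := fun a => (Complex.ofReal_exp a).symm
  have hσe : ∀ n (σ : K →+* ℂ), σ (((e0 (n + N) : (𝓞 K)ˣ) : 𝓞 K) : K) =
      y n σ * ((Real.exp (s0 (n + N) * tt κ σ₁ σ) : ℝ) : ℂ) := by
    intro n σ
    rw [hy, mul_assoc, ← Complex.ofReal_mul, ← Real.exp_add, neg_add_cancel, Real.exp_zero,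
      Complex.ofReal_one, mul_one]
  refine ⟨fun n => e0 (n + N), fun n => s0 (n + N), fun n σ => Complex.log (y n σ), ?_, ?_, ?_, ?_, ?_⟩
  · exact (tendsto_add_atTop_iff_nat N).2 hs0
  · intro σ
    have h1 : Tendsto (fun n => y n σ) atTop (𝓝 1) := by
      have h2 := (tendsto_add_atTop_iff_nat N).2 (he0 σ)
      refine h2.congr fun n => ?_
      rw [hy]
    have h3 : ContinuousAt Complex.log 1 := continuousAt_clog Complex.one_mem_slitPlane
    have h4 := h3.tendsto.comp h1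
    rw [Complex.log_one] at h4
    exact h4
  · intro n σ
    have h1 : y n (ComplexEmbedding.conjugate σ) = (starRingEnd ℂ) (y n σ) := by
      rw [hy, hy, map_mul, Complex.conj_ofReal, tt_conj κ σ₁ σ hσ₁,
        ComplexEmbedding.conjugate_coe_eq]
    have h2 : (y n σ).arg ≠ Real.pi := by
      intro h3
      rw [Complex.arg_eq_pi_iff] at h3
      linarith [hre n σ, h3.1]
    change Complex.log (y n (ComplexEmbedding.conjugate σ)) = (starRingEnd ℂ) (Complex.log (y n σ))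
    rw [h1, Complex.log_conj _ h2]
  · intro n σ
    change σ (((e0 (n + N) : (𝓞 K)ˣ) : 𝓞 K) : K) =
        Complex.exp (Complex.log (y n σ) + ((s0 (n + N) * tt κ σ₁ σ : ℝ) : ℂ))
    rw [Complex.exp_add, Complex.exp_log (hy0 n σ), hexp, hσe]
  · intro n σ τ hσ hτ hne hlog
    have h1 : y n σ = y n τ := by
      have h2 := congrArg Complex.exp hlog
      rwa [Complex.exp_log (hy0 n σ), Complex.exp_log (hy0 n τ)] at h2
    have h3 : σ (((e0 (n + N) : (𝓞 K)ˣ) : 𝓞 K) : K) = τ (((e0 (n + N) : (𝓞 K)ˣ) : 𝓞 K) : K) := by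
      rw [hσe, hσe, h1, tt_ne κ σ₁ σ hσ, tt_ne κ σ₁ τ hτ]
    obtain ⟨ρ', hρ', heq⟩ := sub hne h3 σ₁
    rw [hσe, hσe, tt_ne κ σ₁ ρ' hρ', tt_one] at heq
    have h4 := congrArg norm heq
    rw [norm_mul, norm_mul, Complex.norm_real, Complex.norm_real, Real.norm_eq_abs,
      Real.norm_eq_abs, abs_of_pos (Real.exp_pos _), abs_of_pos (Real.exp_pos _)] at h4
    have hD : (1 : ℝ) ≤ (Fintype.card (K →+* ℂ) : ℝ) := by
      have : 0 < Fintype.card (K →+* ℂ) := Fintype.card_pos_iff.2 ⟨σ₁⟩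
      exact_mod_cast this
    obtain ⟨D, hDdef⟩ : ∃ D : ℝ, D = (Fintype.card (K →+* ℂ) : ℝ) := ⟨_, rfl⟩
    rw [← hDdef] at hD h4
    have hs := hs2 n
    have hsD : 2 ≤ s0 (n + N) * D := by nlinarith
    have h3e : 3 ≤ Real.exp (s0 (n + N) * D) := by
      have := Real.add_one_le_exp (s0 (n + N) * D)
      linarith
    rcases hκ with h | h
    · rw [h] at h4
      have h5 : ‖y n ρ'‖ * Real.exp (s0 (n + N) * D) = ‖y n σ₁‖ := by
        have h6 : Real.exp (s0 (n + N) * D) =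
            Real.exp (s0 (n + N) * 1) * Real.exp (s0 (n + N) * (D - 1)) := by
          rw [← Real.exp_add]
          congr 1
          ring
        rw [h6, ← mul_assoc, h4, mul_assoc, ← Real.exp_add]
        have h7 : s0 (n + N) * (-1 * (D - 1)) + s0 (n + N) * (D - 1) = 0 := by ring
        rw [h7, Real.exp_zero, mul_one]
      nlinarith [hlo n ρ', hup n σ₁, hup n ρ', hlo n σ₁]
    · rw [h] at h4
      have h5 : ‖y n ρ'‖ = ‖y n σ₁‖ * Real.exp (s0 (n + N) * D) := by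
        have h6 : Real.exp (s0 (n + N) * D) =
            Real.exp (s0 (n + N) * (- -1 * (D - 1))) * Real.exp (s0 (n + N)) := by
          rw [← Real.exp_add]
          congr 1
          ring
        rw [h6, ← mul_assoc, ← h4, mul_assoc, ← Real.exp_add]
        have h7 : s0 (n + N) * -1 + s0 (n + N) = 0 := by ring
        rw [h7, Real.exp_zero, mul_one]
      nlinarith [hlo n ρ', hup n σ₁, hup n ρ', hlo n σ₁]

end H46.AF
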