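import Pool.Agent.H46.AF.Defs

/-! # SCALE: the first scale at which something moves (pure analysis, no number theory)

Data: finite sets `J i` of indices with a point `p i ∈ J i`, a sequence `h n : E → ℂ` tending to
`0` such that for every `n` some `h n σ`, `σ ∈ J i`, is different from the real number
`(h n (p i)).re`.

Proof.  `D n = max` over `i` and `σ ∈ J i` of `‖h n σ - (h n (p i)).re‖`; it is `> 0` and tends to
`0`.  Some `i0` attains the maximum for infinitely many `n`, and along a subsequence the vectors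
`(h n σ - (h n (p i0)).re) / D n` (all of norm `≤ 1` for `σ ∈ J i0`) converge for every `σ ∈ J i0`
(compactness of the unit ball; for `σ` outside of `J i0` put `z σ = 0` and use the vector which is
`0` there); also some fixed `σ ∈ J i0` attains the maximum infinitely often, so `‖z σ‖ = 1`. -/

set_option autoImplicit false

open Filter Topology

namespace H46.AF

theorem exists_scale {E ι : Type} [Fintype E] [Fintype ι] (J : ι → Finset E) (p : ι → E)
    (hp : ∀ i, p i ∈ J i) (h : ℕ → E → ℂ)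
    (h0 : ∀ σ, Tendsto (fun n => h n σ) atTop (𝓝 0))
    (hne : ∀ n, ∃ i, ∃ σ ∈ J i, h n σ ≠ (((h n (p i)).re : ℝ) : ℂ)) :
    ∃ (i0 : ι) (δ : ℕ → ℝ) (z : E → ℂ) (φ : ℕ → ℕ), StrictMono φ ∧ (∀ n, 0 < δ n) ∧
      Tendsto δ atTop (𝓝 0) ∧
      (∀ n i, ∀ σ ∈ J i, ‖h (φ n) σ - (((h (φ n) (p i)).re : ℝ) : ℂ)‖ ≤ δ n) ∧
      (∀ σ ∈ J i0, Tendsto (fun n => (h (φ n) σ - (((h (φ n) (p i0)).re : ℝ) : ℂ)) / (δ n : ℂ))
        atTop (𝓝 (z σ))) ∧
      (∃ σ ∈ J i0, ‖z σ‖ = 1) := by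
  classical
  let P : Finset (ι × E) := Finset.univ.filter (fun q : ι × E => q.2 ∈ J q.1)
  let v : ℕ → ι × E → ℝ := fun n q => ‖h n q.2 - (((h n (p q.1)).re : ℝ) : ℂ)‖
  have hmem : ∀ q : ι × E, q ∈ P ↔ q.2 ∈ J q.1 := by
    intro q
    simp [P]
  obtain ⟨i', σ', hσ', -⟩ := hne 0
  have hPne : P.Nonempty := ⟨(i', σ'), (hmem _).2 hσ'⟩
  have hmax : ∀ n, ∃ q ∈ P, ∀ q' ∈ P, v n q' ≤ v n q := fun n => P.exists_max_image (v n) hPne
  choose q hq hqmax using hmax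
  have hpos : ∀ n, 0 < v n (q n) := by
    intro n
    obtain ⟨i, σ, hσ, hnei⟩ := hne n
    refine lt_of_lt_of_le ?_ (hqmax n (i, σ) ((hmem _).2 hσ))
    exact norm_pos_iff.2 (sub_ne_zero.2 hnei)
  have hv0 : ∀ r : ι × E, Tendsto (fun n => v n r) atTop (𝓝 0) := by
    intro r
    have h1 : Tendsto (fun n => (((h n (p r.1)).re : ℝ) : ℂ)) atTop (𝓝 (((0 : ℂ).re : ℝ) : ℂ)) :=
      (Complex.continuous_ofReal.tendsto _).comp ((Complex.continuous_re.tendsto _).comp (h0 _))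
    have h2 := ((h0 r.2).sub h1).norm
    simpa [v] using h2
  have hD0 : Tendsto (fun n => v n (q n)) atTop (𝓝 0) := by
    have h1 : Tendsto (fun n => ∑ r ∈ P, v n r) atTop (𝓝 (∑ r ∈ P, (0 : ℝ))) :=
      tendsto_finsetSum P fun r _ => hv0 r
    rw [Finset.sum_const_zero] at h1
    refine squeeze_zero (fun n => (hpos n).le) (fun n => ?_) h1
    exact Finset.single_le_sum (f := fun r => v n r) (fun r _ => norm_nonneg _) (hq n)
  obtain ⟨⟨i0, σ0⟩, hinf⟩ := Finite.exists_infinite_fiber q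
  have hfreq : ∃ᶠ n in atTop, q n = (i0, σ0) := by
    rw [Nat.frequently_atTop_iff_infinite]
    exact Set.infinite_coe_iff.1 hinf
  obtain ⟨ψ, hψ, hψq⟩ := Filter.extraction_of_frequently_atTop hfreq
  have hσ0 : σ0 ∈ J i0 := by
    have h1 := hq (ψ 0)
    rw [hψq 0, hmem] at h1
    exact h1
  let u : ℕ → E → ℂ := fun n σ =>
    if σ ∈ J i0 then (h (ψ n) σ - (((h (ψ n) (p i0)).re : ℝ) : ℂ)) / ((v (ψ n) (q (ψ n)) : ℝ) : ℂ)
    else 0
  have hu : ∀ n, u n ∈ Metric.closedBall (0 : E → ℂ) 1 := by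
    intro n
    rw [mem_closedBall_zero_iff, pi_norm_le_iff_of_nonneg zero_le_one]
    intro σ
    by_cases hσ : σ ∈ J i0
    · have h1 := hqmax (ψ n) (i0, σ) ((hmem _).2 hσ)
      have h2 : ‖u n σ‖ = v (ψ n) (i0, σ) / v (ψ n) (q (ψ n)) := by
        show ‖(if σ ∈ J i0 then (h (ψ n) σ - (((h (ψ n) (p i0)).re : ℝ) : ℂ)) /
          ((v (ψ n) (q (ψ n)) : ℝ) : ℂ) else 0)‖ = _
        rw [if_pos hσ, norm_div, Complex.norm_real, Real.norm_of_nonneg (hpos _).le]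
      rw [h2]
      exact (div_le_one (hpos _)).2 h1
    · have h2 : u n σ = 0 := if_neg hσ
      rw [h2, norm_zero]
      exact zero_le_one
  obtain ⟨z, -, φ, hφ, hz⟩ := (isCompact_closedBall (0 : E → ℂ) 1).tendsto_subseq hu
  have hzσ : ∀ σ, Tendsto (fun n => u (φ n) σ) atTop (𝓝 (z σ)) := fun σ =>
    (tendsto_pi_nhds.1 hz) σ
  refine ⟨i0, fun n => v (ψ (φ n)) (q (ψ (φ n))), z, fun n => ψ (φ n), hψ.comp hφ,
    fun n => hpos _, hD0.comp ((hψ.comp hφ).tendsto_atTop), ?_, ?_, σ0, hσ0, ?_⟩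
  · intro n i σ hσ
    exact hqmax (ψ (φ n)) (i, σ) ((hmem _).2 hσ)
  · intro σ hσ
    refine (hzσ σ).congr fun n => ?_
    exact if_pos hσ
  · have h1 : ∀ n, ‖u (φ n) σ0‖ = 1 := by
      intro n
      show ‖(if σ0 ∈ J i0 then (h (ψ (φ n)) σ0 - (((h (ψ (φ n)) (p i0)).re : ℝ) : ℂ)) /
          ((v (ψ (φ n)) (q (ψ (φ n))) : ℝ) : ℂ) else 0)‖ = 1
      rw [if_pos hσ0, norm_div, Complex.norm_real, Real.norm_of_nonneg (hpos _).le]
      have h2 : ‖h (ψ (φ n)) σ0 - (((h (ψ (φ n)) (p i0)).re : ℝ) : ℂ)‖ =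
          v (ψ (φ n)) (q (ψ (φ n))) := by
        rw [hψq (φ n)]
      rw [h2]
      exact div_self (hpos _).ne'
    have h2 := (hzσ σ0).norm
    simp only [h1] at h2
    exact tendsto_nhds_unique h2 tendsto_const_nhds

end H46.AF
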