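import Pool.Agent.H46.AF.Dens

/-! # SIGN: a zero on the path `s ↦ a σ * exp (s z σ)`

Statement: `a` a real row, `z` symmetric on the support of `a` and not constant there.  Then some
`s > 0` and some nonzero algebraic integer `μ` have `∑ a σ exp (s z σ) σ μ = 0`.

Proof.  `a_s σ = a σ * exp (s z σ)` is a real row for every real `s` (where `a σ = 0` both sides are
`0`), nonzero.  Claim: for some `s₁ > 0` the row `a_{s₁}` is not a positive multiple of `a`.
Otherwise `exp (s z σ) = exp (s z τ)` for all `s > 0` and all `σ, τ` in the support, so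
`exp (s (z σ - z τ)) = 1` for all `s > 0`, hence `z σ = z τ` (derivative at `0`, or
`Complex.exp_eq_one_iff` at small `s`: `‖s (z σ - z τ)‖ < 2 π`).  By `dens` there is `μ` with
`(lin a μ).re > 0 > (lin a_{s₁} μ).re`; `μ ≠ 0`.  The function `s ↦ (lin a_s μ).re` is continuous, so
it vanishes at some `s` in `(0, s₁)` (`intermediate_value_Icc'`), and the imaginary part vanishes by
`lin_real`. -/

set_option autoImplicit false

open scoped NumberField
open NumberField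

namespace H46.AF

private theorem sign_exp (w : ℂ) (h : ∀ s : ℝ, 0 < s → Complex.exp ((s : ℂ) * w) = 1) : w = 0 := by
  by_contra hw
  have hn : 0 < ‖w‖ := norm_pos_iff.2 hw
  have h1 := h (Real.pi / ‖w‖) (div_pos Real.pi_pos hn)
  rw [Complex.exp_eq_one_iff] at h1
  obtain ⟨n, hn1⟩ := h1
  have h2 := congrArg norm hn1
  rw [norm_mul, norm_mul, norm_mul, norm_mul, Complex.norm_real, Complex.norm_I, Complex.norm_real,
    Real.norm_eq_abs, Real.norm_eq_abs, abs_of_pos (div_pos Real.pi_pos hn), abs_of_pos Real.pi_pos,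
    div_mul_cancel₀ _ hn.ne'] at h2
  have h3 : ‖(n : ℂ)‖ = |(n : ℝ)| := by
    rw [← Complex.ofReal_intCast, Complex.norm_real, Real.norm_eq_abs]
  have h4 : ‖(2 : ℂ)‖ = 2 := by simp
  rw [h3, h4, mul_one] at h2
  have hpi := Real.pi_pos
  have h5 : |(n : ℝ)| * 2 = 1 := by
    have h6 : Real.pi * (|(n : ℝ)| * 2) = Real.pi * 1 := by linarith
    exact mul_left_cancel₀ hpi.ne' h6
  have h7 : |n| * 2 = 1 := by
    have : ((|n| * 2 : ℤ) : ℝ) = 1 := by
      push_cast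
      exact h5
    exact_mod_cast this
  omega

private theorem sign_sym {K : Type} [Field K] (a z : (K →+* ℂ) → ℂ) (ha : Sym a)
    (hz : ∀ σ, a σ ≠ 0 → z (ComplexEmbedding.conjugate σ) = (starRingEnd ℂ) (z σ)) (s : ℝ) :
    Sym (fun σ => a σ * Complex.exp ((s : ℂ) * z σ)) := by
  intro σ
  change a (ComplexEmbedding.conjugate σ) * Complex.exp ((s : ℂ) * z (ComplexEmbedding.conjugate σ)) =
    (starRingEnd ℂ) (a σ * Complex.exp ((s : ℂ) * z σ))
  by_cases h0 : a σ = 0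
  · rw [ha σ, h0, map_zero, zero_mul, zero_mul, map_zero]
  · rw [ha σ, hz σ h0, map_mul, ← Complex.exp_conj, map_mul, Complex.conj_ofReal]

theorem sign {K : Type} [Field K] [NumberField K] (a z : (K →+* ℂ) → ℂ) (ha : Sym a)
    (hz : ∀ σ, a σ ≠ 0 → z (ComplexEmbedding.conjugate σ) = (starRingEnd ℂ) (z σ))
    (hnc : ∃ σ τ, a σ ≠ 0 ∧ a τ ≠ 0 ∧ z σ ≠ z τ) :
    ∃ s : ℝ, 0 < s ∧ ∃ μ : 𝓞 K, μ ≠ 0 ∧
      lin (fun σ => a σ * Complex.exp ((s : ℂ) * z σ)) (μ : K) = 0 := by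
  obtain ⟨σ, τ, hσ, hτ, hne⟩ := hnc
  have hsym := sign_sym a z ha hz
  obtain ⟨s₁, hs₁, hs₂⟩ : ∃ s₁ : ℝ, 0 < s₁ ∧
      ¬ ∃ r : ℝ, 0 < r ∧ ∀ ρ, a ρ * Complex.exp ((s₁ : ℂ) * z ρ) = (r : ℂ) * a ρ := by
    by_contra hcon
    push Not at hcon
    apply hne
    have h1 := sign_exp (z σ - z τ) (fun s hs => ?_)
    · exact sub_eq_zero.1 h1
    · obtain ⟨r, hr, h2⟩ := hcon s hs
      have h3 : Complex.exp ((s : ℂ) * z σ) = r := by
        apply mul_left_cancel₀ hσ
        rw [h2 σ, mul_comm]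
      have h4 : Complex.exp ((s : ℂ) * z τ) = r := by
        apply mul_left_cancel₀ hτ
        rw [h2 τ, mul_comm]
      rw [mul_sub, Complex.exp_sub, h3, h4, div_self]
      rw [← h4]
      exact Complex.exp_ne_zero _
  have hne1 : (fun ρ => a ρ * Complex.exp ((s₁ : ℂ) * z ρ)) ≠ 0 := by
    intro h0
    have h1 := congrFun h0 σ
    exact mul_ne_zero hσ (Complex.exp_ne_zero _) h1
  obtain ⟨μ, h1, h2⟩ := dens a (fun ρ => a ρ * Complex.exp ((s₁ : ℂ) * z ρ)) ha (hsym s₁)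
    (fun h0 => hσ (congrFun h0 σ)) hne1 hs₂
  have hcont : Continuous (fun s : ℝ => (lin (fun ρ => a ρ * Complex.exp ((s : ℂ) * z ρ)) (μ : K)).re) := by
    unfold lin
    refine Complex.continuous_re.comp (continuous_finset_sum _ (fun ρ _ => ?_))
    fun_prop
  have h3 := intermediate_value_Icc' hs₁.le hcont.continuousOn
  have h0 : (fun ρ => a ρ * Complex.exp (((0 : ℝ) : ℂ) * z ρ)) = a := by
    funext ρ
    rw [Complex.ofReal_zero, zero_mul, Complex.exp_zero, mul_one]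
  have h4 : (0 : ℝ) ∈ Set.Icc (lin (fun ρ => a ρ * Complex.exp ((s₁ : ℂ) * z ρ)) (μ : K)).re
      (lin (fun ρ => a ρ * Complex.exp (((0 : ℝ) : ℂ) * z ρ)) (μ : K)).re := by
    rw [h0]
    exact ⟨h2.le, h1.le⟩
  obtain ⟨s, hs, hs0⟩ := h3 h4
  refine ⟨s, ?_, μ, ?_, ?_⟩
  · refine lt_of_le_of_ne hs.1 ?_
    intro he
    rw [← he] at hs0
    have h5 : (lin (fun ρ => a ρ * Complex.exp (((0 : ℝ) : ℂ) * z ρ)) (μ : K)).re = 0 := hs0
    rw [h0] at h5
    linarith
  · intro hμ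
    rw [hμ] at h1
    unfold lin at h1
    simp at h1
  · exact Complex.ext hs0 (lin_real (hsym s) _)

end H46.AF
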