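import Pool.Agent.H46.AF.P1b
import Pool.Agent.H46.AF.Scale
import Pool.Agent.H46.AF.Sign

/-! # PART1: every row involves one embedding besides `σ₁`

Data: `c` real rows indexed by `ι`, `π : ι ≃ E` with `c i (π i) ≠ 0`, `π i₁ = σ₁` real, and either
(row case) `c i₁ σ = 0` for `σ ≠ σ₁` or (column case) `c i σ₁ = 0` for `i ≠ i₁`; the product of the rows is
`≥ ν > 0` at all nonzero algebraic integers.  Claim: for `i ≠ i₁`, `σ ≠ σ₁`, `c i σ ≠ 0` only if
`σ = π i`.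

Proof (assembly of `tubelog`, `exists_scale`, `sign`, `evalp`).  `κ = 1` in the row case, `κ = -1` in the
column case; take `e, s, h` from `tubelog σ₁ hσ₁ κ`.  Let `J i = {σ ≠ σ₁ : c i σ ≠ 0}` for `i ≠ i₁`;
it contains `π i` (which is `≠ σ₁`) and is closed under conjugation.  Suppose the claim is false: some
`J i`, `i ≠ i₁`, has an element `σ ≠ π i`.  Then for every `n` some `h n σ`, `σ ∈ J i`, is different
from `(h n (π i)).re` (two elements of `J i` have different `h n`).  Apply `exists_scale` with the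
index type `{i // i ≠ i₁}`: `i0, δ, z, φ`.  (4) `z` is symmetric on `J i0` (limit of symmetric
functions, uniqueness of limits; `conj ((h - r) / δ) = (conj h - r) / δ`) and not constant there: if it
were constant `= ζ`, then `ζ` is real and `ζ.re = (z (π i0)).re = lim 0 = 0`, so `ζ = 0`, but some
`‖z σ‖ = 1`.  (5) Apply `sign` to the row `a σ = c i0 σ` for `σ ≠ σ₁`, `a σ₁ = 0` (support `J i0`):
`s0 > 0` and `μ ≠ 0`.  (6) `k n = ⌊s0 / δ n⌋₊`, `k n δ n → s0`, `k n ≥ 1` for large `n` (drop finitely many; compose everything with `φ` and a shift).  Apply `evalp` with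
`ζ σ = s0 z σ`, `B = s0`: `‖k n (h (φ n) σ - re)‖ ≤ k n δ n ≤ s0`.  The limit `0` contradicts `Low c ν` at the
nonzero algebraic integers `e^k μ`. -/

set_option autoImplicit false

open scoped NumberField
open NumberField Filter Topology

namespace H46.AF

theorem part1 {K : Type} [Field K] [NumberField K] {ι : Type} [Fintype ι]
    (σ₁ : K →+* ℂ) (hσ₁ : ComplexEmbedding.conjugate σ₁ = σ₁) (i₁ : ι)
    (c : ι → (K →+* ℂ) → ℂ) (hc : ∀ i, Sym (c i)) (π : ι ≃ (K →+* ℂ))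
    (hπ : ∀ i, c i (π i) ≠ 0) (hπ₁ : π i₁ = σ₁)
    (hcase : (∀ σ, σ ≠ σ₁ → c i₁ σ = 0) ∨ (∀ i, i ≠ i₁ → c i σ₁ = 0))
    (ν : ℝ) (hν : 0 < ν) (hP : Low c ν) :
    ∀ i, i ≠ i₁ → ∀ σ, σ ≠ σ₁ → c i σ ≠ 0 → σ = π i := by
  classical
  by_contra hcon
  push Not at hcon
  obtain ⟨i', hi', σ', hσ', hcσ', hne'⟩ := hcon
  have hconjconj : ∀ σ : K →+* ℂ,
      ComplexEmbedding.conjugate (ComplexEmbedding.conjugate σ) = σ := by
    intro σ
    ext x
    simp
  have hπne : ∀ i, i ≠ i₁ → π i ≠ σ₁ := by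
    intro i hi h
    exact hi (π.injective (h.trans hπ₁.symm))
  let J : {i // i ≠ i₁} → Finset (K →+* ℂ) := fun i =>
    Finset.univ.filter (fun σ => σ ≠ σ₁ ∧ c i σ ≠ 0)
  have hJ : ∀ (i : {i // i ≠ i₁}) (σ : K →+* ℂ), σ ∈ J i ↔ σ ≠ σ₁ ∧ c i σ ≠ 0 := by
    intro i σ
    simp [J]
  let p : {i // i ≠ i₁} → (K →+* ℂ) := fun i => π i
  have hp : ∀ i, p i ∈ J i := fun i => (hJ i _).2 ⟨hπne i i.2, hπ i⟩
  obtain ⟨κ, hκ, hcase'⟩ : ∃ κ : ℝ, (κ = 1 ∨ κ = -1) ∧
      ((κ = 1 ∧ ∀ σ, σ ≠ σ₁ → c i₁ σ = 0) ∨ (κ = -1 ∧ ∀ i, i ≠ i₁ → c i σ₁ = 0)) := by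
    rcases hcase with h | h
    · exact ⟨1, Or.inl rfl, Or.inl ⟨rfl, h⟩⟩
    · exact ⟨-1, Or.inr rfl, Or.inr ⟨rfl, h⟩⟩
  obtain ⟨e, s, h, hs, h0, hconj, he, hdist⟩ := tubelog σ₁ hσ₁ κ hκ
  have hne : ∀ n, ∃ i, ∃ σ ∈ J i, h n σ ≠ (((h n (p i)).re : ℝ) : ℂ) := by
    intro n
    by_contra hcon
    push Not at hcon
    have h1 := hcon ⟨i', hi'⟩ σ' ((hJ _ _).2 ⟨hσ', hcσ'⟩)
    have h2 := hcon ⟨i', hi'⟩ (p ⟨i', hi'⟩) (hp _)
    exact hdist n σ' (p ⟨i', hi'⟩) hσ' (hπne i' hi') hne' (h1.trans h2.symm)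
  obtain ⟨i0, δ, z, φ, hφ, hδ, hδ0, hle, hz, σz, hσz, hz1⟩ := exists_scale J p hp h h0 hne
  have hJc : ∀ (i : {i // i ≠ i₁}) (σ : K →+* ℂ), σ ∈ J i → ComplexEmbedding.conjugate σ ∈ J i := by
    intro i σ hσ
    rw [hJ] at hσ ⊢
    refine ⟨fun h => hσ.1 ?_, ?_⟩
    · rw [← hconjconj σ, h, hσ₁]
    · rw [hc i σ]
      intro h
      exact hσ.2 ((map_eq_zero _).1 h)
  have hzsym : ∀ σ ∈ J i0, z (ComplexEmbedding.conjugate σ) = (starRingEnd ℂ) (z σ) := by
    intro σ hσ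
    refine tendsto_nhds_unique (hz _ (hJc i0 σ hσ)) ?_
    have h1 := (Complex.continuous_conj.tendsto (z σ)).comp (hz σ hσ)
    refine h1.congr (fun n => ?_)
    simp only [Function.comp_apply, map_div₀, map_sub, Complex.conj_ofReal]
    rw [hconj (φ n) σ]
  let a : (K →+* ℂ) → ℂ := fun σ => if σ = σ₁ then 0 else c i0 σ
  have haJ : ∀ σ, a σ ≠ 0 ↔ σ ∈ J i0 := by
    intro σ
    rw [hJ]
    by_cases h : σ = σ₁
    · simp [a, h]
    · simp [a, h]
  have hasym : Sym a := by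
    intro σ
    by_cases h : σ = σ₁
    · have h' : ComplexEmbedding.conjugate σ = σ₁ := by rw [h, hσ₁]
      simp [a, h, hσ₁]
    · have h' : ComplexEmbedding.conjugate σ ≠ σ₁ := by
        intro h'
        apply h
        rw [← hconjconj σ, h', hσ₁]
      simp only [a, h, h', if_false]
      exact hc _ σ
  have hnc : ∃ σ τ, a σ ≠ 0 ∧ a τ ≠ 0 ∧ z σ ≠ z τ := by
    by_contra hcon
    push Not at hcon
    have h1 : z (p i0) = z (ComplexEmbedding.conjugate (p i0)) :=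
      hcon _ _ ((haJ _).2 (hp i0)) ((haJ _).2 (hJc i0 _ (hp i0)))
    rw [hzsym _ (hp i0)] at h1
    have h2 : (z (p i0)).im = 0 := Complex.conj_eq_iff_im.1 h1.symm
    have h3 : (z (p i0)).re = 0 := by
      have h4 := (Complex.continuous_re.tendsto (z (p i0))).comp (hz _ (hp i0))
      refine tendsto_nhds_unique h4 ?_
      refine tendsto_const_nhds.congr (fun n => ?_)
      simp only [Function.comp_apply]
      rw [Complex.div_ofReal_re]
      simp
    have h5 : z (p i0) = 0 := Complex.ext h3 h2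
    have h6 : z σz = z (p i0) := hcon _ _ ((haJ _).2 hσz) ((haJ _).2 (hp i0))
    rw [h6, h5, norm_zero] at hz1
    exact zero_ne_one hz1
  obtain ⟨s0, hs0, μ, hμ0, hμ⟩ := sign a z hasym (fun σ hσ => hzsym σ ((haJ σ).1 hσ)) hnc
  obtain ⟨D, hD⟩ := hδ0.bddAbove_range
  have hD' : ∀ n, δ n ≤ D := fun n => hD ⟨n, rfl⟩
  let k : ℕ → ℕ := fun n => ⌊s0 / δ n⌋₊ + 1
  have hk1 : ∀ n, s0 ≤ (k n : ℝ) * δ n := by
    intro n
    have h1 : s0 / δ n < (k n : ℝ) := by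
      simp only [k]
      push_cast
      exact Nat.lt_floor_add_one _
    exact ((div_lt_iff₀ (hδ n)).1 h1).le
  have hk2 : ∀ n, (k n : ℝ) * δ n ≤ s0 + δ n := by
    intro n
    have h1 : (k n : ℝ) ≤ s0 / δ n + 1 := by
      simp only [k]
      push_cast
      have := Nat.floor_le (div_nonneg hs0.le (hδ n).le)
      linarith
    calc (k n : ℝ) * δ n ≤ (s0 / δ n + 1) * δ n := by
          exact mul_le_mul_of_nonneg_right h1 (hδ n).le
      _ = s0 + δ n := by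
          rw [add_mul, div_mul_cancel₀ _ (hδ n).ne', one_mul]
  have hkt : Tendsto (fun n => (k n : ℝ) * δ n) atTop (𝓝 s0) := by
    refine tendsto_of_tendsto_of_tendsto_of_le_of_le tendsto_const_nhds ?_ hk1 hk2
    simpa using (tendsto_const_nhds (x := s0)).add hδ0
  have hlim := evalp σ₁ i₁ c π hπ₁ κ hcase' (fun n => e (φ n)) (fun n => s (φ n))
    (fun n => h (φ n)) (hs.comp hφ.tendsto_atTop) (fun σ => (h0 σ).comp hφ.tendsto_atTop)
    (fun n σ => he (φ n) σ) k (fun n => Nat.succ_le_succ (Nat.zero_le _)) (s0 + D)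
    (by
      intro n i hi σ hσ hcσ
      have h1 := hle n ⟨i, hi⟩ σ ((hJ _ _).2 ⟨hσ, hcσ⟩)
      rw [norm_mul, Complex.norm_natCast]
      calc (k n : ℝ) * ‖h (φ n) σ - (((h (φ n) (π i)).re : ℝ) : ℂ)‖ ≤ (k n : ℝ) * δ n :=
            mul_le_mul_of_nonneg_left h1 (Nat.cast_nonneg _)
        _ ≤ s0 + δ n := hk2 n
        _ ≤ s0 + D := by linarith [hD' n])
    i0 i0.2 (fun σ => (s0 : ℂ) * z σ)
    (by
      intro σ hσ hcσ
      have h1 := hz σ ((hJ _ _).2 ⟨hσ, hcσ⟩)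
      have h2 : Tendsto (fun n => (((k n : ℝ) * δ n : ℝ) : ℂ)) atTop (𝓝 (s0 : ℂ)) :=
        (Complex.continuous_ofReal.tendsto s0).comp hkt
      refine (h2.mul h1).congr (fun n => ?_)
      have h3 : (δ n : ℂ) ≠ 0 := by exact_mod_cast (hδ n).ne'
      push_cast
      field_simp
      rfl)
    μ
    (by
      have h4 : (fun σ : K →+* ℂ => if σ = σ₁ then (0 : ℂ) else
          c i0 σ * Complex.exp ((s0 : ℂ) * z σ)) =
          fun σ => a σ * Complex.exp ((s0 : ℂ) * z σ) := by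
        funext σ
        by_cases hσ : σ = σ₁
        · simp [a, hσ]
        · simp [a, hσ]
      rw [h4]
      exact hμ)
  have hge : ν ≤ 0 := by
    refine ge_of_tendsto hlim (Eventually.of_forall (fun n => ?_))
    refine hP _ ?_
    exact mul_ne_zero (Units.ne_zero _) hμ0
  linarith

end H46.AF
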