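import Pool.Agent.H46.AF.Defs

/-! # TR: passing from a real matrix to rows over the embeddings

`v, ω : Fin d → K` are trace dual: `Tr (v j ω k) = δ_jk`.  `cof v h i σ = ∑ j, h i j σ (v j)`. -/

set_option autoImplicit false

open scoped NumberField
open NumberField Filter Topology

namespace H46.AF

theorem sum_emb {K : Type} [Field K] [NumberField K] (x : K) :
    ∑ σ : K →+* ℂ, σ x = ((Algebra.trace ℚ K x : ℚ) : ℂ) := by
  have h := trace_eq_sum_embeddings (K := ℚ) (L := K) ℂ (x := x)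
  rw [eq_comm] at h
  have h2 : ∑ σ : K →+* ℂ, σ x = ∑ σ : K →ₐ[ℚ] ℂ, σ x :=
    Fintype.sum_equiv (RingHom.equivRatAlgHom K ℂ) _ _ (fun σ => rfl)
  rw [h2, h]
  rfl

theorem emb_dual {K : Type} [Field K] [NumberField K] {d : ℕ} (v ω : Fin d → K)
    (hdual : ∀ j k, Algebra.trace ℚ K (v j * ω k) = if j = k then 1 else 0) (j k : Fin d) :
    ∑ σ : K →+* ℂ, σ (v j) * σ (ω k) = if j = k then 1 else 0 := by
  have h := sum_emb (v j * ω k)
  simp only [map_mul] at h
  rw [h, hdual]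
  split_ifs <;> simp

/-- the second relation -/
theorem emb_dual' {K : Type} [Field K] [NumberField K] {d : ℕ}
    (hd : Module.finrank ℚ K = d) (v ω : Fin d → K)
    (hdual : ∀ j k, Algebra.trace ℚ K (v j * ω k) = if j = k then 1 else 0)
    [DecidableEq (K →+* ℂ)] (σ τ : K →+* ℂ) :
    ∑ j, σ (ω j) * τ (v j) = if σ = τ then 1 else 0 := by
  have hcard : Fintype.card (K →+* ℂ) = Fintype.card (Fin d) := by
    rw [Embeddings.card, hd, Fintype.card_fin]
  obtain ⟨e⟩ : Nonempty ((K →+* ℂ) ≃ Fin d) := ⟨Fintype.equivOfCardEq hcard⟩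
  let A : Matrix (Fin d) (K →+* ℂ) ℂ := fun j σ => σ (v j)
  let B : Matrix (K →+* ℂ) (Fin d) ℂ := fun σ j => σ (ω j)
  have hAB : A * B = 1 := by
    ext j k
    rw [Matrix.mul_apply, Matrix.one_apply]
    exact emb_dual v ω hdual j k
  have hBA : B * A = 1 := (Matrix.mul_eq_one_comm_of_equiv e.symm).1 hAB
  have h := congrFun (congrFun hBA σ) τ
  rw [Matrix.mul_apply, Matrix.one_apply] at h
  exact h

theorem lin_cof {K : Type} [Field K] [NumberField K] {d : ℕ} (v ω : Fin d → K)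
    (hdual : ∀ j k, Algebra.trace ℚ K (v j * ω k) = if j = k then 1 else 0)
    (h : Matrix (Fin d) (Fin d) ℝ) (i : Fin d) (x : Fin d → ℤ) :
    lin (cof v h i) (∑ j, (x j : K) * ω j) = ((∑ j, h i j * (x j : ℝ) : ℝ) : ℂ) := by
  classical
  unfold lin cof
  have h1 : ∀ σ : K →+* ℂ, (∑ j, (h i j : ℂ) * σ (v j)) * σ (∑ k, (x k : K) * ω k) =
      ∑ j, ∑ k, (h i j : ℂ) * (x k : ℂ) * (σ (v j) * σ (ω k)) := by
    intro σ
    rw [map_sum, Finset.sum_mul_sum]
    refine Finset.sum_congr rfl fun j _ => Finset.sum_congr rfl fun k _ => ?_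
    rw [map_mul, map_intCast]
    ring
  simp only [h1]
  rw [Finset.sum_comm]
  have h2 : ∀ j, ∑ σ : K →+* ℂ, ∑ k, (h i j : ℂ) * (x k : ℂ) * (σ (v j) * σ (ω k)) =
      (h i j : ℂ) * (x j : ℂ) := by
    intro j
    rw [Finset.sum_comm]
    simp only [← Finset.mul_sum]
    simp only [emb_dual v ω hdual]
    simp
  simp only [h2]
  push_cast
  rfl

theorem sym_cof {K : Type} [Field K] [NumberField K] {d : ℕ} (v : Fin d → K)
    (h : Matrix (Fin d) (Fin d) ℝ) (i : Fin d) : Sym (cof v h i) := by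
  intro σ
  unfold cof
  rw [map_sum]
  refine Finset.sum_congr rfl fun j _ => ?_
  rw [map_mul, Complex.conj_ofReal, ComplexEmbedding.conjugate_coe_eq]

theorem perm_cof {K : Type} [Field K] [NumberField K] {d : ℕ}
    (hd : Module.finrank ℚ K = d) (v ω : Fin d → K)
    (hdual : ∀ j k, Algebra.trace ℚ K (v j * ω k) = if j = k then 1 else 0)
    (h : Matrix (Fin d) (Fin d) ℝ) (hdet : h.det ≠ 0) :
    ∃ π : Fin d ≃ (K →+* ℂ), ∀ i, cof v h i (π i) ≠ 0 := by
  classical
  have hcard : Fintype.card (K →+* ℂ) = Fintype.card (Fin d) := by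
    rw [Embeddings.card, hd, Fintype.card_fin]
  obtain ⟨e⟩ : Nonempty (Fin d ≃ (K →+* ℂ)) := ⟨Fintype.equivOfCardEq hcard.symm⟩
  let A : Matrix (Fin d) (Fin d) ℂ := fun j k => e k (v j)
  let B : Matrix (Fin d) (Fin d) ℂ := fun k j => e k (ω j)
  have hAB : A * B = 1 := by
    ext j k
    rw [Matrix.mul_apply, Matrix.one_apply]
    have := emb_dual v ω hdual j k
    rw [← this]
    exact Fintype.sum_equiv e _ _ (fun _ => rfl)
  have hAdet : A.det ≠ 0 := by
    intro h0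
    have := congrArg Matrix.det hAB
    rw [Matrix.det_mul, h0, zero_mul, Matrix.det_one] at this
    exact zero_ne_one this
  let H : Matrix (Fin d) (Fin d) ℂ := h.map (algebraMap ℝ ℂ)
  have hHdet : H.det ≠ 0 := by
    have : H.det = ((h.det : ℝ) : ℂ) := by
      have := (RingHom.map_det (algebraMap ℝ ℂ) h)
      rw [RingHom.mapMatrix_apply] at this
      exact this.symm
    rw [this]
    exact_mod_cast hdet
  have hCdet : (H * A).det ≠ 0 := by
    rw [Matrix.det_mul]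
    exact mul_ne_zero hHdet hAdet
  rw [Matrix.det_apply] at hCdet
  obtain ⟨p, -, hp⟩ := Finset.exists_ne_zero_of_sum_ne_zero hCdet
  have hprod : ∏ i, (H * A) (p i) i ≠ 0 := by
    intro h0
    rw [h0, smul_zero] at hp
    exact hp rfl
  rw [Finset.prod_ne_zero_iff] at hprod
  refine ⟨p.symm.trans e, fun i => ?_⟩
  have h1 := hprod (p.symm i) (Finset.mem_univ _)
  rw [Equiv.apply_symm_apply, Matrix.mul_apply] at h1
  exact h1

theorem tendsto_cof {K : Type} [Field K] [NumberField K] {d : ℕ} (v : Fin d → K)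
    (h : ℕ → Matrix (Fin d) (Fin d) ℝ) (h' : Matrix (Fin d) (Fin d) ℝ)
    (hlim : Tendsto h atTop (𝓝 h')) (i : Fin d) (σ : K →+* ℂ) :
    Tendsto (fun n => cof v (h n) i σ) atTop (𝓝 (cof v h' i σ)) := by
  unfold cof
  refine tendsto_finsetSum _ fun j _ => Tendsto.mul_const _ ?_
  have h1 : Tendsto (fun n => h n i j) atTop (𝓝 (h' i j)) := by
    have h2 := tendsto_pi_nhds.1 hlim i
    exact tendsto_pi_nhds.1 h2 j
  exact (Complex.continuous_ofReal.tendsto _).comp h1

theorem row_cof {K : Type} [Field K] [NumberField K] {d : ℕ}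
    (hd : Module.finrank ℚ K = d) (v ω : Fin d → K)
    (hdual : ∀ j k, Algebra.trace ℚ K (v j * ω k) = if j = k then 1 else 0)
    (h : Matrix (Fin d) (Fin d) ℝ) (τ : K →+* ℝ) (i₁ : Fin d) (c : ℝ) (hc : c ≠ 0)
    (hrow : ∀ j, c * h i₁ j = τ (ω j)) (σ : K →+* ℂ) (hσ : σ ≠ (Complex.ofRealHom).comp τ) :
    cof v h i₁ σ = 0 := by
  classical
  have h1 := emb_dual' hd v ω hdual ((Complex.ofRealHom).comp τ) σ
  rw [if_neg (Ne.symm hσ)] at h1
  have h2 : (c : ℂ) * cof v h i₁ σ = ∑ j, ((Complex.ofRealHom).comp τ) (ω j) * σ (v j) := by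
    unfold cof
    rw [Finset.mul_sum]
    refine Finset.sum_congr rfl fun j _ => ?_
    have h3 : ((Complex.ofRealHom).comp τ) (ω j) = ((τ (ω j) : ℝ) : ℂ) := rfl
    rw [h3, ← hrow j]
    push_cast
    ring
  rw [h1] at h2
  rcases mul_eq_zero.1 h2 with h3 | h3
  · exact absurd (by exact_mod_cast h3) hc
  · exact h3

theorem col_cof {K : Type} [Field K] [NumberField K] {d : ℕ} (v : Fin d → K)
    (h : Matrix (Fin d) (Fin d) ℝ) (hdet : h.det ≠ 0) (τ : K →+* ℝ) (j₁ : Fin d) (c : ℝ)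
    (hcol : ∀ i, c * h⁻¹ i j₁ = τ (v i)) (i : Fin d) (hi : i ≠ j₁) :
    cof v h i ((Complex.ofRealHom).comp τ) = 0 := by
  classical
  have h1 : h * h⁻¹ = 1 := Matrix.mul_nonsing_inv h (isUnit_iff_ne_zero.2 hdet)
  have h2 := congrFun (congrFun h1 i) j₁
  rw [Matrix.mul_apply, Matrix.one_apply_ne hi] at h2
  have h3 : cof v h i ((Complex.ofRealHom).comp τ) =
      (c : ℂ) * ((∑ j, h i j * h⁻¹ j j₁ : ℝ) : ℂ) := by
    unfold cof
    push_cast
    rw [Finset.mul_sum]
    refine Finset.sum_congr rfl fun j _ => ?_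
    have h4 : ((Complex.ofRealHom).comp τ) (v j) = ((τ (v j) : ℝ) : ℂ) := rfl
    rw [h4, ← hcol j]
    push_cast
    ring
  rw [h3, h2]
  simp

end H46.AF
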