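import Pool.Agent.H46.AF.Coc

/-! # TUBE: units close to a one parameter group

Statement: for `t : E → ℝ` invariant under conjugation with sum `0` there are units `e n` and
reals `s n → +∞` with `σ (e n) * exp (-(s n * t σ)) → 1` for every embedding `σ`.

Proof.  By `coc` choose for every natural `n` a unit `u n` with
`|log ‖σ (u n)‖ - n * t σ| ≤ C`.  The vectors `y n σ = σ (u n) * exp (-(n * t σ))` lie in the compact
set of all `y : E → ℂ` with `exp (-C) ≤ ‖y σ‖ ≤ exp C`.  Take a convergent subsequence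
(`IsCompact.tendsto_subseq`), `y (φ n) → y'`, `y' σ ≠ 0`.  Put `e n = u (φ (2 n)) * (u (φ n))⁻¹` and
`s n = φ (2 n) - φ n ≥ n` (`φ` strictly increasing).  Then
`σ (e n) * exp (-(s n * t σ)) = y (φ (2n)) σ / y (φ n) σ → y' σ / y' σ = 1`. -/

set_option autoImplicit false

open scoped NumberField
open NumberField Filter Topology

namespace H46.AF

theorem tube_mul {K : Type} [Field K] [NumberField K] (σ : K →+* ℂ) (a b : (𝓞 K)ˣ) :
    σ (((a * b : (𝓞 K)ˣ) : 𝓞 K) : K) = σ ((a : 𝓞 K) : K) * σ ((b : 𝓞 K) : K) := by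
  rw [Units.val_mul, RingOfIntegers.coe_eq_algebraMap, map_mul, map_mul]

theorem tube_inv {K : Type} [Field K] [NumberField K] (σ : K →+* ℂ) (b : (𝓞 K)ˣ) :
    σ ((b : 𝓞 K) : K) * σ (((b⁻¹ : (𝓞 K)ˣ) : 𝓞 K) : K) = 1 := by
  rw [← tube_mul, mul_inv_cancel, Units.val_one, RingOfIntegers.coe_eq_algebraMap, map_one, map_one]

theorem tube_ne {K : Type} [Field K] [NumberField K] (σ : K →+* ℂ) (b : (𝓞 K)ˣ) :
    σ ((b : 𝓞 K) : K) ≠ 0 := left_ne_zero_of_mul_eq_one (tube_inv σ b)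

theorem tube {K : Type} [Field K] [NumberField K] (t : (K →+* ℂ) → ℝ)
    (ht : ∀ σ, t (ComplexEmbedding.conjugate σ) = t σ) (h0 : ∑ σ, t σ = 0) :
    ∃ (e : ℕ → (𝓞 K)ˣ) (s : ℕ → ℝ), Tendsto s atTop atTop ∧
      ∀ σ : K →+* ℂ, Tendsto (fun n => σ (((e n : (𝓞 K)ˣ) : 𝓞 K) : K) *
        ((Real.exp (-(s n * t σ)) : ℝ) : ℂ)) atTop (𝓝 1) := by
  obtain ⟨C, hC⟩ := coc K
  have h1 : ∀ n : ℕ, ∃ u : (𝓞 K)ˣ, ∀ σ : K →+* ℂ,
      |Real.log ‖σ ((u : 𝓞 K) : K)‖ - (n : ℝ) * t σ| ≤ C := by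
    intro n
    refine hC (fun σ => (n : ℝ) * t σ) (fun σ => ?_) ?_
    · simp only [ht]
    · rw [← Finset.mul_sum, h0, mul_zero]
  choose u hu using h1
  obtain ⟨y, hy⟩ : ∃ y : ℕ → (K →+* ℂ) → ℂ, ∀ n σ, y n σ = σ ((u n : 𝓞 K) : K) *
      ((Real.exp (-((n : ℝ) * t σ)) : ℝ) : ℂ) := ⟨_, fun _ _ => rfl⟩
  have hyn : ∀ n σ, ‖y n σ‖ = Real.exp (Real.log ‖σ ((u n : 𝓞 K) : K)‖ - (n : ℝ) * t σ) := by
    intro n σ
    have hp : 0 < ‖σ ((u n : 𝓞 K) : K)‖ := norm_pos_iff.2 (tube_ne σ (u n))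
    rw [hy, norm_mul, Complex.norm_real, Real.norm_eq_abs, abs_of_pos (Real.exp_pos _),
      sub_eq_add_neg, Real.exp_add, Real.exp_log hp]
  have hup : ∀ n σ, ‖y n σ‖ ≤ Real.exp C := by
    intro n σ
    rw [hyn]
    exact Real.exp_le_exp.2 (abs_le.1 (hu n σ)).2
  have hlo : ∀ n σ, Real.exp (-C) ≤ ‖y n σ‖ := by
    intro n σ
    rw [hyn]
    exact Real.exp_le_exp.2 (abs_le.1 (hu n σ)).1
  have hcpt : IsCompact (Set.univ.pi fun _ : K →+* ℂ => Metric.closedBall (0 : ℂ) (Real.exp C)) :=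
    isCompact_univ_pi fun _ => isCompact_closedBall _ _
  have hmem : ∀ n, y n ∈ (Set.univ.pi fun _ : K →+* ℂ => Metric.closedBall (0 : ℂ) (Real.exp C)) := by
    intro n σ _
    rw [mem_closedBall_zero_iff]
    exact hup n σ
  obtain ⟨y', -, φ, hφ, hlim⟩ := hcpt.tendsto_subseq hmem
  rw [tendsto_pi_nhds] at hlim
  have hy' : ∀ σ, y' σ ≠ 0 := by
    intro σ
    have h2 : Real.exp (-C) ≤ ‖y' σ‖ :=
      ge_of_tendsto (hlim σ).norm (Eventually.of_forall fun n => hlo (φ n) σ)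
    exact norm_pos_iff.1 (lt_of_lt_of_le (Real.exp_pos _) h2)
  have h2n : Tendsto (fun n : ℕ => 2 * n) atTop atTop :=
    tendsto_atTop_mono (f := fun n : ℕ => n) (fun n => by omega) tendsto_id
  refine ⟨fun n => u (φ (2 * n)) * (u (φ n))⁻¹, fun n => (φ (2 * n) : ℝ) - (φ n : ℝ), ?_, ?_⟩
  · refine tendsto_atTop_mono (fun n => ?_) (tendsto_natCast_atTop_atTop (R := ℝ))
    have h3 : n + φ n ≤ φ (n + n) := hφ.add_le_nat n n
    have h4 : n + n = 2 * n := by ring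
    rw [h4] at h3
    have h5 : ((n + φ n : ℕ) : ℝ) ≤ ((φ (2 * n) : ℕ) : ℝ) := by exact_mod_cast h3
    push_cast at h5
    linarith
  · intro σ
    have h3 : Tendsto (fun n => y (φ (2 * n)) σ / y (φ n) σ) atTop (𝓝 (y' σ / y' σ)) :=
      ((hlim σ).comp h2n).div (hlim σ) (hy' σ)
    rw [div_self (hy' σ)] at h3
    refine h3.congr fun n => ?_
    have h4 := tube_ne σ (u (φ n))
    have h5 : σ ((((u (φ n))⁻¹ : (𝓞 K)ˣ) : 𝓞 K) : K) = (σ ((u (φ n) : 𝓞 K) : K))⁻¹ :=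
      eq_inv_of_mul_eq_one_right (tube_inv σ (u (φ n)))
    have h6 : Real.exp (-(((φ (2 * n) : ℝ) - (φ n : ℝ)) * t σ)) =
        Real.exp (-((φ (2 * n) : ℝ) * t σ)) * (Real.exp (-((φ n : ℝ) * t σ)))⁻¹ := by
      rw [← Real.exp_neg, ← Real.exp_add]
      congr 1
      ring
    have h7 : ((Real.exp (-((φ n : ℝ) * t σ)) : ℝ) : ℂ) ≠ 0 :=
      Complex.ofReal_ne_zero.2 (Real.exp_pos _).ne'
    rw [hy, hy, tube_mul, h5, h6, Complex.ofReal_mul, Complex.ofReal_inv]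
    field_simp

end H46.AF
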