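import Pool.Agent.H46.AF.Tube
import Pool.Agent.H46.AF.Sub

/-! # UNITS2: units with prescribed ratio at two places and one sided growth at the others

`K` totally real of degree at least `3`, `σ₁ ≠ σ₂`, `b > 0`.  There are units `u n` with all
`σ (u n)` positive, `σ₁ (u n) / σ₂ (u n) → b`, and `σ (u n) / σ₁ (u n) → ∞` for all other `σ`.

Proof.  Let `t σ₁ = t σ₂ = -T`, and let the values `t σ > 0`, `σ` different from both, be distinct
(e.g. `1, 2, …, D - 2` through an enumeration), `2 T` their sum.  Take `e, s` from `tube t`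
(all embeddings are real, so the condition on conjugation is trivial).  Let
`ρ u = log (|σ₁ u| / |σ₂ u|)`, additive on units.  (1) `ρ (e n) → 0`, and for `σ` different from both
`log (|σ (e n)| / |σ₁ (e n)|) = s n (t σ + T) + o(1) → ∞`; drop finitely many `n` so that it is `≥ 1`
for all `n`, and `σ (e n) > 0` for all `σ`.  (2) `ρ (e n) ≠ 0` for large `n`: if `|σ₁ (e n)| = |σ₂ (e n)|` then
(positive reals) `σ₁ (e n) = σ₂ (e n)`; as the degree is at least `3` there is `σ ∉ {σ₁, σ₂}` and `sub` gives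
`σ' ≠ σ` with `σ' (e n) = σ (e n)`; but `t σ' ≠ t σ`, contradiction for large `n` since
`log |σ (e n)| - log |σ' (e n)| = s n (t σ - t σ') + o(1)`.  (3) Let `β = log b`.  If for infinitely
many `n` (pass to a subsequence) the sign of `ρ (e n)` is that of `β` and `β ≠ 0`: `u n = e n ^ (k n)`
with `k n = ⌊β / ρ (e n)⌋₊`; then `k n → ∞`, `ρ (u n) → β`.  In general choose first a unit `η`, a power
(positive or negative) of some `e m`, so that `β - ρ η` is nonzero and has the sign of `ρ (e n)` for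
infinitely many `n` (possible because `ρ (e m) ≠ 0`), and `u n = η * e n ^ (k n)`,
`k n = ⌊(β - ρ η) / ρ (e n)⌋₊ → ∞` along the subsequence.  Then `|ρ (u n) - β| ≤ |ρ (e n)| → 0`, and
`log (|σ (u n)| / |σ₁ (u n)|) ≥ k n - |const| → ∞`.  Positivity is clear for `η`, `e n`. -/

set_option autoImplicit false

open scoped NumberField
open NumberField Filter Topology

namespace H46.AF

/-- the real number part of the construction -/
theorem u2_core {ι : Type} [Fintype ι] (r : ℕ → ℝ) (g : ι → ℕ → ℝ) (hr0 : ∀ n, r n ≠ 0)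
    (hr : Tendsto r atTop (𝓝 0)) (hg : ∀ i n, 1 ≤ g i n) (β ε M : ℝ) (hε : 0 < ε) :
    ∃ m j n k : ℕ, |-((j : ℝ) * r m) + (k : ℝ) * r n - β| < ε ∧
      ∀ i, M ≤ -((j : ℝ) * g i m) + (k : ℝ) * g i n := by
  have h1 : ∃ s : ℝ, |s| = 1 ∧ ∃ᶠ n in atTop, 0 < s * r n := by
    have h2 : ∃ᶠ n in atTop, (0 < r n ∨ 0 < -r n) := by
      apply Frequently.of_forall
      intro n
      rcases lt_or_gt_of_ne (hr0 n) with h | h
      · right; linarith
      · left; exact h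
    rcases frequently_or_distrib.1 h2 with h | h
    · exact ⟨1, abs_one, h.mono fun n hn => by rwa [one_mul]⟩
    · exact ⟨-1, by rw [abs_neg, abs_one], h.mono fun n hn => by rwa [neg_one_mul]⟩
  obtain ⟨s, hs1, hs⟩ := h1
  obtain ⟨m, hm⟩ := hs.exists
  obtain ⟨j, hj⟩ := exists_nat_ge ((1 - s * β) / (s * r m))
  have hj1 : 1 ≤ s * β + (j : ℝ) * (s * r m) := by
    rw [div_le_iff₀ hm] at hj
    linarith
  obtain ⟨β', hβ'⟩ : ∃ β', β' = s * β + (j : ℝ) * (s * r m) := ⟨_, rfl⟩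
  rw [← hβ'] at hj1
  obtain ⟨B, hB⟩ : ∃ B, B = M + (j : ℝ) * ∑ i, |g i m| := ⟨_, rfl⟩
  have hB2 : 0 < |B| + 2 := by positivity
  have hsmall : ∀ᶠ n in atTop, |r n| < min ε (1 / (|B| + 2)) := by
    have h3 := hr.abs
    rw [abs_zero] at h3
    exact h3.eventually_lt_const (by positivity)
  obtain ⟨n, hn1, hn2⟩ := (hs.and_eventually hsmall).exists
  rw [lt_min_iff] at hn2
  obtain ⟨q, hq⟩ : ∃ q, q = s * r n := ⟨_, rfl⟩
  have hqa : |r n| = q := by
    rw [hq, ← abs_of_pos hn1, abs_mul, hs1, one_mul]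
  rw [← hq] at hn1
  rw [hqa] at hn2
  obtain ⟨k, hk⟩ : ∃ k : ℕ, k = ⌊β' / q⌋₊ := ⟨_, rfl⟩
  have hk1 : (k : ℝ) ≤ β' / q := by
    rw [hk]
    exact Nat.floor_le (by positivity)
  have hk2 : β' / q < (k : ℝ) + 1 := by
    rw [hk]
    exact Nat.lt_floor_add_one _
  rw [le_div_iff₀ hn1] at hk1
  rw [div_lt_iff₀ hn1] at hk2
  refine ⟨m, j, n, k, ?_, fun i => ?_⟩
  · have h4 : |-((j : ℝ) * r m) + (k : ℝ) * r n - β| = |(k : ℝ) * q - β'| := by
      have h5 : (k : ℝ) * q - β' = s * (-((j : ℝ) * r m) + (k : ℝ) * r n - β) := by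
        rw [hq, hβ']
        ring
      rw [h5, abs_mul, hs1, one_mul]
    rw [h4, abs_lt]
    constructor
    · linarith [hn2.1]
    · linarith [hn2.1]
  · have h5 : |B| + 2 < (k : ℝ) + 1 := by
      have h6 : q * (|B| + 2) < 1 := by
        have h7 := hn2.2
        rw [lt_div_iff₀ hB2] at h7
        exact h7
      have h8 : q * (|B| + 2) < q * ((k : ℝ) + 1) := by
        linarith
      exact lt_of_mul_lt_mul_left h8 hn1.le
    have h6 : B ≤ (k : ℝ) := by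
      have := le_abs_self B
      linarith
    have h7 : (k : ℝ) ≤ (k : ℝ) * g i n := by
      have := hg i n
      have hk0 : (0 : ℝ) ≤ (k : ℝ) := Nat.cast_nonneg k
      nlinarith
    have h8 : (j : ℝ) * g i m ≤ (j : ℝ) * ∑ i, |g i m| := by
      apply mul_le_mul_of_nonneg_left _ (Nat.cast_nonneg j)
      exact (le_abs_self _).trans (Finset.single_le_sum (f := fun i => |g i m|)
        (fun i _ => abs_nonneg _) (Finset.mem_univ i))
    linarith

section real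

variable {K : Type} [Field K] [NumberField K]

/-- the real value of an embedding at a unit -/
noncomputable def u2v (σ : K →+* ℂ) (u : (𝓞 K)ˣ) : ℝ := (σ ((u : 𝓞 K) : K)).re

theorem u2_real (hreal : ∀ σ : K →+* ℂ, ComplexEmbedding.conjugate σ = σ) (σ : K →+* ℂ) (x : K) :
    (((σ x).re : ℝ) : ℂ) = σ x := by
  have h1 : (starRingEnd ℂ) (σ x) = σ x := by
    have h2 := DFunLike.congr_fun (hreal σ) x
    rwa [ComplexEmbedding.conjugate_coe_eq] at h2
  exact Complex.conj_eq_iff_re.1 h1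

theorem u2_mul (hreal : ∀ σ : K →+* ℂ, ComplexEmbedding.conjugate σ = σ) (σ : K →+* ℂ)
    (u v : (𝓞 K)ˣ) : u2v σ (u * v) = u2v σ u * u2v σ v := by
  unfold u2v
  apply Complex.ofReal_injective
  rw [Complex.ofReal_mul, u2_real hreal, u2_real hreal, u2_real hreal, tube_mul]

theorem u2_one (σ : K →+* ℂ) : u2v σ 1 = 1 := by
  unfold u2v
  rw [Units.val_one, RingOfIntegers.coe_eq_algebraMap, map_one, map_one, Complex.one_re]

theorem u2_ne (hreal : ∀ σ : K →+* ℂ, ComplexEmbedding.conjugate σ = σ) (σ : K →+* ℂ)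
    (u : (𝓞 K)ˣ) : u2v σ u ≠ 0 := by
  intro h
  have h1 := u2_mul hreal σ u u⁻¹
  rw [mul_inv_cancel, u2_one, h, zero_mul] at h1
  exact one_ne_zero h1

theorem u2_inv (hreal : ∀ σ : K →+* ℂ, ComplexEmbedding.conjugate σ = σ) (σ : K →+* ℂ)
    (u : (𝓞 K)ˣ) : u2v σ u⁻¹ = (u2v σ u)⁻¹ := by
  have h1 := u2_mul hreal σ u u⁻¹
  rw [mul_inv_cancel, u2_one] at h1
  exact eq_inv_of_mul_eq_one_right h1.symm

theorem u2_pow (hreal : ∀ σ : K →+* ℂ, ComplexEmbedding.conjugate σ = σ) (σ : K →+* ℂ)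
    (u : (𝓞 K)ˣ) (n : ℕ) : u2v σ (u ^ n) = u2v σ u ^ n := by
  induction n with
  | zero => rw [pow_zero, pow_zero, u2_one]
  | succ n ih => rw [pow_succ, pow_succ, u2_mul hreal, ih]

/-- logarithm and positivity of the product -/
theorem u2_comb (hreal : ∀ σ : K →+* ℂ, ComplexEmbedding.conjugate σ = σ) (σ : K →+* ℂ)
    (a b : (𝓞 K)ˣ) (j k : ℕ) :
    Real.log (u2v σ ((a⁻¹) ^ j * b ^ k)) =
      -((j : ℝ) * Real.log (u2v σ a)) + (k : ℝ) * Real.log (u2v σ b) := by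
  rw [u2_mul hreal, u2_pow hreal, u2_pow hreal, u2_inv hreal,
    Real.log_mul (pow_ne_zero _ (inv_ne_zero (u2_ne hreal σ a))) (pow_ne_zero _ (u2_ne hreal σ b)),
    Real.log_pow, Real.log_pow, Real.log_inv, mul_neg]

theorem u2_comb_pos (hreal : ∀ σ : K →+* ℂ, ComplexEmbedding.conjugate σ = σ) (σ : K →+* ℂ)
    (a b : (𝓞 K)ˣ) (j k : ℕ) (ha : 0 < u2v σ a) (hb : 0 < u2v σ b) :
    0 < u2v σ ((a⁻¹) ^ j * b ^ k) := by
  rw [u2_mul hreal, u2_pow hreal, u2_pow hreal, u2_inv hreal]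
  positivity

/-- the values `t` -/
theorem u2_t (σ₁ σ₂ : K →+* ℂ) (hne : σ₁ ≠ σ₂) :
    ∃ (t : (K →+* ℂ) → ℝ) (T : ℝ), 0 ≤ T ∧ t σ₁ = -T ∧ t σ₂ = -T ∧
      (∀ σ, σ ≠ σ₁ → σ ≠ σ₂ → 0 < t σ) ∧ ∑ σ, t σ = 0 ∧
      ∀ σ, σ ≠ σ₁ → σ ≠ σ₂ → ∀ σ', σ' ≠ σ → t σ' ≠ t σ := by
  classical
  obtain ⟨f, hf⟩ : ∃ f : (K →+* ℂ) → ℝ, f = fun σ => (((Fintype.equivFin (K →+* ℂ)) σ : ℕ) : ℝ) + 1 :=
    ⟨_, rfl⟩
  have hf0 : ∀ σ, 0 < f σ := by
    intro σ
    rw [hf]
    positivity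
  have hfi : ∀ σ σ', f σ = f σ' → σ = σ' := by
    intro σ σ' h
    rw [hf] at h
    simp only [add_left_inj, Nat.cast_inj] at h
    exact (Fintype.equivFin _).injective (Fin.ext h)
  obtain ⟨T, hT⟩ : ∃ T : ℝ, T = (∑ σ ∈ Finset.univ.filter (fun σ => ¬ (σ = σ₁ ∨ σ = σ₂)), f σ) / 2 :=
    ⟨_, rfl⟩
  have hT0 : 0 ≤ T := by
    rw [hT]
    have := Finset.sum_nonneg (s := Finset.univ.filter (fun σ => ¬ (σ = σ₁ ∨ σ = σ₂)))
      (f := f) (fun σ _ => (hf0 σ).le)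
    linarith
  refine ⟨fun σ => if σ = σ₁ ∨ σ = σ₂ then -T else f σ, T, hT0, by simp, by simp, ?_, ?_, ?_⟩
  · intro σ h1 h2
    simp only [h1, h2, or_self, if_false]
    exact hf0 σ
  · rw [Finset.sum_ite]
    have h1 : (Finset.univ.filter (fun σ => σ = σ₁ ∨ σ = σ₂)).card = 2 := by
      have h2 : Finset.univ.filter (fun σ => σ = σ₁ ∨ σ = σ₂) = {σ₁, σ₂} := by
        ext σ
        simp
      rw [h2, Finset.card_pair hne]
    rw [Finset.sum_const, h1, nsmul_eq_mul]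
    have h3 : ∑ σ ∈ Finset.univ.filter (fun σ => ¬ (σ = σ₁ ∨ σ = σ₂)), f σ = 2 * T := by
      rw [hT]
      ring
    rw [h3]
    push_cast
    ring
  · intro σ h1 h2 σ' h3
    simp only [h1, h2, or_self, if_false]
    split_ifs with h4
    · have := hf0 σ
      intro h5
      linarith
    · intro h5
      exact h3 (hfi _ _ h5)

end real

theorem units2_approx {K : Type} [Field K] [NumberField K] (hd : 3 ≤ Module.finrank ℚ K)
    (hreal : ∀ σ : K →+* ℂ, ComplexEmbedding.conjugate σ = σ) {σ₁ σ₂ : K →+* ℂ} (hne : σ₁ ≠ σ₂)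
    (β ε M : ℝ) (hε : 0 < ε) :
    ∃ u : (𝓞 K)ˣ, (∀ σ : K →+* ℂ, 0 < u2v σ u) ∧
      |Real.log (u2v σ₁ u) - Real.log (u2v σ₂ u) - β| < ε ∧
      ∀ σ : K →+* ℂ, σ ≠ σ₁ → σ ≠ σ₂ →
        M ≤ Real.log (u2v σ u) - Real.log (u2v σ₁ u) := by
  classical
  obtain ⟨t, T, hT, ht1, ht2, htp, hts, hti⟩ := u2_t σ₁ σ₂ hne
  obtain ⟨e, s, hs, he⟩ := tube t (fun σ => by rw [hreal σ]) hts
  have he1 : ∀ σ, Tendsto (fun n => u2v σ (e n) * Real.exp (-(s n * t σ))) atTop (𝓝 1) := by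
    intro σ
    have h1 := (Complex.continuous_re.tendsto 1).comp (he σ)
    rw [Complex.one_re] at h1
    refine h1.congr fun n => ?_
    rw [Function.comp_apply, Complex.re_mul_ofReal]
    rfl
  have hpos : ∀ σ, ∀ᶠ n in atTop, 0 < u2v σ (e n) := by
    intro σ
    filter_upwards [(he1 σ).eventually_const_lt (zero_lt_one)] with n hn
    exact (mul_pos_iff_of_pos_right (Real.exp_pos _)).1 hn
  have hlog : ∀ σ, Tendsto (fun n => Real.log (u2v σ (e n)) - s n * t σ) atTop (𝓝 0) := by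
    intro σ
    have h1 := (he1 σ).log one_ne_zero
    rw [Real.log_one] at h1
    refine h1.congr fun n => ?_
    rw [Real.log_mul (u2_ne hreal σ (e n)) (Real.exp_pos _).ne', Real.log_exp]
    ring
  have hgrow : ∀ σ σ', t σ' < t σ →
      Tendsto (fun n => Real.log (u2v σ (e n)) - Real.log (u2v σ' (e n))) atTop atTop := by
    intro σ σ' h
    have h1 := (hlog σ).sub (hlog σ')
    have h2 : Tendsto (fun n => s n * (t σ - t σ')) atTop atTop :=
      hs.atTop_mul_const (by linarith)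
    refine (h1.add_atTop h2).congr fun n => ?_
    ring
  have hr : Tendsto (fun n => Real.log (u2v σ₁ (e n)) - Real.log (u2v σ₂ (e n))) atTop (𝓝 0) := by
    have h1 := (hlog σ₁).sub (hlog σ₂)
    rw [sub_zero] at h1
    refine h1.congr fun n => ?_
    rw [ht1, ht2]
    ring
  have hne' : ∀ σ σ', t σ' ≠ t σ → ∀ᶠ n in atTop, u2v σ' (e n) ≠ u2v σ (e n) := by
    intro σ σ' h
    rcases lt_or_gt_of_ne h with h | h
    · filter_upwards [(hgrow σ σ' h).eventually_gt_atTop 0] with n hn heq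
      rw [heq, sub_self] at hn
      exact lt_irrefl _ hn
    · filter_upwards [(hgrow σ' σ h).eventually_gt_atTop 0] with n hn heq
      rw [heq, sub_self] at hn
      exact lt_irrefl _ hn
  obtain ⟨σ₃, h31, h32⟩ : ∃ σ₃ : K →+* ℂ, σ₃ ≠ σ₁ ∧ σ₃ ≠ σ₂ := by
    have h1 : ({σ₁, σ₂} : Finset (K →+* ℂ)).card < (Finset.univ : Finset (K →+* ℂ)).card := by
      rw [Finset.card_univ, NumberField.Embeddings.card]
      exact lt_of_le_of_lt Finset.card_le_two (by omega)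
    obtain ⟨σ₃, -, h3⟩ := Finset.exists_mem_notMem_of_card_lt_card h1
    rw [Finset.mem_insert, Finset.mem_singleton, not_or] at h3
    exact ⟨σ₃, h3.1, h3.2⟩
  have hrne : ∀ᶠ n in atTop, Real.log (u2v σ₁ (e n)) - Real.log (u2v σ₂ (e n)) ≠ 0 := by
    have h1 : ∀ᶠ n in atTop, ∀ σ', σ' ≠ σ₃ → u2v σ' (e n) ≠ u2v σ₃ (e n) := by
      rw [Filter.eventually_all]
      intro σ'
      by_cases h : σ' = σ₃
      · exact Eventually.of_forall fun n h' => absurd h h'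
      · filter_upwards [hne' σ₃ σ' (hti σ₃ h31 h32 σ' h)] with n hn _
        exact hn
    filter_upwards [h1, hpos σ₁, hpos σ₂] with n hn hp1 hp2 h0
    have h2 : u2v σ₁ (e n) = u2v σ₂ (e n) :=
      Real.log_injOn_pos hp1 hp2 (by linarith)
    have h3 : σ₁ (((e n : (𝓞 K)ˣ) : 𝓞 K) : K) = σ₂ (((e n : (𝓞 K)ˣ) : 𝓞 K) : K) := by
      rw [← u2_real hreal σ₁, ← u2_real hreal σ₂]
      exact congrArg _ h2
    obtain ⟨ρ', hρ1, hρ2⟩ := sub hne h3 σ₃
    exact hn ρ' hρ1 (congrArg Complex.re hρ2)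
  have hall : ∀ᶠ n in atTop, (∀ σ, 0 < u2v σ (e n)) ∧
      (Real.log (u2v σ₁ (e n)) - Real.log (u2v σ₂ (e n)) ≠ 0) ∧
      ∀ σ, σ ≠ σ₁ → σ ≠ σ₂ → 1 ≤ Real.log (u2v σ (e n)) - Real.log (u2v σ₁ (e n)) := by
    refine (Filter.eventually_all.2 hpos).and (hrne.and ?_)
    rw [Filter.eventually_all]
    intro σ
    by_cases h1 : σ = σ₁
    · exact Eventually.of_forall fun n h' => absurd h1 h'
    by_cases h2 : σ = σ₂
    · exact Eventually.of_forall fun n _ h' => absurd h2 h'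
    have h3 : t σ₁ < t σ := by
      have := htp σ h1 h2
      rw [ht1]
      linarith
    filter_upwards [(hgrow σ σ₁ h3).eventually_ge_atTop 1] with n hn _ _
    exact hn
  obtain ⟨N, hN⟩ := eventually_atTop.1 hall
  obtain ⟨m, j, n, k, hc1, hc2⟩ := u2_core (ι := {σ : K →+* ℂ // σ ≠ σ₁ ∧ σ ≠ σ₂})
    (fun n => Real.log (u2v σ₁ (e (n + N))) - Real.log (u2v σ₂ (e (n + N))))
    (fun σ n => Real.log (u2v σ.1 (e (n + N))) - Real.log (u2v σ₁ (e (n + N))))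
    (fun n => (hN (n + N) (by omega)).2.1)
    (hr.comp (tendsto_add_atTop_nat N))
    (fun σ n => (hN (n + N) (by omega)).2.2 σ.1 σ.2.1 σ.2.2) β ε M hε
  refine ⟨((e (m + N))⁻¹) ^ j * (e (n + N)) ^ k, fun σ => ?_, ?_, fun σ h1 h2 => ?_⟩
  · exact u2_comb_pos hreal σ _ _ j k ((hN (m + N) (by omega)).1 σ) ((hN (n + N) (by omega)).1 σ)
  · rw [u2_comb hreal, u2_comb hreal]
    convert hc1 using 2
    ring
  · have h3 := hc2 ⟨σ, h1, h2⟩
    rw [u2_comb hreal, u2_comb hreal]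
    refine h3.trans (le_of_eq ?_)
    ring

theorem units2 {K : Type} [Field K] [NumberField K] (hd : 3 ≤ Module.finrank ℚ K)
    (hreal : ∀ σ : K →+* ℂ, ComplexEmbedding.conjugate σ = σ) {σ₁ σ₂ : K →+* ℂ} (hne : σ₁ ≠ σ₂)
    (b : ℝ) (hb : 0 < b) :
    ∃ u : ℕ → (𝓞 K)ˣ, (∀ n (σ : K →+* ℂ), 0 < (σ (((u n : (𝓞 K)ˣ) : 𝓞 K) : K)).re) ∧
      Tendsto (fun n => (σ₁ (((u n : (𝓞 K)ˣ) : 𝓞 K) : K)).re /
        (σ₂ (((u n : (𝓞 K)ˣ) : 𝓞 K) : K)).re) atTop (𝓝 b) ∧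
      ∀ σ : K →+* ℂ, σ ≠ σ₁ → σ ≠ σ₂ →
        Tendsto (fun n => (σ (((u n : (𝓞 K)ˣ) : 𝓞 K) : K)).re /
          (σ₁ (((u n : (𝓞 K)ˣ) : 𝓞 K) : K)).re) atTop atTop := by
  have h1 := fun n : ℕ => units2_approx hd hreal hne (Real.log b) (1 / ((n : ℝ) + 1)) (n : ℝ)
    (by positivity)
  choose u hu1 hu2 hu3 using h1
  have hdiv : ∀ n (σ σ' : K →+* ℂ), (σ (((u n : (𝓞 K)ˣ) : 𝓞 K) : K)).re /
        (σ' (((u n : (𝓞 K)ˣ) : 𝓞 K) : K)).re =
      Real.exp (Real.log (u2v σ (u n)) - Real.log (u2v σ' (u n))) := by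
    intro n σ σ'
    rw [Real.exp_sub, Real.exp_log (hu1 n σ), Real.exp_log (hu1 n σ')]
    rfl
  refine ⟨u, hu1, ?_, fun σ hσ1 hσ2 => ?_⟩
  · have h2 : Tendsto (fun n => Real.log (u2v σ₁ (u n)) - Real.log (u2v σ₂ (u n)) - Real.log b)
        atTop (𝓝 0) := by
      apply squeeze_zero_norm (a := fun n : ℕ => 1 / ((n : ℝ) + 1))
      · intro n
        rw [Real.norm_eq_abs]
        exact (hu2 n).le
      · exact tendsto_one_div_add_atTop_nhds_zero_nat
    have h3 := h2.add_const (Real.log b)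
    rw [zero_add] at h3
    have h4 := (Real.continuous_exp.tendsto _).comp h3
    rw [Real.exp_log hb] at h4
    refine h4.congr fun n => ?_
    rw [hdiv, Function.comp_apply, sub_add_cancel]
  · have h2 : Tendsto (fun n : ℕ => Real.exp (n : ℝ)) atTop atTop :=
      Real.tendsto_exp_atTop.comp tendsto_natCast_atTop_atTop
    refine tendsto_atTop_mono (fun n => ?_) h2
    rw [hdiv]
    exact Real.exp_le_exp.2 (hu3 n σ hσ1 hσ2)

end H46.AF
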